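import Pool.Agent.P.MP_e3cf1a_co.Sh.Iface

/-! Steps PAIR, STR, M2, H2, PT2, EX2. -/

namespace Pool.Agent.P.MP_e3cf1a_co.X

section

open Finset

theorem p_PAIR :
    S_PAIR := by
  classical
  intro n D w W C A γ hγ hW hC hw hle
  have cf : ∀ p : Fin n → Prop, (univ.filter p).card = ct p := fun p => by
    unfold ct st
    congr
  have h1 : ∑ b, ((st A).filter fun x => W x b).card = ∑ x ∈ st A, ct (W x) := by
    simp only [card_filter, ct_eq_sum]
    exact sum_comm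
  have h2 := sq_sum_le_card_mul_sum_sq (s := univ)
    (f := fun b => ((st A).filter fun x => W x b).card)
  have k1 : ∑ u ∈ st A, ∑ v ∈ st A, (if v ∈ C u then 1 else 0) ≤ ct A * D :=
    sum_le_card_nsmul _ _ _ fun u hu => by
      rw [← card_filter]
      exact (card_le_card fun v hv => (mem_filter.1 hv).2).trans (hC u (mem_st.1 hu))
  have k0 : ∑ u ∈ st A, ∑ v ∈ st A, (if u = v then 1 else 0) ≤ ct A * 1 :=
    sum_le_card_nsmul _ _ _ fun u hu => by simp [hu]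
  have h3 : ∑ u ∈ st A, ∑ v ∈ st A, (univ.filter fun b => W u b ∧ W v b).card ≤
      ∑ u ∈ st A, ∑ v ∈ st A, (w + n * ((if u = v then 1 else 0) +
        (if v ∈ C u then 1 else 0) + if u ∈ C v then 1 else 0)) := by
    refine sum_le_sum fun u hu => sum_le_sum fun v hv => ?_
    have a := card_le_univ (univ.filter fun b => W u b ∧ W v b)
    rw [Fintype.card_fin] at a
    by_cases e : u ≠ v ∧ v ∉ C u ∧ u ∉ C v
    · refine le_trans (le_of_eq ?_) ((hw u v (mem_st.1 hu) (mem_st.1 hv) e.1 e.2.1 e.2.2).trans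
        (Nat.le_add_right _ _))
      rw [← cf]
      congr
    · refine a.trans (le_add_left (Nat.le_mul_of_pos_right _ ?_))
      split_ifs <;> simp_all
  simp only [sum_add_distrib, ← mul_sum, sum_const, smul_eq_mul] at h3
  rw [sum_comm (f := fun u v => if u ∈ C v then 1 else 0)] at h3
  rw [h1, sum_card_filter_sq (fun b x => W x b), card_univ, Fintype.card_fin] at h2
  have h4 : (∑ x ∈ st A, ct (W x)) ^ 2 ≤ n * (ct A * (ct A * w) + n * (ct A * (2 * D + 1))) :=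
    h2.trans (Nat.mul_le_mul_left _ (h3.trans (Nat.add_le_add_left
      (Nat.mul_le_mul_left _ (by linarith)) _)))
  have h5 : (ct A : ℝ) * (γ * n) ≤ ∑ x ∈ st A, (ct (W x) : ℝ) := by
    rw [← nsmul_eq_mul]
    exact card_nsmul_le_sum (st A) _ _ fun x hx => hW x (mem_st.1 hx)
  rcases Nat.eq_zero_or_pos (ct A) with h0 | h0
  · rw [h0, Nat.cast_zero]
    positivity
  have ha : (0 : ℝ) < ct A := by exact_mod_cast h0
  have hn : (0 : ℝ) < n := by exact_mod_cast (exists_of_ct_pos h0).choose.pos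
  have h6 : (∑ x ∈ st A, (ct (W x) : ℝ)) ^ 2 ≤
      n * (ct A * (ct A * w) + n * (ct A * (2 * D + 1))) := by exact_mod_cast h4
  have h7 := pow_le_pow_left₀ (by positivity) h5 2
  have h8 := mul_le_mul_of_nonneg_left hle (show (0 : ℝ) ≤ n * ct A ^ 2 by positivity)
  rw [le_div_iff₀ (by positivity)]
  refine le_of_mul_le_mul_left ?_ (show (0 : ℝ) < n ^ 2 * ct A by positivity)
  linarith

end

section

open Finset

namespace STRa

variable {U : Type*} [Fintype U] [DecidableEq U] {H : Finset (Finset U)} {d s : ℕ}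

lemma hit_le (x q : U) :
    ct (fun b => good H d s x b ∧ q ∈ link2 H x b ∧ pop H d x q ≤ s) ≤ s := by
  by_cases h : pop H d x q ≤ s
  · exact le_trans (ct_mono fun b hb => ⟨hb.1.1, hb.2.1⟩) h
  · rw [ct_eq_zero fun b hb => h hb.2.2]
    exact Nat.zero_le _

lemma one_of {x b : U} (h : good H d s x b) : ∃ z, z ∈ link2 H x b ∧ pop H d x z ≤ s := by
  rcases h.2 with h | ⟨z, h1, h2, -⟩
  · exact exists_of_ct_pos (by omega)
  · exact ⟨z, h1, h2⟩

lemma other {p : U → Prop} (h : 2 ≤ ct p) (w : U) : ∃ z, p z ∧ z ≠ w := by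
  obtain ⟨a, b, e, ha, hb⟩ := exists_two_of_ct h
  by_cases h1 : a = w
  · exact ⟨b, hb, fun h2 => e (h1.trans h2.symm)⟩
  · exact ⟨a, ha, h1⟩

end STRa

open STRa in
theorem p_STR :
    S_STR := by
  intro n d s T H _ hd
  refine ⟨fun x y h => rob_two fun Q hQ => ?_, fun x => ?_⟩
  · obtain ⟨b, ⟨gx, gy⟩, hb⟩ := avoid Q (fun q b => q = b ∨ (q ∈ link2 H x b ∧ pop H d x q ≤ s) ∨
      (q ∈ link2 H y b ∧ pop H d y q ≤ s)) (1 + 2 * s) (fun q _ => by
        have h1 := hit_le (H := H) (d := d) (s := s) x q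
        have h2 := hit_le (H := H) (d := d) (s := s) y q
        have h3 : ct (fun b => q = b) ≤ 1 :=
          (ct_le_of_sub (s := {q}) fun b hb => by simp [hb]).trans (by simp)
        refine le_trans (ct_or (q := fun b => q = b) (r := fun b =>
          (good H d s x b ∧ q ∈ link2 H x b ∧ pop H d x q ≤ s) ∨
          (good H d s y b ∧ q ∈ link2 H y b ∧ pop H d y q ≤ s)) fun b hb => by tauto) ?_
        have h4 := ct_or (p := fun b => (good H d s x b ∧ q ∈ link2 H x b ∧ pop H d x q ≤ s) ∨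
          (good H d s y b ∧ q ∈ link2 H y b ∧ pop H d y q ≤ s)) fun b hb => hb
        omega) ((Nat.mul_le_mul_right _ hQ).trans_lt h)
    have b0 : b ∉ Q := fun hq => hb b hq (.inl rfl)
    have bx : ∀ z, z ∈ link2 H x b ∧ pop H d x z ≤ s → z ∉ Q := fun z hz hq =>
      hb z hq (.inr (.inl hz))
    have by' : ∀ z, z ∈ link2 H y b ∧ pop H d y z ≤ s → z ∉ Q := fun z hz hq =>
      hb z hq (.inr (.inr hz))
    rcases gx.2 with h1 | ⟨z, z1, z2, z3⟩
    · obtain ⟨w, hw⟩ := one_of gy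
      obtain ⟨z, hz, e⟩ := other h1 w
      exact ⟨b, z, w, b0, bx z hz, by' w hw, e, hz.1, hw.1⟩
    rcases gy.2 with h1 | ⟨w, w1, w2, w3⟩
    · obtain ⟨w, hw, e⟩ := other h1 z
      exact ⟨b, z, w, b0, bx z ⟨z1, z2⟩, by' w hw, e.symm, z1, hw.1⟩
    by_cases e : z = w
    · subst e
      obtain ⟨u, u1, u2⟩ := exists_mem_notMem_of_card_lt_card (s := Q) (t := link2 H x z)
        (by unfold cd at z3; omega)
      obtain ⟨v, v1, v2⟩ := exists_mem_notMem_of_card_lt_card (s := insert u Q) (t := link2 H y z)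
        (by have := card_insert_le u Q; unfold cd at w3; omega)
      rw [mem_insert, not_or] at v2
      exact ⟨z, u, v, bx z ⟨z1, z2⟩, u2, v2.2, Ne.symm v2.1, u1, v1⟩
    · exact ⟨b, z, w, b0, bx z ⟨z1, z2⟩, by' w ⟨w1, w2⟩, e, z1, w1⟩
  · have h1 : ∑ z, pop H d x z ≤ n * d := by
      have := c2_le_mul (E := fun y z => cd H x y < d ∧ z ∈ link2 H x y) (m := d) fun y => by
        by_cases h : cd H x y < d
        · exact (ct_le_of_sub fun z hz => hz.2).trans h.le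
        · rw [ct_eq_zero fun z hz => h hz.1]
          exact Nat.zero_le _
      rw [← c2_swap, Fintype.card_fin] at this
      exact this
    rw [mul_comm d]
    refine le_trans ?_ ((sum_le_sum_of_subset (subset_univ (st fun z => s < pop H d x z))).trans h1)
    simpa [ct] using card_nsmul_le_sum (st fun z => s < pop H d x z) (pop H d x) s
      fun z hz => (mem_st.1 hz).le

end

section

open Finset

namespace M2a

variable {U : Type*} [Fintype U] [DecidableEq U] {H : Finset (Finset U)}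

lemma one (h3 : IsThreeGraph H) {a b p : U} (q : U) {k : ℕ} {Z : Finset U} (hb : b ∉ link2 H a p)
    (hk : k + 1 ≤ cd H a p) (hZ : ∀ v ∈ Z, v = a ∨ v = b ∨ v = p ∨ v = q) :
    k ≤ (link2 H a p \ Z).card := by
  refine le_card_sdiff_of (R := {q}) (fun z hz hm => ?_) (by rw [card_singleton]; exact hk)
  rcases hZ z hm with rfl | rfl | rfl | rfl
  · exact absurd hz (left_notMem h3 _ _)
  · exact absurd hz hb
  · exact absurd hz (right_notMem h3 _ _)
  · exact mem_singleton_self _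

end M2a

open M2a in
theorem p_M2 (hPAIR : S_PAIR) (hSTR : S_STR) :
    S_M2 := by
  intro n d s T γ H h3 hF hd hγ hw
  have hS := (hSTR n d s T H h3 (by omega)).1
  have e : (2 * (4 * d + 1) / γ ^ 2 : ℝ) = 2 * (2 * ((2 * d : ℕ) : ℝ) + 1) / γ ^ 2 := by
    push_cast
    ring
  have n9 : ∀ {u v : Fin n}, d ≤ cd H u v → 9 ≤ cd H u v := fun h => by omega
  rw [e]
  refine ⟨fun y z => ?_, fun u w => ?_⟩
  · refine hPAIR n (2 * d) _ (good H d s) (fun x => link2 H x y) _ γ hγ (fun x h => h.1)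
      (fun x h => ?_) (fun a b ha hb hab c1 c2 => ?_) hw
    · have := h.2.1.2.1
      unfold cd at this
      omega
    · by_contra hc
      exact hF a b y z (hS a b (not_le.1 hc)) (dia_of_rank hab ![5, 2, 2, 5, 5] (by decide)
        (five_le (n9 ha.2.1.2.2.2)) (one h3 z c1 ha.2.2 (by simp))
        (one h3 z c2 hb.2.2 (by simp)) (five_le (n9 ha.2.1.2.2.1)) (five_le (n9 hb.2.1.2.2.1)))
  · refine hPAIR n (2 * d) _ (good H d s) (fun x => link2 H x u ∪ link2 H x w) _ γ hγ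
      (fun x h => h.1) (fun x h => ?_) (fun a b ha hb hab c1 c2 => ?_) hw
    · have h1 := h.2.1.2.1
      have h2 := h.2.1.2.2.1
      have := card_union_le (link2 H x u) (link2 H x w)
      unfold cd at h1 h2
      omega
    · by_contra hc
      rw [mem_union, not_or] at c1 c2
      exact hF a b u w (hS a b (not_le.1 hc)) (dia_of_rank hab ![5, 4, 4, 2, 2] (by decide)
        (five_le (n9 ha.2.1.2.2.2)) (one h3 w c1.1 ha.2.2.1 (by simp))
        (one h3 w c2.1 hb.2.2.1 (by simp)) (one h3 u c1.2 ha.2.2.2 (by simp))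
        (one h3 u c2.2 hb.2.2.2 (by simp)))

end

section

open Finset

namespace H2a

variable {U : Type*} [Fintype U] [DecidableEq U] {H : Finset (Finset U)} {d T K : ℕ}

/-- The number of common heavy neighbours. -/
noncomputable def mu (H : Finset (Finset U)) (d : ℕ) (x y : U) : ℕ :=
  ct fun z => d ≤ cd H x z ∧ d ≤ cd H y z

/-- A heavy diamond. -/
def W (H : Finset (Finset U)) (d : ℕ) (x y a b : U) : Prop :=
  a ≠ b ∧ d ≤ cd H x y ∧ d ≤ cd H x a ∧ d ≤ cd H y a ∧ d ≤ cd H x b ∧ d ≤ cd H y b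

omit [DecidableEq U] in
lemma ct_le_of {p q : U → Prop} (h : ∀ z, p z → q z ∧ ct q ≤ K) : ct p ≤ K := by
  by_cases e : ∃ z, p z
  · obtain ⟨z, hz⟩ := e
    exact (ct_mono fun w hw => (h w hw).1).trans (h z hz).2
  · rw [ct_eq_zero fun z hz => e ⟨z, hz⟩]
    exact Nat.zero_le _

omit [DecidableEq U] in
lemma sum4 (f : U → U → U → U → ℕ) :
    ∑ x, ∑ y, ∑ a, ∑ b, f x y a b = ∑ a, ∑ b, ∑ x, ∑ y, f x y a b :=
  calc _ = ∑ p : U × U, ∑ q : U × U, f p.1 p.2 q.1 q.2 := by simp only [Fintype.sum_prod_type]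
    _ = ∑ q : U × U, ∑ p : U × U, f p.1 p.2 q.1 q.2 := sum_comm
    _ = _ := by simp only [Fintype.sum_prod_type]

lemma lower (x y : U) : K * ct (fun z => HHH H d x y z ∧ K < mu H d x y) ≤ c2 (W H d x y) := by
  classical
  rw [ct_eq_sum, mul_sum]
  refine sum_le_sum fun a _ => ?_
  split_ifs with h
  · have h1 : mu H d x y ≤ ct (W H d x y a) + ct (fun b => b = a) :=
      ct_or fun b hb => by
        by_cases e : b = a
        · exact .inr e
        · exact .inl ⟨Ne.symm e, h.1.2.1, h.1.2.2.1, h.1.2.2.2, hb.1, hb.2⟩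
    have h2 : ct (fun b => b = a) ≤ ({a} : Finset U).card := ct_le_of_sub fun b hb => by simp [hb]
    rw [card_singleton] at h2
    have := h.2
    omega
  · simp

lemma upper (hF : F2 H T) (hd : T + 9 ≤ d) (a b : U) :
    c2 (fun x y => W H d x y a b) ≤ T * T := by
  classical
  by_cases e : ∃ x y, W H d x y a b
  swap
  · refine le_trans (le_of_eq (sum_eq_zero fun x _ => ct_eq_zero fun y h => e ⟨x, y, h⟩))
      (Nat.zero_le _)
  obtain ⟨x, y, hab, h0, h1, h2, h3, h4⟩ := e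
  have n9 : ∀ {u v : U}, d ≤ cd H u v → 9 ≤ cd H v u := fun h => by
    rw [cd_comm]
    omega
  have hD : Dia H a b x y := dia_of_rank hab (fun _ => 5) (by decide)
    (five_le (by omega)) (five_le (n9 h1)) (five_le (n9 h3)) (five_le (n9 h2)) (five_le (n9 h4))
  have hT : ct (fun c => ∀ v ∈ ({a, b} : Finset U), d ≤ cd H v c) ≤ T := by
    by_contra h
    have : ({a, b} : Finset U).card ≤ 2 := card_le_two
    exact hF a b x y (rob_of_heavy (by omega) (not_le.1 h)) hD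
  have hP : ∀ {c}, d ≤ cd H c a → d ≤ cd H c b → ∀ v ∈ ({a, b} : Finset U), d ≤ cd H v c :=
    fun p q v hv => by
      rw [cd_comm]
      rcases mem_insert.1 hv with rfl | hv
      · exact p
      · rw [mem_singleton.1 hv]
        exact q
  refine le_trans ?_ (Nat.mul_le_mul_left T hT)
  rw [ct_eq_sum, mul_sum]
  refine sum_le_sum fun u _ => ?_
  split_ifs with h
  · rw [mul_one]
    exact (ct_mono fun v hv => hP hv.2.2.2.1 hv.2.2.2.2.2).trans hT
  · simpa using ct_eq_zero fun v (hv : W H d u v a b) => h (hP hv.2.2.1 hv.2.2.2.2.1)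

lemma rest (hF : F2 H T) (hd : T + 9 ≤ d) :
    K * c3 (fun x y z => HHH H d x y z ∧ K < mu H d x y) ≤
      Fintype.card U * (Fintype.card U * (T * T)) := by
  classical
  calc _ ≤ ∑ x, ∑ y, c2 (W H d x y) := by
        simp only [c3, mul_sum]
        exact sum_le_sum fun x _ => sum_le_sum fun y _ => lower x y
    _ = ∑ a, ∑ b, c2 (fun x y => W H d x y a b) := by
        simp only [c2, ct_eq_sum]
        exact sum4 _
    _ ≤ ∑ _a : U, ∑ _b : U, T * T := sum_le_sum fun a _ => sum_le_sum fun b _ => upper hF hd a b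
    _ = _ := by simp

lemma split : c3 (HHH H d) ≤
    c3 (fun x y z => HHH H d x y z ∧ mu H d x y ≤ K ∧ mu H d x z ≤ K ∧ mu H d y z ≤ K) +
      3 * c3 (fun x y z => HHH H d x y z ∧ K < mu H d x y) := by
  have e1 := c3_swap23 (fun x y z => HHH H d x y z ∧ K < mu H d x y)
  have e2 := c3_rot (fun x y z => HHH H d x y z ∧ K < mu H d x y)
  have h1 := c3_or (E := HHH H d)
    (F := fun x y z => HHH H d x y z ∧ mu H d x y ≤ K ∧ mu H d x z ≤ K ∧ mu H d y z ≤ K)
    (G := fun x y z => (HHH H d x y z ∧ K < mu H d x y) ∨ (HHH H d x z y ∧ K < mu H d x z) ∨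
      (HHH H d y z x ∧ K < mu H d y z)) fun x y z h => by
      by_cases a : mu H d x y ≤ K
      · by_cases b : mu H d x z ≤ K
        · by_cases c : mu H d y z ≤ K
          · exact .inl ⟨h, a, b, c⟩
          · exact .inr (.inr (.inr ⟨⟨link_rot h.1, h.2.2.2, cd_comm H x y ▸ h.2.1,
              cd_comm H x z ▸ h.2.2.1⟩, not_le.1 c⟩))
        · exact .inr (.inr (.inl ⟨⟨link_swap h.1, h.2.2.1, h.2.1, cd_comm H y z ▸ h.2.2.2⟩,
            not_le.1 b⟩))
      · exact .inr (.inl ⟨h, not_le.1 a⟩)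
  have h2 := c3_or (E := fun x y z => (HHH H d x y z ∧ K < mu H d x y) ∨
      (HHH H d x z y ∧ K < mu H d x z) ∨ (HHH H d y z x ∧ K < mu H d y z)) fun _ _ _ h => h
  have h3 := c3_or (E := fun x y z => (HHH H d x z y ∧ K < mu H d x z) ∨
      (HHH H d y z x ∧ K < mu H d y z)) fun _ _ _ h => h
  omega

end H2a

open H2a in
theorem p_H2 (hREM : S_REM) :
    S_H2 := by
  intro T d ε hε hd
  obtain ⟨K, hK⟩ := exists_nat_gt (6 * (T : ℝ) ^ 2 / ε)
  have hK0 : (0 : ℝ) < K := lt_of_le_of_lt (by positivity) hK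
  rw [div_lt_iff₀ hε] at hK
  obtain ⟨n0, h0⟩ := hREM K T (ε / 2) (half_pos hε)
  refine ⟨n0, fun n hn H h3 hF => ?_⟩
  have h1 := h0 n hn H
    (fun x y z => HHH H d x y z ∧ mu H d x y ≤ K ∧ mu H d x z ≤ K ∧ mu H d y z ≤ K) h3 (.inl hF)
    (fun x y z h => h.1.1)
    (fun x y => ct_le_of fun z h => ⟨⟨h.1.2.2.1, h.1.2.2.2⟩, h.2.1⟩)
    (fun x z => ct_le_of fun y h => ⟨⟨h.1.2.1, cd_comm H y z ▸ h.1.2.2.2⟩, h.2.2.1⟩)
    (fun y z => ct_le_of fun x h => ⟨⟨cd_comm H x y ▸ h.1.2.1, cd_comm H x z ▸ h.1.2.2.1⟩, h.2.2.2⟩)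
  have h2 := rest (K := K) hF hd
  rw [Fintype.card_fin] at h2
  have h4 := split (H := H) (d := d) (K := K)
  generalize c3 (fun x y z => HHH H d x y z ∧ K < mu H d x y) = B at h2 h4
  generalize c3 (fun x y z => HHH H d x y z ∧ mu H d x y ≤ K ∧ mu H d x z ≤ K ∧
    mu H d y z ≤ K) = A at h1 h4
  have h5 : (K : ℝ) * B ≤ n * (n * (T * T)) := by exact_mod_cast h2
  have h6 : (c3 (HHH H d) : ℝ) ≤ A + 3 * B := by exact_mod_cast h4
  have h7 : 3 * (B : ℝ) ≤ ε / 2 * (n : ℝ) ^ 2 := by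
    refine le_of_mul_le_mul_left ?_ hK0
    nlinarith [mul_le_mul_of_nonneg_right hK.le (sq_nonneg (n : ℝ))]
  linarith

end

section

open Finset

namespace PT2a

variable {U : Type*} [Fintype U] [DecidableEq U] {H : Finset (Finset U)} {d s : ℕ} {r : ℝ}
  {x y : U}

lemma lhh_symm {z : U} (h : LHH H d x y z) : LHH H d y x z :=
  ⟨link_symm h.1, cd_comm H x y ▸ h.2.1, h.2.2.2, h.2.2.1⟩

lemma lhh_eq : ct (LHH H d y x) = ct (LHH H d x y) :=
  le_antisymm (ct_mono fun _ => lhh_symm) (ct_mono fun _ => lhh_symm)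

lemma three_le :
    ct (LHH H d x y) + ct (LLH H d x y) + ct (LLH H d y x) ≤ cd H x y := by
  have a : ct (LHH H d x y) + ct (LLH H d x y) ≤ ct fun z => z ∈ link2 H x y ∧ d ≤ cd H y z :=
    ct_add_le (fun z h => ⟨h.1, h.2.2.2⟩) (fun z h => ⟨h.1, h.2.2.2⟩)
      fun z h k => absurd h.2.2.1 (not_le.2 k.2.2.1)
  have b : (ct fun z => z ∈ link2 H x y ∧ d ≤ cd H y z) + ct (LLH H d y x) ≤
      ct fun z => z ∈ link2 H x y :=
    ct_add_le (fun z h => h.1) (fun z h => link_symm h.1)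
      fun z h k => absurd h.2 (not_le.2 k.2.2.1)
  have c : (ct fun z => z ∈ link2 H x y) ≤ cd H x y := ct_le_of_sub fun _ h => h
  omega

lemma al_le (hs : d ≤ s) (hl : cd H x y < d) (hg : ¬ good H d s x y) :
    ct (LLH H d x y) ≤ 1 := by
  have a : ¬ 2 ≤ ct fun z => z ∈ link2 H x y ∧ pop H d x z ≤ s := fun h => hg ⟨hl, .inl h⟩
  have b : ct (LLH H d x y) ≤ ct fun z => z ∈ link2 H x y ∧ pop H d x z ≤ s :=
    ct_mono fun z h => ⟨h.1, by
      have c : pop H d x z ≤ cd H x z := ct_link_le fun _ k => k.2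
      have := h.2.2.1
      omega⟩
  omega

lemma pop_lt {z : U} (hg : ¬ good H d s x y) (h : LHH H d x y z) : s < pop H d x z :=
  not_le.1 fun k => hg ⟨h.2.1, .inr ⟨z, h.1, k, h.2.2.1⟩⟩

lemma not_good {z : U} (e1 : ¬ Ex2 H d s r x y) (e2 : ¬ Ex2 H d s r y x) (h : LHH H d x y z)
    (h3 : 3 ≤ cd H x y) : ¬ good H d s x y := fun g => by
  have rx : rich H d s r x := by_contra fun k => e1 (.inl ⟨g, k⟩)
  by_cases g' : good H d s y x
  · have ry : rich H d s r y := by_contra fun k => e2 (.inl ⟨g', k⟩)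
    exact e1 (.inr (.inl ⟨z, rx, ry, h, h3⟩))
  · exact e1 (.inr (.inr (.inl ⟨z, pop_lt g' (lhh_symm h), rx, h, h3⟩)))

lemma kept_le (hs : d ≤ s) (hl : cd H x y < d) (e1 : ¬ Ex2 H d s r x y) (h5 : 5 ≤ cd H x y) :
    (ct fun z => LLH H d x y z ∧ ¬ pu2 H x y z) ≤ 1 := by
  by_cases rx : rich H d s r x
  · rw [ct_eq_zero fun z h => e1 (.inr (.inr (.inr (.inr ⟨z, rx, h.1, h5,
      not_le.1 fun k => h.2 ⟨h5, k⟩⟩))))]
    omega
  · exact (ct_mono fun z h => h.1).trans (al_le hs hl fun g => e1 (.inl ⟨g, rx⟩))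

end PT2a

open PT2a in
theorem p_PT2 :
    S_PT2 := by
  intro n d s r H _ hs x y e1 e2 hl
  have hc := cd_comm H x y
  have hl' : cd H y x < d := hc ▸ hl
  have t := three_le (H := H) (d := d) (x := x) (y := y)
  have q := lhh_eq (H := H) (d := d) (x := x) (y := y)
  have a1 : (ct fun z => LLH H d x y z ∧ ¬ pu2 H x y z) ≤ ct (LLH H d x y) :=
    ct_mono fun z h => h.1
  have a2 : (ct fun z => LLH H d x y z ∧ pu2 H x z y) ≤ ct (LLH H d x y) :=
    ct_mono fun z h => h.1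
  have b1 : (ct fun z => LLH H d y x z ∧ ¬ pu2 H y x z) ≤ ct (LLH H d y x) :=
    ct_mono fun z h => h.1
  have b2 : (ct fun z => LLH H d y x z ∧ pu2 H y z x) ≤ ct (LLH H d y x) :=
    ct_mono fun z h => h.1
  unfold val
  by_cases h3 : 3 ≤ cd H x y
  swap
  · omega
  have a3 : (ct fun z => LLH H d x y z ∧ pu2 H x z y) = 0 :=
    ct_eq_zero fun z h => by have := h.2.2; omega
  have b3 : (ct fun z => LLH H d y x z ∧ pu2 H y z x) = 0 :=
    ct_eq_zero fun z h => by have := h.2.2; omega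
  rcases Nat.eq_zero_or_pos (ct (LHH H d x y)) with h0 | h0
  · by_cases h5 : 5 ≤ cd H x y
    · have := kept_le hs hl e1 h5
      have := kept_le hs hl' e2 (hc ▸ h5)
      omega
    · omega
  · obtain ⟨z, hz⟩ := exists_of_ct_pos h0
    have g1 := not_good e1 e2 hz h3
    have g2 := not_good e2 e1 (lhh_symm hz) (hc ▸ h3)
    have := al_le hs hl g1
    have := al_le hs hl' g2
    have : ¬ 2 ≤ ct (LHH H d x y) := fun h => by
      obtain ⟨u, w, e, hu, hw⟩ := exists_two_of_ct h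
      exact e1 (.inr (.inr (.inr (.inl ⟨u, w, e, pop_lt g1 hu, pop_lt g1 hw, hu, hw, h3⟩))))
    omega

end

section

open Finset

namespace EX2a

variable {U : Type*} [Fintype U]

lemma ct_le_of_lt {p : U → Prop} {s : Finset U} {d K : ℕ} (hK : d ≤ K)
    (h : ∀ x, p x → x ∈ s ∧ s.card < d) : ct p ≤ K := by
  rcases Nat.eq_zero_or_pos (ct p) with e | e
  · omega
  · obtain ⟨x, hx⟩ := exists_of_ct_pos e
    have h1 := ct_le_of_sub fun y hy => (h y hy).1
    have h2 := (h x hx).2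
    omega

variable [DecidableEq U] {H : Finset (Finset U)} {T d : ℕ}

lemma four (h3 : IsThreeGraph H) (hF : F2 H T) (hd : T + 9 ≤ d) (x z w : U) :
    ct (fun y => z ≠ w ∧ LHH H d x y z ∧ LHH H d x y w ∧ 3 ≤ cd H x y) ≤ T := by
  by_contra hc
  have hc := not_le.1 hc
  obtain ⟨y, hzw, hz, hw, h⟩ := exists_of_ct_pos ((Nat.zero_le _).trans_lt hc)
  have c2 : ({z, w} : Finset U).card ≤ 2 := card_le_two
  refine hF z w x y (rob_of_heavy (d := d) (by omega) (hc.trans_le (ct_mono fun c hc a ha => ?_)))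
    (dia_of_rank hzw ![1, 5, 5, 5, 5] (by decide) ?_ (five_le ?_) (five_le ?_) (five_le ?_)
      (five_le ?_))
  · rw [cd_comm]
    rcases mem_insert.1 ha with rfl | ha
    · exact hc.2.1.2.2.2
    · rw [mem_singleton.1 ha]
      exact hc.2.2.1.2.2.2
  · refine le_card_sdiff_of (R := {z, w}) (fun u hu h1 => ?_) (le_trans (show 1 + _ ≤ 3 by omega) h)
    obtain ⟨-, a, b⟩ := link_ne h3 hu
    simpa [a.symm, b.symm] using h1
  · have := hz.2.2.1
    rw [cd_comm]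
    omega
  · have := hw.2.2.1
    rw [cd_comm]
    omega
  · have := hz.2.2.2
    rw [cd_comm]
    omega
  · have := hw.2.2.2
    rw [cd_comm]
    omega

lemma num {T d : ℕ} {γ δ n : ℝ} (e : δ * (8 * (T + 1)) = γ ^ 2) (h1 : 2 ≤ δ * n)
    (h2 : d ≤ δ * n) : d ≤ ⌊δ * n⌋₊ ∧ δ * n / 2 ≤ ⌊δ * n⌋₊ ∧
      ((T * (1 + 2 * ⌊δ * n⌋₊) : ℕ) : ℝ) ≤ γ ^ 2 * n / 2 := by
  have a := Nat.lt_floor_add_one (δ * n)
  have b := Nat.floor_le (show 0 ≤ δ * n by linarith)
  refine ⟨Nat.le_floor h2, by linarith, ?_⟩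
  have c : (0 : ℝ) ≤ T := Nat.cast_nonneg T
  push_cast
  rw [← e]
  nlinarith [mul_le_mul_of_nonneg_left b c, mul_le_mul_of_nonneg_left h1 c]

end EX2a

theorem p_EX2 (hREM : S_REM) (hSTR : S_STR) (hM2 : S_M2) :
    S_EX2 := by
  intro T d ε hε hd
  obtain ⟨γ, hγ, rfl⟩ : ∃ γ : ℝ, 0 < γ ∧ ε = 5 * γ := ⟨ε / 5, by positivity, by ring⟩
  obtain ⟨δ, hδ, e⟩ : ∃ δ : ℝ, 0 < δ ∧ δ * (8 * (T + 1)) = γ ^ 2 :=
    ⟨γ ^ 2 / (8 * (T + 1)), by positivity, div_mul_cancel₀ _ (by positivity)⟩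
  obtain ⟨K, hK1, hK2⟩ : ∃ K : ℕ, d ≤ K ∧ 2 * (4 * d + 1) / γ ^ 2 ≤ K :=
    ⟨max d ⌈2 * (4 * d + 1) / γ ^ 2⌉₊, le_max_left _ _,
      (Nat.le_ceil _).trans (Nat.cast_le.2 (le_max_right _ _))⟩
  obtain ⟨D, hD⟩ := exists_nat_ge (2 * d / δ)
  obtain ⟨n1, h1⟩ := hREM K T γ hγ
  obtain ⟨n2, h2⟩ := exists_nat_ge ((d + 2) / δ)
  obtain ⟨n3, h3⟩ := exists_nat_ge (((D * K : ℕ) + (D * (D * T) : ℕ)) / γ)
  refine ⟨max n1 (max n2 n3), fun n hn => ?_⟩
  have a1 := h1 n (le_of_max_le_left hn)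
  have a2 : (d : ℝ) + 2 ≤ δ * n := by
    have : (n2 : ℝ) ≤ n := Nat.cast_le.2 (le_of_max_le_left (le_of_max_le_right hn))
    rw [← div_le_iff₀' hδ]
    linarith
  have a3 : ((D * K : ℕ) : ℝ) + (D * (D * T) : ℕ) ≤ γ * n := by
    have : (n3 : ℝ) ≤ n := Nat.cast_le.2 (le_of_max_le_right (le_of_max_le_right hn))
    rw [← div_le_iff₀' hγ]
    linarith
  have d0 : (0 : ℝ) ≤ d := Nat.cast_nonneg d
  have n0 : (0 : ℝ) < n := (pos_iff_pos_of_mul_pos (show 0 < δ * n by linarith)).1 hδ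
  obtain ⟨s1, s2, s3⟩ := EX2a.num (d := d) e (show 2 ≤ δ * n by linarith) (by linarith)
  generalize ⌊δ * n⌋₊ = s at s1 s2 s3
  refine ⟨s, γ * n, s1, fun H hH hF => ?_⟩
  obtain ⟨m1, m2⟩ := hM2 n d s T γ H hH hF hd hγ s3
  have m1' := fun y z => Nat.cast_le.1 ((m1 y z).trans hK2)
  have m2' := fun y z => Nat.cast_le.1 ((m2 y z).trans hK2)
  have hP : ∀ x, (st fun z => s < pop H d x z).card ≤ D := fun x => by
    have b : ((ct fun z => s < pop H d x z : ℕ) : ℝ) * s ≤ d * n := by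
      exact_mod_cast (hSTR n d s T H hH (by omega)).2 x
    have c : (0 : ℝ) ≤ (ct fun z => s < pop H d x z : ℕ) := Nat.cast_nonneg _
    refine Nat.cast_le.1 (le_trans ?_ hD)
    rw [le_div_iff₀ hδ]
    refine le_of_mul_le_mul_right ?_ n0
    change ((ct fun z => s < pop H d x z : ℕ) : ℝ) * δ * n ≤ _
    nlinarith [mul_le_mul_of_nonneg_left s2 c]
  have lin : ∀ {c m : ℕ}, c ≤ Fintype.card (Fin n) * m → (m : ℝ) ≤ γ * n →
      (c : ℝ) ≤ γ * (n : ℝ) ^ 2 := fun {c m} h hm => by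
    have : (c : ℝ) ≤ n * m := by exact_mod_cast (Fintype.card_fin n ▸ h)
    nlinarith [mul_le_mul_of_nonneg_left hm n0.le]
  have e1 : (c2 (fun x y => good H d s x y ∧ ¬ rich H d s (γ * n) x) : ℝ) ≤ γ * (n : ℝ) ^ 2 := by
    rw [c2, Nat.cast_sum]
    refine (sum_le_card_nsmul _ _ (γ * n) fun x _ => ?_).trans (le_of_eq (by simp; ring))
    by_cases hx : rich H d s (γ * n) x
    · rw [ct_eq_zero fun y hy => hy.2 hx, Nat.cast_zero]
      positivity
    · exact (Nat.cast_le.2 (ct_mono fun y hy => hy.1)).trans (not_le.1 hx).le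
  have e2 := (Nat.cast_le.2 (c2_exists_le _)).trans (a1 H (fun x y z => rich H d s (γ * n) x ∧
    rich H d s (γ * n) y ∧ LHH H d x y z ∧ 3 ≤ cd H x y) hH (Or.inl hF) (fun x y z h => h.2.2.1.1)
    (fun x y => EX2a.ct_le_of_lt hK1 fun z h => ⟨h.2.2.1.1, h.2.2.1.2.1⟩)
    (fun x z => (ct_mono fun y h => ⟨h.2.1, ⟨link_symm h.2.2.1.1, cd_comm H x y ▸ h.2.2.1.2.1,
      h.2.2.1.2.2.2, h.2.2.1.2.2.1⟩, cd_comm H x y ▸ h.2.2.2⟩).trans (m1' x z))
    fun y z => (ct_mono fun x h => ⟨h.1, h.2.2⟩).trans (m1' y z))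
  have e3 : (c2 (fun x y => ∃ z, s < pop H d y z ∧ rich H d s (γ * n) x ∧ LHH H d x y z ∧
      3 ≤ cd H x y) : ℝ) ≤ γ * (n : ℝ) ^ 2 := by
    rw [← c2_swap]
    refine lin (m := D * K) (c2_le_mul fun y => (ct_exists_le (st fun z => s < pop H d y z) _ K
      (fun x ⟨z, h⟩ => ⟨z, mem_st.2 h.1, h.2⟩) fun z _ => m1' y z).trans
      (Nat.mul_le_mul_right _ (hP y))) (le_trans (le_add_of_nonneg_right (Nat.cast_nonneg _)) a3)
  have e4 : (c2 (fun x y => ∃ z w, z ≠ w ∧ s < pop H d x z ∧ s < pop H d x w ∧ LHH H d x y z ∧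
      LHH H d x y w ∧ 3 ≤ cd H x y) : ℝ) ≤ γ * (n : ℝ) ^ 2 := by
    refine lin (m := D * (D * T)) (c2_le_mul fun x => (ct_exists_le (st fun z => s < pop H d x z)
      (fun z y => ∃ w, s < pop H d x w ∧ z ≠ w ∧ LHH H d x y z ∧ LHH H d x y w ∧ 3 ≤ cd H x y)
      (D * T) (fun y ⟨z, w, h⟩ => ⟨z, mem_st.2 h.2.1, w, h.2.2.1, h.1, h.2.2.2⟩) fun z _ =>
        (ct_exists_le (st fun z => s < pop H d x z) _ T
          (fun y ⟨w, h⟩ => ⟨w, mem_st.2 h.1, h.2⟩) fun w _ => EX2a.four hH hF hd x z w).trans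
        (Nat.mul_le_mul_right _ (hP x))).trans (Nat.mul_le_mul_right _ (hP x)))
      (le_trans (le_add_of_nonneg_left (Nat.cast_nonneg _)) a3)
  have e5 := (Nat.cast_le.2 (c2_exists_le _)).trans (a1 H (fun x y w => rich H d s (γ * n) x ∧
    LLH H d x y w ∧ 5 ≤ cd H x y ∧ 3 ≤ cd H x w) hH (Or.inl hF) (fun x y z h => h.2.1.1)
    (fun x y => EX2a.ct_le_of_lt hK1 fun z h => ⟨h.2.1.1, h.2.1.2.1⟩)
    (fun x z => EX2a.ct_le_of_lt hK1 fun y h => ⟨link_swap h.2.1.1, h.2.1.2.2.1⟩) m2')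
  have k := (c2_or (E := Ex2 H d s (γ * n)) fun x y h => h).trans (Nat.add_le_add_left
    ((c2_or fun x y h => h).trans (Nat.add_le_add_left ((c2_or fun x y h => h).trans
      (Nat.add_le_add_left (c2_or fun x y h => h) _)) _)) _)
  have k' := (Nat.cast_le (α := ℝ)).2 k
  push_cast at k'
  linarith

end

end Pool.Agent.P.MP_e3cf1a_co.X
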