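import Pool.Agent.P.MP_e3cf1a_co.Sh.Iface

/-! Steps PT3, EX3, BOW, R4, PT4, F234. -/

namespace Pool.Agent.P.MP_e3cf1a_co.X

section

open Finset

namespace PT3a

variable {U : Type*} [Fintype U] [DecidableEq U] {H : Finset (Finset U)} {d T : ℕ} {x y : U}

/-- The part of the link of `a, x` outside `a, b, x, y`. -/
lemma side (h3 : IsThreeGraph H) {a b : U} {k : ℕ} (hk : k + 2 ≤ cd H x a) :
    k ≤ (link2 H a x \ {a, b, x, y}).card ∧ k ≤ (link2 H a x \ {b, a, x, y}).card := by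
  have hc : ({b, y} : Finset U).card ≤ 2 := card_le_two
  rw [cd_comm] at hk
  unfold cd at hk
  have h1 := left_notMem h3 a x
  have h2 := right_notMem h3 a x
  refine ⟨le_card_sdiff_of (R := {b, y}) (fun z hz hm => ?_) (by omega),
    le_card_sdiff_of (R := {b, y}) (fun z hz hm => ?_) (by omega)⟩ <;>
  · simp only [mem_insert, mem_singleton] at hm ⊢
    rcases hm with rfl | rfl | rfl | rfl <;> simp_all

/-- The part of the link of `x, y` outside `a, b, x, y`. -/
lemma spine (h3 : IsThreeGraph H) {a b : U} {k : ℕ} (hk : k + 2 ≤ cd H x y) :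
    k ≤ (link2 H x y \ {a, b, x, y}).card := by
  have hc : ({a, b} : Finset U).card ≤ 2 := card_le_two
  unfold cd at hk
  have h1 := left_notMem h3 x y
  have h2 := right_notMem h3 x y
  refine le_card_sdiff_of (R := {a, b}) (fun z hz hm => ?_) (by omega)
  simp only [mem_insert, mem_singleton] at hm ⊢
  rcases hm with rfl | rfl | rfl | rfl <;> simp_all

lemma heavy (hd : 9 ≤ d) {a p q r s : U} (ha : LLH H d x y a) :
    5 ≤ (link2 H a y \ {p, q, r, s}).card :=
  five_le (by rw [cd_comm]; exact hd.trans ha.2.2.2)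

lemma rob (hx : ¬ Ex3 H d T x y) {a : U} (ha : LLH H d x y a) : Rob H {x} T := by
  by_contra h
  exact hx (.inr ⟨h, a, ha⟩)

lemma third_le (h3 : IsThreeGraph H) (hF : F3 H T) (hd : 9 ≤ d) (hx : ¬ Ex3 H d T x y)
    (hl : 3 ≤ cd H x y) : ct (fun z => LLH H d x y z ∧ pu3 H d x z y) ≤ 1 := by
  by_contra hc
  obtain ⟨a, b, hab, ha, hb⟩ := exists_two_of_ct (not_le.1 hc)
  exact hF a b x y (rob hx ha.1) (dia_of_rank hab ![1, 3, 3, 5, 5] (by decide)
    (spine h3 hl) (side h3 ha.2.1).1 (side h3 hb.2.1).2 (heavy hd ha.1) (heavy hd hb.1))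

lemma third_zero (hl : 4 ≤ cd H x y) : ct (fun z => LLH H d x y z ∧ pu3 H d x z y) = 0 :=
  ct_eq_zero fun z hz => by
    rcases hz.2.2 with h | h <;> omega

lemma first_zero (hx : ¬ Ex3 H d T x y) (hl : 3 ≤ cd H x y) : ct (LHH H d x y) = 0 :=
  ct_eq_zero fun z hz => hx (.inl ⟨z, hz, hl⟩)

lemma third_excl (hl : 3 ≤ cd H x y)
    (h1 : 0 < ct (fun z => LLH H d x y z ∧ pu3 H d x z y)) :
    ct (fun z => LLH H d y x z ∧ pu3 H d y z x) = 0 := by
  obtain ⟨a, ha⟩ := exists_of_ct_pos h1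
  refine ct_eq_zero fun z hz => ?_
  rcases ha.2.2 with h | h
  · omega
  · exact absurd (h.2 z (link_symm hz.1.1)) (not_lt.2 hz.1.2.2.2)

lemma kept_le (h3 : IsThreeGraph H) (hF : F3 H T) (hd : 9 ≤ d) (hx : ¬ Ex3 H d T x y)
    (hl : 5 ≤ cd H x y) : ct (fun z => LLH H d x y z ∧ ¬ pu3 H d x y z) ≤ 2 := by
  by_contra hc
  obtain ⟨a, b, c, hab, hac, hbc, ha, hb, hc⟩ := exists_three_of_ct (not_le.1 hc)
  have h3le : ∀ w, ¬ pu3 H d x y w → 3 ≤ cd H x w := fun w hw => by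
    by_contra h
    exact hw ⟨hl, .inl (by omega)⟩
  have fin : ∀ w, a ≠ w → (LLH H d x y w ∧ ¬ pu3 H d x y w) →
      2 ≤ (link2 H a x \ {a, w, x, y}).card → False := fun w e hw h2 =>
    hF a w x y (rob hx ha.1) (dia_of_rank e ![3, 2, 1, 5, 5] (by decide)
      (spine h3 hl) h2 (side h3 (h3le w hw.2)).2 (heavy hd ha.1) (heavy hd hw.1))
  have e3 := h3le a ha.2
  rcases e3.eq_or_lt with e | e
  swap
  · exact fin b hab hb (side h3 e).1
  obtain ⟨s, hs, hs2⟩ : ∃ s ∈ link2 H x a, d ≤ cd H x s := by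
    by_contra h
    push Not at h
    exact ha.2 ⟨hl, .inr ⟨e.symm, h⟩⟩
  have out : ∀ w, w ∉ link2 H x a → 2 ≤ (link2 H a x \ {a, w, x, y}).card := fun w hw => by
    rw [link_comm] at hw
    have h1 := left_notMem h3 a x
    have h2 := right_notMem h3 a x
    rw [cd_comm] at e
    refine le_card_sdiff_of (R := {y}) (fun z hz hm => ?_) (by rw [card_singleton]; exact e.le)
    simp only [mem_insert, mem_singleton] at hm ⊢
    rcases hm with rfl | rfl | rfl | rfl <;> simp_all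
  by_cases m1 : b ∈ link2 H x a
  swap
  · exact fin b hab hb (out b m1)
  by_cases m2 : c ∈ link2 H x a
  swap
  · exact fin c hac hc (out c m2)
  have n1 : y ≠ s := fun h => absurd ha.1.2.1 (not_lt.2 (h ▸ hs2))
  have n2 : b ≠ s := fun h => absurd hb.1.2.2.1 (not_lt.2 (h ▸ hs2))
  have n3 : c ≠ s := fun h => absurd hc.1.2.2.1 (not_lt.2 (h ▸ hs2))
  have n4 : y ≠ b := (link_ne h3 hb.1.1).2.2
  have n5 : y ≠ c := (link_ne h3 hc.1.1).2.2
  have h4 : ({y, b, c, s} : Finset U).card = 4 := by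
    rw [card_insert_of_notMem (by simp [n1, n4, n5]), card_insert_of_notMem (by simp [n2, hbc]),
      card_pair n3]
  have h5 : ({y, b, c, s} : Finset U) ⊆ link2 H x a := by
    simp only [insert_subset_iff, singleton_subset_iff]
    exact ⟨link_swap ha.1.1, m1, m2, hs⟩
  have := card_le_card h5
  unfold cd at e
  omega

lemma total : ct (LHH H d x y) + ct (LLH H d x y) + ct (LLH H d y x) ≤ cd H x y := by
  have h1 := ct_add_le (p := LHH H d x y) (q := LLH H d x y)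
    (r := fun z => z ∈ link2 H x y ∧ d ≤ cd H y z) (fun z h => ⟨h.1, h.2.2.2⟩)
    (fun z h => ⟨h.1, h.2.2.2⟩) (fun z h h' => absurd h'.2.2.1 (not_lt.2 h.2.2.1))
  have h2 := ct_add_le (p := fun z => z ∈ link2 H x y ∧ d ≤ cd H y z) (q := LLH H d y x)
    (r := fun z => z ∈ link2 H x y) (fun z h => h.1) (fun z h => link_symm h.1)
    (fun z h h' => absurd h'.2.2.1 (not_lt.2 h.2))
  have h3 : ct (fun z => z ∈ link2 H x y) ≤ cd H x y := ct_le_of_sub fun z h => h
  omega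

lemma first_le : ct (LHH H d y x) ≤ ct (LHH H d x y) :=
  ct_mono fun _ h => ⟨link_symm h.1, cd_comm H y x ▸ h.2.1, h.2.2.2, h.2.2.1⟩

end PT3a

open PT3a in
theorem p_PT3 :
    S_PT3 := by
  intro n d T H h3 hF hd x y hx hy _
  have t := total (H := H) (d := d) (x := x) (y := y)
  have f := first_le (H := H) (d := d) (x := x) (y := y)
  have e := cd_comm H x y
  have k1 : ct (fun z => LLH H d x y z ∧ ¬ pu3 H d x y z) ≤ ct (LLH H d x y) :=
    ct_mono fun _ h => h.1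
  have k2 : ct (fun z => LLH H d y x z ∧ ¬ pu3 H d y x z) ≤ ct (LLH H d y x) :=
    ct_mono fun _ h => h.1
  have t1 : ct (fun z => LLH H d x y z ∧ pu3 H d x z y) ≤ ct (LLH H d x y) :=
    ct_mono fun _ h => h.1
  have t2 : ct (fun z => LLH H d y x z ∧ pu3 H d y z x) ≤ ct (LLH H d y x) :=
    ct_mono fun _ h => h.1
  unfold val
  by_cases l2 : cd H x y ≤ 2
  · omega
  have z1 := first_zero hx (by omega)
  by_cases l3 : cd H x y = 3
  · have a1 := third_le h3 hF hd hx l3.ge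
    have a2 := third_le h3 hF hd hy (e ▸ l3.ge)
    have a3 := third_excl (d := d) l3.ge
    omega
  have b1 := third_zero (H := H) (d := d) (x := x) (y := y) (by omega)
  have b2 := third_zero (H := H) (d := d) (x := y) (y := x) (by omega)
  by_cases l4 : cd H x y = 4
  · omega
  have c1 := kept_le h3 hF hd hx (by omega)
  have c2 := kept_le h3 hF hd hy (by omega)
  omega

end

section

open Finset

namespace EX3a

variable {U : Type*} [Fintype U] [DecidableEq U] {H : Finset (Finset U)} {T d : ℕ}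

lemma rob_of {z : U} {p : U → Prop} (hd : T + 9 ≤ d) (hp : ∀ c, p c → d ≤ cd H z c)
    (h : T < ct p) : Rob H {z} T :=
  rob_of_heavy (d := d) (by rw [card_singleton]; omega)
    (h.trans_le (ct_mono fun c hc a ha => by rw [mem_singleton.1 ha]; exact hp c hc))

lemma two_le (h3 : IsThreeGraph H) {x y z : U} {Z : Finset U} (h : 3 ≤ cd H x y)
    (hZ : ∀ w ∈ Z, w = x ∨ w = y ∨ w = z ∨ w ∉ link2 H x y) : 2 ≤ (link2 H x y \ Z).card :=
  le_card_sdiff_of (R := {z}) (fun w h1 h2 => by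
    rcases hZ w h2 with rfl | rfl | rfl | e
    · exact absurd h1 (left_notMem h3 _ _)
    · exact absurd h1 (right_notMem h3 _ _)
    · exact mem_singleton_self _
    · exact absurd h1 e) (by rw [card_singleton]; exact h)

lemma lhh (h3 : IsThreeGraph H) (hF : F3 H T) (hd : T + 9 ≤ d) (y z : U) :
    ct (fun x => LHH H d x y z ∧ 3 ≤ cd H x y) ≤ (d + 1) * (d + 2) := by
  by_cases hR : Rob H {z} T
  · obtain ⟨Q, hQ, hc⟩ := cover (fun x : U => ({x} : Finset U)) d
      (fun x => LHH H d x y z ∧ 3 ≤ cd H x y) (fun x => link2 H x y)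
      (fun x hx => ⟨by simp, hx.1.2.1.le⟩) (fun a b ha hb => by
        by_contra hn
        simp only [not_or, not_not, disjoint_singleton_right, mem_singleton] at hn
        obtain ⟨e1, e2, e3⟩ := hn
        refine hF a b z y hR (dia_of_rank (fun e => e1 e.symm) ![5, 5, 5, 2, 2] (by decide)
          (five_le ?_) (five_le ?_) (five_le ?_) (two_le h3 (z := z) ha.2 ?_)
          (two_le h3 (z := z) hb.2 ?_))
        · have := ha.1.2.2.2; rw [cd_comm]; omega
        · have := ha.1.2.2.1; omega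
        · have := hb.1.2.2.1; omega
        · intro w hw
          simp only [mem_insert, mem_singleton] at hw
          rcases hw with rfl | rfl | rfl | rfl <;> simp [e2]
        · intro w hw
          simp only [mem_insert, mem_singleton] at hw
          rcases hw with rfl | rfl | rfl | rfl <;> simp [e3])
    exact (ct_le_of_sub fun x hx => by simpa using hc x hx).trans hQ
  · have : ct (fun x => LHH H d x y z ∧ 3 ≤ cd H x y) ≤ T := by
      by_contra hn
      exact hR (rob_of hd (fun c hc => cd_comm H c z ▸ hc.1.2.2.1) (not_le.1 hn))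
    nlinarith

lemma hhh (hF : F3 H T) (hd : T + 9 ≤ d) (x y : U) : ct (HHH H d x y) ≤ T + 1 := by
  by_contra hn
  obtain ⟨a, b, e, ha, hb⟩ := exists_two_of_ct (p := HHH H d x y) (by omega)
  refine hF a b x y (rob_of hd (p := HHH H d x y) (fun c hc => hc.2.2.1) (by omega))
    (dia_of_rank e (fun _ => 5) (by decide) (five_le ?_) (five_le ?_) (five_le ?_) (five_le ?_)
      (five_le ?_))
  · have := ha.2.1; omega
  · have := ha.2.2.1; rw [cd_comm]; omega
  · have := hb.2.2.1; rw [cd_comm]; omega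
  · have := ha.2.2.2; rw [cd_comm]; omega
  · have := hb.2.2.2; rw [cd_comm]; omega

lemma llh (x : U) : ct (fun y => ¬ Rob H {x} T ∧ ∃ z, LLH H d x y z) ≤ T + T * d := by
  by_cases hR : Rob H {x} T
  · rw [ct_eq_zero fun y hy => hy.1 hR]; exact Nat.zero_le _
  rw [rob_one] at hR
  push Not at hR
  obtain ⟨Q, hQ, hc⟩ := hR
  refine (ct_or (q := fun y => y ∈ Q) (r := fun y => ∃ z ∈ Q, z ∈ link2 H x y ∧ cd H x z < d)
    fun y hy => ?_).trans (add_le_add ((ct_le_of_sub fun _ h => h).trans hQ) ?_)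
  · obtain ⟨-, z, hz⟩ := hy
    by_cases e1 : y ∈ Q
    · exact .inl e1
    by_cases e2 : z ∈ Q
    · exact .inr ⟨z, e2, hz.1, hz.2.2.1⟩
    · exact absurd hz.1 (hc y z e1 e2)
  · refine (ct_exists_le Q (fun z y => z ∈ link2 H x y ∧ cd H x z < d) d (fun _ h => h)
      fun z _ => ?_).trans (Nat.mul_le_mul_right _ hQ)
    by_cases e : cd H x z < d
    · exact (ct_link_le fun _ h => h.1).trans e.le
    · rw [ct_eq_zero fun y hy => e hy.2]; exact Nat.zero_le _

end EX3a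

open EX3a in
theorem p_EX3 (hREM : S_REM) :
    S_EX3 := by
  intro T d ε hε hd
  obtain ⟨n0, h0⟩ := hREM ((d + 1) * (d + 2)) T (ε / 2) (by positivity)
  refine ⟨max n0 ⌈((T + T * d : ℕ) : ℝ) / (ε / 2)⌉₊, fun n hn H h3 hF => ?_⟩
  have h1 := h0 n (le_of_max_le_left hn) H
  have h2 : ((T + T * d : ℕ) : ℝ) ≤ n * (ε / 2) := by
    rw [← div_le_iff₀ (by positivity)]
    exact Nat.ceil_le.1 (le_of_max_le_right hn)
  have hK : T + 1 ≤ (d + 1) * (d + 2) := by nlinarith
  have hn2 : 0 ≤ ε / 2 * (n : ℝ) ^ 2 := by positivity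
  constructor
  · have a1 := h1 (fun x y z => LHH H d x y z ∧ 3 ≤ cd H x y) h3 (.inr (.inl hF))
      (fun _ _ _ h => h.1.1) (fun x y => by
        by_cases e : cd H x y < d
        · refine (ct_le_of_sub (s := link2 H x y) fun _ h => h.1.1).trans ?_
          unfold cd at e
          nlinarith
        · rw [ct_eq_zero fun z hz => e hz.1.2.1]; exact Nat.zero_le _)
      (fun x z => (ct_mono fun y hy => ⟨⟨link_symm hy.1.1, cd_comm H x y ▸ hy.1.2.1, hy.1.2.2.2,
        hy.1.2.2.1⟩, cd_comm H x y ▸ hy.2⟩).trans (lhh h3 hF hd x z))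
      (fun y z => lhh h3 hF hd y z)
    have a2 : c2 (Ex3 H d T) ≤ c3 (fun x y z => LHH H d x y z ∧ 3 ≤ cd H x y) +
        n * (T + T * d) := by
      refine (c2_or fun x y h => h).trans (add_le_add (c2_exists_le _) ?_)
      simpa using c2_le_mul (E := fun x y => ¬ Rob H {x} T ∧ ∃ z, LLH H d x y z) llh
    have a3 : (c2 (Ex3 H d T) : ℝ) ≤ (c3 (fun x y z => LHH H d x y z ∧ 3 ≤ cd H x y) : ℝ) +
        n * ((T + T * d : ℕ) : ℝ) := by exact_mod_cast a2
    have a4 := mul_le_mul_of_nonneg_left h2 (Nat.cast_nonneg (α := ℝ) n)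
    nlinarith
  · have a1 := h1 (HHH H d) h3 (.inr (.inl hF)) (fun _ _ _ h => h.1)
      (fun x y => (hhh hF hd x y).trans hK)
      (fun x z => (ct_mono fun y hy => ⟨link_swap hy.1, hy.2.2.1, hy.2.1,
        cd_comm H y z ▸ hy.2.2.2⟩).trans ((hhh hF hd x z).trans hK))
      (fun y z => (ct_mono fun x hx => ⟨link_rot hx.1, hx.2.2.2, cd_comm H x y ▸ hx.2.1,
        cd_comm H x z ▸ hx.2.2.1⟩).trans ((hhh hF hd y z).trans hK))
    linarith

end

section

open Finset

namespace BOWa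

variable {n d : ℕ} {H : Finset (Finset (Fin n))}

def pm : List (ℕ × ℕ × ℕ) := [(2, 4, 6), (2, 6, 4), (4, 2, 6), (4, 6, 2), (6, 2, 4), (6, 4, 2)]

lemma hall : ∀ p ∈ pm, ∀ q ∈ pm, ∀ i : Fin 6, (univ.filter fun j =>
    ![p.1, p.2.1, p.2.2, q.1, q.2.1, q.2.2] j ≤ ![p.1, p.2.1, p.2.2, q.1, q.2.1, q.2.2] i).card ≤
      ![p.1, p.2.1, p.2.2, q.1, q.2.1, q.2.2] i := by decide +kernel

lemma ord {a b c : ℕ} (h1 : 2 ≤ a) (h2 : 2 ≤ b) (h3 : 2 ≤ c) (h6 : 6 ≤ a ∨ 6 ≤ b ∨ 6 ≤ c)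
    (h4 : (4 ≤ a ∧ 4 ≤ b) ∨ (4 ≤ a ∧ 4 ≤ c) ∨ (4 ≤ b ∧ 4 ≤ c)) :
    ∃ r ∈ pm, r.1 ≤ a ∧ r.2.1 ≤ b ∧ r.2.2 ≤ c := by
  simp only [pm, List.mem_cons, List.not_mem_nil, or_false, exists_eq_or_imp, exists_eq_left]
  rcases h6 with h | h | h <;> rcases h4 with ⟨x, y⟩ | ⟨x, y⟩ | ⟨x, y⟩ <;> simp [*]

lemma sz (hd : 11 ≤ d) {u v w : Fin n} {Z : Finset (Fin n)} (hZ : Z.card ≤ 5)
    (hl : cd H u v < d → ∀ z ∈ link2 H u v, z ∈ Z → z ∈ ({w} : Finset (Fin n))) :
    (3 ≤ cd H u v → 2 ≤ (link2 H u v \ Z).card) ∧ (5 ≤ cd H u v → 4 ≤ (link2 H u v \ Z).card) ∧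
      (d ≤ cd H u v → 6 ≤ (link2 H u v \ Z).card) := by
  have a := le_card_sdiff Z (link2 H u v)
  unfold cd at *
  by_cases c : (link2 H u v).card < d
  · exact ⟨fun b => le_card_sdiff_of (hl c) (by simpa using b),
      fun b => le_card_sdiff_of (hl c) (by simpa using b), fun b => by omega⟩
  · omega

lemma tri (h3 : IsThreeGraph H) (hd : 11 ≤ d) {a x y p q : Fin n} {Z : Finset (Fin n)}
    (hZ : Z.card ≤ 5) (hz : ∀ z ∈ Z, z = a ∨ z = x ∨ z = y ∨ z ∈ ({p, q} : Finset (Fin n)))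
    (h : R4 H d a x y) (hl : ∀ z ∈ ({p, q} : Finset (Fin n)), (cd H a x < d → z ∉ link2 H a x) ∧
      (cd H a y < d → z ∉ link2 H a y) ∧ (cd H x y < d → z ∉ link2 H x y)) :
    ∃ r ∈ pm, r.1 ≤ (link2 H a x \ Z).card ∧ r.2.1 ≤ (link2 H a y \ Z).card ∧
      r.2.2 ≤ (link2 H x y \ Z).card := by
  have s1 := sz (H := H) (u := a) (v := x) (w := y) hd hZ fun c z z1 z2 => by
    rcases hz z z2 with rfl | rfl | rfl | e
    exacts [absurd z1 (left_notMem h3 _ _), absurd z1 (right_notMem h3 _ _), mem_singleton_self _,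
      absurd z1 ((hl z e).1 c)]
  have s2 := sz (H := H) (u := a) (v := y) (w := x) hd hZ fun c z z1 z2 => by
    rcases hz z z2 with rfl | rfl | rfl | e
    exacts [absurd z1 (left_notMem h3 _ _), mem_singleton_self _, absurd z1 (right_notMem h3 _ _),
      absurd z1 ((hl z e).2.1 c)]
  have s3 := sz (H := H) (u := x) (v := y) (w := a) hd hZ fun c z z1 z2 => by
    rcases hz z z2 with rfl | rfl | rfl | e
    exacts [mem_singleton_self _, absurd z1 (left_notMem h3 _ _), absurd z1 (right_notMem h3 _ _),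
      absurd z1 ((hl z e).2.2 c)]
  obtain ⟨-, b1, b2, b3, b4, b5⟩ := h
  exact ord (s1.1 b1) (s2.1 b2) (s3.1 b3) (b4.imp s1.2.2 (.imp s2.2.2 s3.2.2))
    (b5.imp (.imp s1.2.1 s2.2.1) (.imp (.imp s1.2.1 s3.2.1) (.imp s2.2.1 s3.2.1)))

end BOWa

open BOWa in
theorem p_BOW :
    S_BOW := by
  intro n d H h3 hd a x1 y1 x2 y2 r1 r2 hdis l1 l2
  have hZ : ({a, x1, y1, x2, y2} : Finset (Fin n)).card ≤ 5 := card_le_five
  obtain ⟨p, hp, p1, p2, p3⟩ := tri h3 hd hZ (fun z hz => by simpa using hz) r1 l1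
  obtain ⟨q, hq, q1, q2, q3⟩ := tri h3 hd hZ (fun z hz => by
    simp only [mem_insert, mem_singleton] at hz ⊢
    tauto) r2 l2
  obtain ⟨f, hf, hm⟩ := sdr_rank (fun i => ![link2 H a x1, link2 H a y1, link2 H x1 y1,
    link2 H a x2, link2 H a y2, link2 H x2 y2] i \ {a, x1, y1, x2, y2})
    ![p.1, p.2.1, p.2.2, q.1, q.2.1, q.2.2] (fun i => by
      fin_cases i
      exacts [p1, p2, p3, q1, q2, q3]) (hall p hp q hq)
  simp only [disjoint_insert_left, disjoint_singleton_left, mem_insert, mem_singleton,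
    not_or] at hdis
  exact ⟨hdis.1.1, hdis.1.2, hdis.2.1, hdis.2.2, f, hf, fun i => (mem_sdiff.1 (hm i)).2,
    fun i => (mem_sdiff.1 (hm i)).1⟩

end

section

open Finset

namespace R4a

variable {n d : ℕ} {H : Finset (Finset (Fin n))}

lemma swap12 {x y z : Fin n} (h : R4 H d x y z) : R4 H d y x z := by
  obtain ⟨h1, h2⟩ := h
  refine ⟨link_symm h1, ?_⟩
  rw [cd_comm H y x]
  omega

lemma swap23 {x y z : Fin n} (h : R4 H d x y z) : R4 H d x z y := by
  obtain ⟨h1, h2⟩ := h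
  refine ⟨link_swap h1, ?_⟩
  rw [cd_comm H z y]
  omega

/-- the link of a pair if the pair is light -/
noncomputable def lt (H : Finset (Finset (Fin n))) (d : ℕ) (x y : Fin n) : Finset (Fin n) :=
  if cd H x y < d then link2 H x y else ∅

lemma card_lt (x y : Fin n) : (lt H d x y).card ≤ d := by
  unfold lt
  split_ifs with h
  exacts [h.le, by simp]

lemma of_disj {a x y : Fin n} {s : Finset (Fin n)}
    (h : Disjoint (lt H d a x ∪ lt H d a y ∪ lt H d x y) s) :
    ∀ z ∈ s, (cd H a x < d → z ∉ link2 H a x) ∧ (cd H a y < d → z ∉ link2 H a y) ∧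
      (cd H x y < d → z ∉ link2 H x y) := fun z hz => by
  have := disjoint_right.1 h hz
  simp only [mem_union, not_or, lt] at this
  refine ⟨fun e => ?_, fun e => ?_, fun e => ?_⟩ <;> rw [if_pos e] at this
  exacts [this.1.1, this.1.2, this.2]

lemma exists_Q (hBOW : S_BOW) {T : ℕ} (hd : 11 ≤ d) (h3 : IsThreeGraph H) (h4 : F4 H T)
    (a : Fin n) : ∃ Q : Finset (Fin n), Q.card ≤ max ((3 * d + 1) * (3 * d + 2)) T ∧
      ∀ x y, R4 H d a x y → x ∈ Q ∨ y ∈ Q := by
  by_cases hr : Rob H {a} T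
  · obtain ⟨Q, h1, h2⟩ := cover (fun p : Fin n × Fin n => {p.1, p.2}) (3 * d)
      (fun p => R4 H d a p.1 p.2) (fun p => lt H d a p.1 ∪ lt H d a p.2 ∪ lt H d p.1 p.2)
      (fun p _ => ⟨card_le_two, by
        have e1 := card_union_le (lt H d a p.1 ∪ lt H d a p.2) (lt H d p.1 p.2)
        have e2 := card_union_le (lt H d a p.1) (lt H d a p.2)
        have e3 := card_lt (H := H) (d := d) a p.1
        have e4 := card_lt (H := H) (d := d) a p.2
        have e5 := card_lt (H := H) (d := d) p.1 p.2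
        omega⟩) fun p q hp hq => by
        by_contra hc
        push Not at hc
        exact h4 _ _ _ _ _ hr
          (hBOW n d H h3 hd a _ _ _ _ hp hq hc.1 (of_disj hc.2.1) (of_disj hc.2.2))
    refine ⟨Q, h1.trans (le_max_left _ _), fun x y h => ?_⟩
    simpa [-not_and, not_and_or] using h2 (x, y) h
  · rw [rob_one] at hr
    push Not at hr
    obtain ⟨Q, h1, h2⟩ := hr
    refine ⟨Q, h1.trans (le_max_right _ _), fun x y h => ?_⟩
    by_contra hc
    push Not at hc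
    exact h2 x y hc.1 hc.2 h.1

end R4a

open R4a in
theorem p_R4 (hBOW : S_BOW) :
    S_R4 := by
  intro T d hd
  obtain ⟨C, hC⟩ : ∃ C, C = max ((3 * d + 1) * (3 * d + 2)) T := ⟨_, rfl⟩
  refine ⟨6 * (C * C), fun n H h3 h4 => ?_⟩
  choose Q hQ1 hQ2 using exists_Q hBOW hd h3 h4
  rw [← hC] at hQ1
  let F : Fin n → Fin n → Fin n → Prop := fun u v w => v ∈ Q u ∧ w ∈ Q v
  have hF : c3 F ≤ C * (n * C) := by
    refine (c3_le_mul (E := fun u v => v ∈ Q u) (m := C) (fun _ _ _ h => h.1)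
      fun u v => (ct_le_of_sub fun w h => h.2).trans (hQ1 v)).trans (Nat.mul_le_mul_left _ ?_)
    simpa using c2_le_mul (E := fun u v => v ∈ Q u) fun u => (ct_le_of_sub fun _ h => h).trans (hQ1 u)
  have e1 := c3_or (E := R4 H d) (F := F) (G := fun x y z =>
    F z x y ∨ F z y x ∨ F x z y ∨ F y x z ∨ F y z x) fun x y z h => by
      have a := hQ2 x y z h
      have b := hQ2 y x z (swap12 h)
      have c := hQ2 z x y (swap12 (swap23 h))
      simp only [F]
      tauto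
  have e2 := c3_or (E := fun x y z => F z x y ∨ F z y x ∨ F x z y ∨ F y x z ∨ F y z x)
    fun _ _ _ h => h
  have e3 := c3_or (E := fun x y z => F z y x ∨ F x z y ∨ F y x z ∨ F y z x) fun _ _ _ h => h
  have e4 := c3_or (E := fun x y z => F x z y ∨ F y x z ∨ F y z x) fun _ _ _ h => h
  have e5 := c3_or (E := fun x y z => F y x z ∨ F y z x) fun _ _ _ h => h
  rw [c3_rot' F] at e2
  rw [c3_swap13 F] at e3
  rw [c3_swap23 F] at e4
  rw [c3_swap12 F, c3_rot F] at e5
  have : 6 * (C * C) * n = 6 * (C * (n * C)) := by ring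
  omega

end

section

open Finset

namespace PT4a

lemma one {n d : ℕ} {H : Finset (Finset (Fin n))} (hd : 5 ≤ d) {x y : Fin n}
    (h : ¬ ∃ z, R4 H d x y z) :
    val H d (pu2 H) x y ≤ ct (LHH H d x y) + 2 * ct (LLH H d x y) ∧
      (3 ≤ cd H x y → val H d (pu2 H) x y ≤ ct (LLH H d x y)) ∧
      (5 ≤ cd H x y → val H d (pu2 H) x y = 0) := by
  have a1 : ct (fun z => LLH H d x y z ∧ ¬ pu2 H x y z) ≤ ct (LLH H d x y) :=
    ct_mono fun z a => a.1
  have a2 : ct (fun z => LLH H d x y z ∧ pu2 H x z y) ≤ ct (LLH H d x y) :=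
    ct_mono fun z a => a.1
  have a3 : 3 ≤ cd H x y → ct (fun z => LLH H d x y z ∧ pu2 H x z y) = 0 := fun h3 =>
    ct_eq_zero fun z a => by have := a.2.2; omega
  have a4 : 3 ≤ cd H x y → ct (LHH H d x y) = 0 := fun h3 => ct_eq_zero fun z a => by
    obtain ⟨b1, b2, b3, b4⟩ := a
    exact h ⟨z, b1, h3, by omega, by omega, by omega, by omega⟩
  have a5 : 5 ≤ cd H x y → ct (fun z => LLH H d x y z ∧ ¬ pu2 H x y z) = 0 := fun h5 =>
    ct_eq_zero fun z a => by
      obtain ⟨⟨b1, b2, b3, b4⟩, b5⟩ := a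
      have b6 : 3 ≤ cd H x z := by_contra fun e => b5 ⟨h5, by omega⟩
      exact h ⟨z, b1, by omega, b6, by omega, by omega, by omega⟩
  unfold val
  omega

end PT4a

theorem p_PT4 :
    S_PT4 := by
  intro n d H _ hd x y h1 h2 _
  obtain ⟨a1, a2, a3⟩ := PT4a.one hd h1
  obtain ⟨b1, b2, b3⟩ := PT4a.one hd h2
  rw [cd_comm H y x] at b2 b3
  have c1 : ct (LHH H d y x) ≤ ct (LHH H d x y) :=
    ct_mono fun z a => ⟨link_symm a.1, cd_comm H y x ▸ a.2.1, a.2.2.2, a.2.2.1⟩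
  have c2 : ct (LLH H d x y) + ct (LLH H d y x) ≤ ct fun z => LLH H d x y z ∨ LLH H d y x z :=
    ct_add_le (fun _ => Or.inl) (fun _ => Or.inr) fun z a b => by
      have := a.2.2.1
      have := b.2.2.2
      omega
  have c3 : ct (LHH H d x y) + ct (fun z => LLH H d x y z ∨ LLH H d y x z) ≤
      ct fun z => z ∈ link2 H x y :=
    ct_add_le (fun _ a => a.1) (fun _ a => a.elim (fun b => b.1) fun b => link_symm b.1)
      fun z a b => by
        have := a.2.2.1
        have := a.2.2.2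
        rcases b with b | b <;> have := b.2.2.1 <;> omega
  have c4 : ct (fun z => z ∈ link2 H x y) ≤ cd H x y := ct_le_of_sub fun _ a => a
  omega

end

section

open Finset

theorem p_F234 (hACC2 : S_ACC2) (hREM : S_REM) (hH2 : S_H2) (hPT2 : S_PT2) (hEX2 : S_EX2) (hPT3 : S_PT3) (hEX3 : S_EX3) (hR4 : S_R4) (hPT4 : S_PT4) :
    S_F234 := by
  intro T ε hε
  obtain ⟨d, hd⟩ : ∃ d, d = T + 11 := ⟨_, rfl⟩
  obtain ⟨e, e0, he⟩ : ∃ e : ℝ, 0 < e ∧ e * (4 + 12 * d) = ε :=
    ⟨ε / (4 + 12 * d), by positivity, by field_simp⟩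
  obtain ⟨n1, h1⟩ := hREM d T e e0
  obtain ⟨n2, h2⟩ := hH2 T d e e0 (by omega)
  obtain ⟨n3, h3⟩ := hEX2 T d e e0 (by omega)
  obtain ⟨n4, h4⟩ := hEX3 T d e e0 (by omega)
  obtain ⟨C, h5⟩ := hR4 T d (by omega)
  obtain ⟨n5, h6⟩ := exists_nat_ge (C / e)
  refine ⟨n1 + n2 + n3 + n4 + n5, fun n hn H hH hF => ?_⟩
  have hL := h1 n (by omega) H (LLL H d) hH hF (fun _ _ _ h => h.1)
    (fun x y => by
      by_cases c : cd H x y < d
      · exact (ct_le_of_sub fun z h => h.1).trans c.le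
      · exact (ct_eq_zero fun z h => c h.2.1).trans_le (Nat.zero_le _))
    (fun x z => by
      by_cases c : cd H x z < d
      · exact (ct_link_le fun y h => h.1).trans c.le
      · exact (ct_eq_zero fun y h => c h.2.2.1).trans_le (Nat.zero_le _))
    (fun y z => by
      by_cases c : cd H y z < d
      · exact (ct_le_of_sub fun x h => link_rot h.1).trans c.le
      · exact (ct_eq_zero fun x h => c h.2.2.2).trans_le (Nat.zero_le _))
  have key : ∀ (pu : Fin n → Fin n → Fin n → Prop) (E : Fin n → Fin n → Prop),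
      (∀ x y, ¬ E x y → ¬ E y x → cd H x y < d → val H d pu x y + val H d pu y x ≤ 4) →
      (c3 (HHH H d) : ℝ) ≤ e * (n : ℝ) ^ 2 → (c2 E : ℝ) ≤ e * (n : ℝ) ^ 2 →
      (H.card : ℝ) ≤ (1 + ε) * (n : ℝ) ^ 2 := fun pu E a b c => by
    have f : (6 * H.card : ℝ) ≤ c3 (HHH H d) + 3 * c3 (LLL H d) + 6 * n ^ 2 + 12 * d * c2 E := by
      exact_mod_cast hACC2 n d H pu E hH a
    have g : (12 * d : ℝ) * c2 E ≤ 12 * d * (e * (n : ℝ) ^ 2) := by gcongr
    have : 0 ≤ ε * (n : ℝ) ^ 2 := by positivity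
    have : ε * (n : ℝ) ^ 2 = 4 * (e * (n : ℝ) ^ 2) + 12 * d * (e * (n : ℝ) ^ 2) := by
      rw [← he]; ring
    linarith
  rcases hF with hF | hF | hF
  · obtain ⟨s, r, hs, h7⟩ := h3 n (by omega)
    exact key _ _ (hPT2 n d s r H hH hs) (h2 n (by omega) H hH hF) (h7 H hH hF)
  · obtain ⟨a, b⟩ := h4 n (by omega) H hH hF
    exact key _ _ (hPT3 n d T H hH hF (by omega)) b a
  · have a : (c3 (R4 H d) : ℝ) ≤ e * (n : ℝ) ^ 2 := by
      have b : (c3 (R4 H d) : ℝ) ≤ C * n := by exact_mod_cast h5 n H hH hF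
      have c : (n5 : ℝ) ≤ n := by exact_mod_cast (by omega : n5 ≤ n)
      have f : (C : ℝ) ≤ n * e := (div_le_iff₀ e0).1 (h6.trans c)
      calc _ ≤ n * e * n := b.trans (by gcongr)
        _ = _ := by ring
    refine key _ (fun x y => ∃ z, R4 H d x y z) (hPT4 n d H hH (by omega)) (le_trans ?_ a)
      (le_trans ?_ a)
    · refine Nat.cast_le.2 (c3_mono fun x y z h => ?_)
      obtain ⟨b1, b2, b3, b4⟩ := h
      exact ⟨b1, by omega, by omega, by omega, .inl b2, .inl ⟨by omega, by omega⟩⟩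
    · exact Nat.cast_le.2 (c2_exists_le _)

end

end Pool.Agent.P.MP_e3cf1a_co.X
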