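import Pool.Agent.P.MP_e3cf1a_co.Sh.Iface

/-! Steps K3, ROB3, RB, RJ, CHG, YY, TX, F1. -/

namespace Pool.Agent.P.MP_e3cf1a_co.X

section

open Finset

namespace K3a

variable {U : Type*} [Fintype U]

lemma c3_cube (p : U → Prop) : c3 (fun x y z => p x ∧ p y ∧ p z) = ct p ^ 3 := by
  classical
  have h : ∀ x y, ct (fun z => p x ∧ p y ∧ p z) =
      (if p x then 1 else 0) * ((if p y then 1 else 0) * ct p) := fun x y => by
    by_cases e1 : p x <;> by_cases e2 : p y <;> simp [e1, e2, ct_eq_zero]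
  simp only [c3, h, ← mul_sum, ← sum_mul, ← ct_eq_sum]
  ring

lemma c3_le {F : U → U → U → Prop} {m : ℕ} (h : ∀ x y, ct (F x y) ≤ m) :
    c3 F ≤ Fintype.card U ^ 2 * m := by
  refine (sum_le_sum fun x _ => sum_le_sum fun y _ => h x y).trans (le_of_eq ?_)
  simp only [sum_const, card_univ, smul_eq_mul]
  ring

lemma one (p : U → Prop) (z : U → U) {m : ℕ} (h : ∀ c, ct (fun a => p a ∧ z a = c) ≤ m) :
    ct p ^ 3 ≤ c3 (fun x y w => p x ∧ p y ∧ p w ∧ z x ≠ z y ∧ z x ≠ z w ∧ z y ≠ z w) +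
      3 * (Fintype.card U ^ 2 * m) := by
  have h1 : c3 (fun x _ w => p w ∧ z w = z x) ≤ Fintype.card U ^ 2 * m := c3_le fun x _ => h _
  have h2 : c3 (fun _ y w => p w ∧ z w = z y) ≤ Fintype.card U ^ 2 * m := c3_le fun _ y => h _
  have h3 : c3 (fun x y _ => p y ∧ z y = z x) ≤ Fintype.card U ^ 2 * m := by
    rw [← c3_swap23]; exact h1
  have h4 := c3_or (E := fun x y z => p x ∧ p y ∧ p z)
    (F := fun x y w => p x ∧ p y ∧ p w ∧ z x ≠ z y ∧ z x ≠ z w ∧ z y ≠ z w)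
    (G := fun x y w => (p w ∧ z w = z x) ∨ (p w ∧ z w = z y) ∨ (p y ∧ z y = z x))
    fun x y w hh => by
      by_cases e1 : z x = z y
      · exact .inr (.inr (.inr ⟨hh.2.1, e1.symm⟩))
      by_cases e2 : z x = z w
      · exact .inr (.inl ⟨hh.2.2, e2.symm⟩)
      by_cases e3 : z y = z w
      · exact .inr (.inr (.inl ⟨hh.2.2, e3.symm⟩))
      exact .inl ⟨hh.1, hh.2.1, hh.2.2, e1, e2, e3⟩
  have h5 := c3_or (E := fun x y w => (p w ∧ z w = z x) ∨ (p w ∧ z w = z y) ∨ (p y ∧ z y = z x))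
    fun _ _ _ hh => hh
  have h6 := c3_or (E := fun x y w => (p w ∧ z w = z y) ∨ (p y ∧ z y = z x)) fun _ _ _ hh => hh
  rw [c3_cube] at h4
  omega

lemma swap (G : U → U → U → U → Prop) :
    ∑ b, c3 (G b) = ∑ a : U × U × U, ct fun b => G b a.1 a.2.1 a.2.2 := by
  simp only [c3, ct_eq_sum, Fintype.sum_prod_type]
  rw [sum_comm]
  refine sum_congr rfl fun x _ => ?_
  rw [sum_comm]
  exact sum_congr rfl fun y _ => sum_comm

end K3a

open K3a in
theorem p_K3 :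
    S_K3 := by
  intro n m R z ε hε hn h h2
  by_contra hc
  push Not at hc
  have hn' : (0 : ℝ) < n := by exact_mod_cast hn
  have : Nonempty (Fin n) := ⟨⟨0, hn⟩⟩
  have a1 : ∑ b, ct (fun a => R a b) = c2 R := c2_swap R
  have a2 := pow_sum_le_card_mul_sum_pow (s := (univ : Finset (Fin n)))
    (f := fun b => ct fun a => R a b) (fun _ _ => Nat.zero_le _) 2
  have a3 := sum_le_sum fun b (_ : b ∈ (univ : Finset (Fin n))) =>
    one (fun a => R a b) (fun a => z a b) (h b)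
  rw [sum_add_distrib, swap] at a3
  have a4 := sum_lt_sum_of_nonempty (s := (univ : Finset (Fin n × Fin n × Fin n))) univ_nonempty
    fun a _ => hc a.1 a.2.1 a.2.2
  simp only [sum_const, card_univ, Fintype.card_prod, Fintype.card_fin, nsmul_eq_mul,
    smul_eq_mul] at a2 a3 a4
  rw [a1] at a2
  rw [← Nat.cast_sum] at a4
  generalize ∑ a : Fin n × Fin n × Fin n, ct (fun b => R a.1 b ∧ R a.2.1 b ∧ R a.2.2 b ∧
    z a.1 b ≠ z a.2.1 b ∧ z a.1 b ≠ z a.2.2 b ∧ z a.2.1 b ≠ z a.2.2 b) = S at a3 a4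
  have a5 : (c2 R : ℝ) ^ 3 ≤ (n : ℝ) ^ 2 * (S + n * (3 * (n ^ 2 * m))) := by
    exact_mod_cast a2.trans (Nat.mul_le_mul_left _ a3)
  have a6 := pow_le_pow_left₀ (by positivity) h2 3
  have a7 := mul_lt_mul_of_pos_left a4 (show (0 : ℝ) < (n : ℝ) ^ 2 by positivity)
  push_cast at a7
  nlinarith

end

section

open Finset

theorem p_ROB3 :
    S_ROB3 := by
  intro n d T H Ah Al p _ hc hd hh hl hp Q hQ
  have hAl : Al.card ≤ 3 := (card_le_card subset_union_right).trans hc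
  obtain ⟨b, hb, hq⟩ := avoid Q (fun q b => q = b ∨ ∃ a ∈ Al, LLx H d a b q) (p := p) (1 + 3 * d)
    (fun q _ => by
      refine (ct_or (q := fun b => b = q) (r := fun b => ∃ a ∈ Al, LLx H d a b q)
        fun b h => h.2.imp_left Eq.symm).trans (Nat.add_le_add ?_ ?_)
      · exact (ct_le_of_sub (s := {q}) fun _ h => mem_singleton.2 h).trans_eq (card_singleton q)
      · refine (ct_exists_le Al (fun a b => LLx H d a b q) d (fun _ h => h) fun a _ => ?_).trans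
          (Nat.mul_le_mul_right d hAl)
        by_cases e : cd H a q < d
        · exact (ct_link_le fun _ h => h.1).trans e.le
        · rw [ct_eq_zero fun _ h => e h.2.2]
          exact Nat.zero_le _) ((Nat.mul_le_mul_right _ hQ).trans_lt hp)
  obtain ⟨f, hf, hm⟩ := sdr_rank (ι := ↥(Ah ∪ Al))
    (fun a => if a.1 ∈ Al then st (LLx H d a b) else link2 H a b \ Q)
    (fun a => if a.1 ∈ Al then Al.card else 3) (fun a => by
      split_ifs with h
      · exact hl b hb a h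
      · have h1 := hh b hb a ((mem_union.1 a.2).resolve_right h)
        have h2 := le_card_sdiff Q (link2 H a b)
        unfold cd at h1
        omega) (fun a => by
      have h0 : ∀ s : Finset ↥(Ah ∪ Al), s.card ≤ 3 := fun s =>
        (card_le_univ s).trans ((Fintype.card_coe _).trans_le hc)
      by_cases h : a.1 ∈ Al
      · simp only [if_pos h]
        by_cases h3 : 3 ≤ Al.card
        · exact (h0 _).trans h3
        · refine card_le_card_of_injOn Subtype.val (fun j hj => ?_) Subtype.val_injective.injOn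
          have := (mem_filter.1 (mem_coe.1 hj)).2
          by_contra e
          rw [if_neg (fun a => e (mem_coe.2 a))] at this
          exact h3 this
      · simp only [if_neg h]
        exact h0 _)
  refine ⟨b, fun h => hq b h (.inl rfl), fun a => if ha : a ∈ Ah ∪ Al then f ⟨a, ha⟩ else a, ?_,
    fun a ha => ?_⟩
  · intro x hx y hy e
    simp only [dif_pos (mem_coe.1 hx), dif_pos (mem_coe.1 hy)] at e
    exact congrArg Subtype.val (hf e)
  · simp only [dif_pos ha]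
    have h1 := hm ⟨a, ha⟩
    by_cases h : a ∈ Al
    · simp only [if_pos h, mem_st] at h1
      exact ⟨fun e => hq _ e (.inr ⟨a, h, h1⟩), h1.1⟩
    · simp only [if_neg h, mem_sdiff] at h1
      exact ⟨h1.2, h1.1⟩

end

section

open Finset

theorem p_RB (hK3 : S_K3) :
    S_RB := by
  intro T ε hε
  obtain ⟨n0, hn0⟩ := exists_nat_gt (2 * T / ε ^ 3)
  refine ⟨ε ^ 3 / (6 * (T + 1)), by positivity, n0, fun n hn d s H _ hF hs => ?_⟩
  by_contra hc
  have hn1 : 2 * (T : ℝ) / ε ^ 3 < n := hn0.trans_le (by exact_mod_cast hn)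
  have hn2 : 0 < n := by exact_mod_cast (show (0 : ℝ) < n from lt_of_le_of_lt (by positivity) hn1)
  rw [div_lt_iff₀ (by positivity)] at hn1
  rw [div_mul_eq_mul_div, le_div_iff₀ (by positivity)] at hs
  have hz : ∀ a b : Fin n, ∃ z, (∃ z, LHH H d a b z ∧ hd H d z ≤ s) →
      LHH H d a b z ∧ hd H d z ≤ s := fun a b => by
    by_cases h : ∃ z, LHH H d a b z ∧ hd H d z ≤ s
    exacts [⟨h.choose, fun _ => h.choose_spec⟩, ⟨a, fun h' => absurd h' h⟩]
  choose z hz using hz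
  have key : ∀ (q : Fin n) (p : Fin n → Prop), (∀ v, p v → hd H d q ≤ s ∧ d ≤ cd H v q) →
      ct p ≤ s := fun q p h => by
    rcases Nat.eq_zero_or_pos (ct p) with e | e
    · omega
    · obtain ⟨v, hv⟩ := exists_of_ct_pos e
      exact (ct_mono fun w hw => cd_comm H w q ▸ (h w hw).2).trans (h v hv).1
  have k2 : ∀ a q : Fin n, ct (fun b => (∃ z, LHH H d a b z ∧ hd H d z ≤ s) ∧ z a b = q) ≤ s :=
    fun a q => key q _ fun b hb => hb.2 ▸ ⟨(hz a b hb.1).2, (hz a b hb.1).1.2.2.2⟩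
  obtain ⟨a1, a2, a3, hB⟩ := hK3 n s _ z ε hε hn2
    (fun b c => key c _ fun a ha => ha.2 ▸ ⟨(hz a b ha.1).2, (hz a b ha.1).1.2.2.1⟩)
    (not_le.1 hc).le
  have hB' := (show ((T * (1 + s + s + s) : ℕ) : ℝ) < ε ^ 3 * n - 3 * s by
    push_cast
    linarith).trans_le hB
  rw [Nat.cast_lt] at hB'
  obtain ⟨b0, -, -, -, e1, e2, e3⟩ := exists_of_ct_pos ((Nat.zero_le _).trans_lt hB')
  refine hF {a1, a2, a3} (card_eq_three.2 ⟨a1, a2, a3, fun e => e1 (by rw [e]),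
    fun e => e2 (by rw [e]), fun e => e3 (by rw [e]), rfl⟩) fun Q hQ => ?_
  obtain ⟨b, ⟨r1, r2, r3, f1, f2, f3⟩, hb⟩ := avoid Q
    (fun q b => ((q = b ∨ z a1 b = q) ∨ z a2 b = q) ∨ z a3 b = q) (1 + s + s + s)
    (fun q _ => by
      refine (ct_or (q := fun b => (b ∈ ({q} : Finset _) ∨ _) ∨ _) fun b h => ?_).trans
        (add_le_add ((ct_or fun _ h => h).trans (add_le_add ((ct_or fun _ h => h).trans
          (add_le_add ((ct_le_of_sub fun _ h => h).trans (card_singleton q).le) (k2 a1 q)))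
          (k2 a2 q))) (k2 a3 q))
      rcases h with ⟨⟨r1, r2, r3, -⟩, ((h | h) | h) | h⟩
      exacts [.inl (.inl (.inl (mem_singleton.2 h.symm))), .inl (.inl (.inr ⟨r1, h⟩)),
        .inl (.inr ⟨r2, h⟩), .inr ⟨r3, h⟩]) ((Nat.mul_le_mul_right _ hQ).trans_lt hB')
  simp only [not_or] at hb
  refine ⟨b, fun h => (hb b h).1.1.1 rfl, fun a => z a b, fun x hx y hy => ?_, fun a ha => ?_⟩
  · simp only [coe_insert, coe_singleton, Set.mem_insert_iff, Set.mem_singleton_iff] at hx hy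
    rcases hx with rfl | rfl | rfl <;> rcases hy with rfl | rfl | rfl <;> intro e <;>
      first | rfl | exact absurd e ‹_› | exact absurd e.symm ‹_›
  · simp only [mem_insert, mem_singleton] at ha
    rcases ha with rfl | rfl | rfl
    exacts [⟨fun h => (hb _ h).1.1.2 rfl, (hz _ _ r1).1.1⟩,
      ⟨fun h => (hb _ h).1.2 rfl, (hz _ _ r2).1.1⟩, ⟨fun h => (hb _ h).2 rfl, (hz _ _ r3).1.1⟩]

end

section

open Finset

theorem p_RJ (hK3 : S_K3) (hROB3 : S_ROB3) :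
    S_RJ := by
  intro T d ε hε hd
  refine ⟨⌈((T * (1 + 3 * d) : ℕ) + 4 : ℝ) / ε ^ 3⌉₊ + 1, fun n hn H J h3 hF => ?_⟩
  by_contra hlt
  obtain ⟨a1, a2, a3, h⟩ := hK3 n 1 _ (fun a _ => a) ε hε (by omega) (fun b c =>
    (ct_le_of_sub (s := {c}) fun _ h => mem_singleton.2 h.2).trans_eq (card_singleton c))
    (not_le.1 hlt).le
  have h1 := (div_le_iff₀ (by positivity)).1 (Nat.ceil_le.1 (Nat.le_of_succ_le hn))
  set p := fun b => (cd H a1 b < d ∧ (∀ z ∈ J, d ≤ cd H z b) ∧ 3 ≤ ct (LLx H d a1 b) + J.card) ∧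
    (cd H a2 b < d ∧ (∀ z ∈ J, d ≤ cd H z b) ∧ 3 ≤ ct (LLx H d a2 b) + J.card) ∧
    (cd H a3 b < d ∧ (∀ z ∈ J, d ≤ cd H z b) ∧ 3 ≤ ct (LLx H d a3 b) + J.card) ∧
    a1 ≠ a2 ∧ a1 ≠ a3 ∧ a2 ≠ a3 with hp
  have h2 : T * (1 + 3 * d) < ct p := by
    have : ((T * (1 + 3 * d) : ℕ) : ℝ) < ct p := by
      simp only [Nat.cast_one] at h
      linarith
    exact_mod_cast this
  obtain ⟨b, hb⟩ := exists_of_ct_pos ((Nat.zero_le _).trans_lt h2)
  obtain ⟨Ah, s1, c1⟩ := exists_subset_card_eq (s := J) (min_le_left J.card 3)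
  obtain ⟨Al, s2, c2⟩ := exists_subset_card_eq (s := {a1, a2, a3}) (n := 3 - min J.card 3)
    (by rw [card_triple_eq_three_iff.2 hb.2.2.2]; omega)
  have key : ∀ b, p b → ∀ a ∈ Al, cd H a b < d ∧ 3 ≤ ct (LLx H d a b) + J.card := by
    intro b hb a ha
    have := s2 ha
    simp only [mem_insert, mem_singleton] at this
    rcases this with rfl | rfl | rfl
    exacts [⟨hb.1.1, hb.1.2.2⟩, ⟨hb.2.1.1, hb.2.1.2.2⟩, ⟨hb.2.2.1.1, hb.2.2.1.2.2⟩]
  have hc : (Ah ∪ Al).card = 3 := by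
    rw [card_union_of_disjoint (disjoint_left.2 fun a x y =>
      absurd (hb.1.2.1 a (s1 x)) (not_le.2 (key b hb a y).1))]
    omega
  refine hF _ hc (hROB3 n d T H Ah Al p h3 hc.le hd (fun b hb a ha => hb.1.2.1 a (s1 ha))
    (fun b hb a ha => ?_) h2)
  have := (key b hb a ha).2
  omega

end

section

open Finset

namespace CHGa

variable {U : Type*} [Fintype U] [DecidableEq U]

/-- The relation counted in step RJ. -/
def R (H : Finset (Finset U)) (d : ℕ) (J : Finset U) (a b : U) : Prop :=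
  cd H a b < d ∧ (∀ z ∈ J, d ≤ cd H z b) ∧ 3 ≤ ct (LLx H d a b) + J.card

open Classical in
lemma term (H : Finset (Finset U)) (d : ℕ) (Z : Finset U) (a b : U) :
    (ct (LLx H d a b) + ct fun z => z ∈ Z ∧ LHH H d a b z) ≤
      2 + d * ∑ J ∈ Z.powerset, if R H d J a b then 1 else 0 := by
  by_cases h : cd H a b < d
  swap
  · rw [ct_eq_zero (p := LLx H d a b) fun z hz => h hz.2.1,
      ct_eq_zero (p := fun z => z ∈ Z ∧ LHH H d a b z) fun z hz => h hz.2.2.1]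
    exact Nat.zero_le _
  have h1 : (ct (LLx H d a b) + ct fun z => z ∈ Z ∧ LHH H d a b z) ≤ cd H a b :=
    (ct_add_le (r := fun z => z ∈ link2 H a b) (fun z hz => hz.1) (fun z hz => hz.2.1)
      fun z hz hz' => absurd hz.2.2 (not_lt.2 hz'.2.2.2.1)).trans (ct_le_of_sub fun _ h => h)
  have h2 : (ct fun z => z ∈ Z ∧ LHH H d a b z) ≤ (Z.filter fun z => d ≤ cd H z b).card :=
    ct_le_of_sub fun z hz => mem_filter.2 ⟨hz.1, cd_comm H b z ▸ hz.2.2.2.2⟩
  by_cases h3 : R H d (Z.filter fun z => d ≤ cd H z b) a b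
  · have h4 : 1 ≤ ∑ J ∈ Z.powerset, if R H d J a b then 1 else 0 := by
      have := single_le_sum (f := fun J => if R H d J a b then 1 else 0)
        (fun _ _ => Nat.zero_le _) (mem_powerset.2 (filter_subset (fun z => d ≤ cd H z b) Z))
      rwa [if_pos h3] at this
    have := Nat.mul_le_mul_left d h4
    omega
  · have : ¬ 3 ≤ ct (LLx H d a b) + (Z.filter fun z => d ≤ cd H z b).card :=
      fun h5 => h3 ⟨h, fun z hz => (mem_filter.1 hz).2, h5⟩
    omega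

lemma total (H : Finset (Finset U)) (d : ℕ) (Z X : Finset U) :
    ∑ b ∈ X, chg H d Z b ≤ 2 * Fintype.card U * X.card + d * ∑ J ∈ Z.powerset, c2 (R H d J) := by
  classical
  have h1 : ∑ J ∈ Z.powerset, c2 (R H d J) =
      ∑ b, ∑ a, ∑ J ∈ Z.powerset, if R H d J a b then 1 else 0 := by
    simp only [c2, ct_eq_sum]
    rw [sum_comm, sum_comm (s := univ) (t := univ)]
    exact sum_congr rfl fun a _ => by rw [sum_comm]
  calc ∑ b ∈ X, chg H d Z b
      ≤ ∑ b ∈ X, ∑ a, (2 + d * ∑ J ∈ Z.powerset, if R H d J a b then 1 else 0) :=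
        sum_le_sum fun b _ => sum_le_sum fun a _ => by convert term H d Z a b
    _ = 2 * Fintype.card U * X.card +
        d * ∑ b ∈ X, ∑ a, ∑ J ∈ Z.powerset, if R H d J a b then 1 else 0 := by
        simp only [sum_add_distrib, sum_const, card_univ, smul_eq_mul, mul_sum]
        ring
    _ ≤ _ := by
        rw [h1]
        exact Nat.add_le_add_left (Nat.mul_le_mul_left _
          (sum_le_sum_of_subset (subset_univ X))) _

end CHGa

theorem p_CHG (hRJ : S_RJ) :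
    S_CHG := by
  intro T d M ε hε hd
  have hp : (0 : ℝ) < d * 2 ^ M + 1 := by positivity
  obtain ⟨n0, h⟩ := hRJ T d (ε / (d * 2 ^ M + 1)) (div_pos hε hp) hd
  refine ⟨n0, fun n hn H Z X h3 hF hZ => ?_⟩
  have h1 : ((∑ b ∈ X, chg H d Z b : ℕ) : ℝ) ≤
      2 * n * X.card + d * ∑ J ∈ Z.powerset, (c2 (CHGa.R H d J) : ℝ) := by
    have := CHGa.total H d Z X
    rw [Fintype.card_fin] at this
    exact_mod_cast this
  have h2 : ∑ J ∈ Z.powerset, (c2 (CHGa.R H d J) : ℝ) ≤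
      2 ^ M * (ε / (d * 2 ^ M + 1) * (n : ℝ) ^ 2) := by
    refine (sum_le_card_nsmul _ _ _ fun J _ => h n hn H J h3 hF).trans ?_
    rw [card_powerset, nsmul_eq_mul, Nat.cast_pow, Nat.cast_ofNat]
    exact mul_le_mul_of_nonneg_right (pow_le_pow_right₀ (by norm_num) hZ) (by positivity)
  have h4 : (d : ℝ) * (2 ^ M * (ε / (d * 2 ^ M + 1) * (n : ℝ) ^ 2)) ≤ ε * (n : ℝ) ^ 2 := by
    rw [← mul_assoc, ← mul_assoc]
    refine mul_le_mul_of_nonneg_right ?_ (by positivity)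
    rw [← mul_div_assoc, div_le_iff₀ hp]
    nlinarith
  have := mul_le_mul_of_nonneg_left h2 (Nat.cast_nonneg (α := ℝ) d)
  linarith

end

section

open Finset

namespace YYa

lemma chg_le (hROB3 : S_ROB3) {n T d M : ℕ} {H : Finset (Finset (Fin n))} {Z B : Finset (Fin n)}
    (hd : T + 3 ≤ d) (h3 : IsThreeGraph H) (hF : F1 H T) (hZ : Z.card ≤ M) {u w : Fin n}
    (huw : u ≠ w) (hu : u ∉ Z) (hw : w ∉ Z) (hB : ∀ b ∈ B, d ≤ cd H u b ∧ d ≤ cd H w b) :
    ∑ b ∈ B, chg H d Z b ≤ n * (T * (1 + 3 * d) * d + M * T) := by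
  unfold chg
  rw [sum_comm]
  refine (sum_le_card_nsmul _ _ _ fun a _ => ?_).trans_eq (by rw [card_univ, Fintype.card_fin]; rfl)
  rw [sum_add_distrib]
  refine add_le_add ?_ ?_
  · have lt : ∀ b, ct (LLx H d a b) ≠ 0 → cd H a b < d := fun b hb =>
      (exists_of_ct_pos (Nat.pos_of_ne_zero hb)).elim fun _ hz => hz.2.1
    rw [← sum_filter_ne_zero]
    refine (sum_le_card_nsmul _ _ d fun b hb => (ct_le_of_sub fun z hz => hz.1).trans
      (lt b (mem_filter.1 hb).2).le).trans (Nat.mul_le_mul_right d ?_)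
    refine (card_le_ct (p := fun b => b ∈ B ∧ ct (LLx H d a b) ≠ 0)
      fun b hb => mem_filter.1 hb).trans (not_lt.1 fun h => ?_)
    obtain ⟨b, hb, hb'⟩ := exists_of_ct_pos ((Nat.zero_le _).trans_lt h)
    have c3 : (({u, w} : Finset (Fin n)) ∪ {a}).card = 3 := by
      refine card_eq_three.2 ⟨u, w, a, huw, ?_, ?_, by simp⟩ <;> rintro rfl
      exacts [(lt b hb').not_ge (hB b hb).1, (lt b hb').not_ge (hB b hb).2]
    refine hF _ c3 (hROB3 n d T H {u, w} {a} _ h3 c3.le hd (fun b hb x hx => ?_)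
      (fun b hb x hx => ?_) h)
    · rcases mem_insert.1 hx with rfl | hx
      exacts [(hB b hb.1).1, mem_singleton.1 hx ▸ (hB b hb.1).2]
    · rw [mem_singleton.1 hx]
      exact Nat.pos_of_ne_zero hb.2
  · refine (sum_le_sum (g := fun b => (Z.filter fun z => d ≤ cd H b z).card) fun b _ =>
      ct_le_of_sub fun z hz => mem_filter.2 ⟨hz.1, hz.2.2.2.2⟩).trans ?_
    simp only [card_filter]
    rw [sum_comm]
    refine (sum_le_card_nsmul _ _ T fun z hz => ?_).trans (Nat.mul_le_mul_right T hZ)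
    rw [← card_filter]
    have c3 : ({u, w, z} : Finset (Fin n)).card = 3 :=
      card_eq_three.2 ⟨u, w, z, huw, fun e => hu (e ▸ hz), fun e => hw (e ▸ hz), rfl⟩
    refine (card_le_ct (p := fun c => ∀ a ∈ ({u, w, z} : Finset (Fin n)), d ≤ cd H a c)
      fun b hb => ?_).trans (not_lt.1 fun h => hF _ c3 (rob_of_heavy (c3 ▸ hd) h))
    have h1 := mem_filter.1 hb
    simpa [hB b h1.1, cd_comm H z b] using h1.2

end YYa

theorem p_YY (hROB3 : S_ROB3) :
    S_YY := by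
  classical
  intro T d M ε hε hd
  obtain ⟨K, hK⟩ := exists_nat_ge (((T * (1 + 3 * d) * d + M * T : ℕ) : ℝ) / ε)
  rw [div_le_iff₀' hε] at hK
  refine ⟨2 * K + 2 + 2 * M ^ 2, fun n H Z h3 hF hZ => ?_⟩
  obtain ⟨Y, hY, hmax⟩ := exists_max_image (univ.filter fun Y : Finset (Fin n) =>
    ((∑ b ∈ Y, chg H d Z b : ℕ) : ℝ) ≤ ε * n * Y.card) card ⟨∅, by simp⟩
  have hY := (mem_filter.1 hY).2
  have hn : ∀ S : Finset (Fin n), S.card ≤ n := fun S => card_finset_fin_le S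
  have key : ∀ u ∈ Zᶜ, ∀ w ∈ Zᶜ, (Yᶜ.filter fun x => (hG H d).Adj x u ∧ (hG H d).Adj x w).card ≤
      K + if u = w then n else 0 := by
    intro u hu w hw
    split_ifs with e
    · exact (hn _).trans (Nat.le_add_left _ _)
    generalize hB : (Yᶜ.filter fun x => (hG H d).Adj x u ∧ (hG H d).Adj x w) = B
    have m : ∀ b ∈ B, b ∉ Y ∧ d ≤ cd H u b ∧ d ≤ cd H w b := fun b hb => by
      rw [← hB, mem_filter, mem_compl] at hb
      exact ⟨hb.1, hb.2.1.symm.2, hb.2.2.symm.2⟩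
    have dj : Disjoint Y B := disjoint_right.2 fun b hb => (m b hb).1
    by_contra h
    have h1 : (K : ℝ) ≤ B.card := by exact_mod_cast (not_le.1 h).le
    have h2 : ((∑ b ∈ B, chg H d Z b : ℕ) : ℝ) ≤ n * (T * (1 + 3 * d) * d + M * T : ℕ) := by
      exact_mod_cast YYa.chg_le hROB3 hd h3 hF hZ e (mem_compl.1 hu) (mem_compl.1 hw)
        fun b hb => (m b hb).2
    have h4 := hmax (Y ∪ B) (mem_filter.2 ⟨mem_univ _, by
      rw [sum_union dj, card_union_of_disjoint dj, Nat.cast_add, Nat.cast_add, mul_add]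
      refine add_le_add hY (h2.trans ?_)
      rw [mul_comm ε, mul_assoc (n : ℝ)]
      exact mul_le_mul_of_nonneg_left (hK.trans (mul_le_mul_of_nonneg_left h1 hε.le))
        n.cast_nonneg⟩)
    rw [card_union_of_disjoint dj] at h4
    omega
  refine ⟨Y, hY.trans ?_, ?_⟩
  · rw [sq, ← mul_assoc]
    exact mul_le_mul_of_nonneg_left (Nat.cast_le.2 (hn Y)) (by positivity)
  have h1 : ∀ x ∈ Yᶜ, (nbr (hG H d) x).card ^ 2 ≤
      2 * (Zᶜ.filter ((hG H d).Adj x)).card ^ 2 + 2 * M ^ 2 := fun x _ => by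
    have : (nbr (hG H d) x).card ≤ (Zᶜ.filter ((hG H d).Adj x)).card + M :=
      (card_le_card fun y hy => by
        by_cases e : y ∈ Z <;> simp [e, mem_nbr.1 hy]).trans
          ((card_union_le _ Z).trans (Nat.add_le_add_left hZ _))
    refine (Nat.pow_le_pow_left this 2).trans ?_
    generalize (Zᶜ.filter ((hG H d).Adj x)).card = a
    zify
    nlinarith [sq_nonneg ((a : ℤ) - M)]
  have h2 : ∑ x ∈ Yᶜ, (Zᶜ.filter ((hG H d).Adj x)).card ^ 2 ≤ n * (n * K + n) := by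
    rw [sum_card_filter_sq]
    refine (sum_le_card_nsmul _ _ _ fun u hu => (sum_le_sum (key u hu)).trans ?_).trans
      (Nat.mul_le_mul_right _ (hn _))
    rw [sum_add_distrib, sum_const, sum_ite_eq, if_pos hu]
    exact Nat.add_le_add_right (Nat.mul_le_mul_right _ (hn _)) _
  refine (sum_le_sum h1).trans ?_
  rw [sum_add_distrib, ← mul_sum, sum_const, smul_eq_mul]
  have h4 := Nat.mul_le_mul_right (2 * M ^ 2) ((hn Yᶜ).trans (Nat.le_self_pow two_ne_zero n))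
  nlinarith

end

section

open Finset

namespace TXa

variable {U : Type*} [Fintype U] [DecidableEq U]

/-- Twice the number of triangles at `x`. -/
noncomputable def tri (S : SimpleGraph U) (x : U) : ℕ :=
  ∑ y ∈ nbr S x, (nbr S x ∩ nbr S y).card

lemma c3_le (S : SimpleGraph U) (X : Finset U) :
    c3 (fun x y z => x ∈ X ∧ Tri S x y z) ≤ ∑ x ∈ X, tri S x := by
  unfold c3
  rw [← sum_subset (subset_univ X) fun x _ hx =>
    sum_eq_zero fun y _ => ct_eq_zero fun z h => hx h.1]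
  refine sum_le_sum fun x _ => ?_
  unfold tri
  rw [← sum_subset (subset_univ (nbr S x)) fun y _ hy =>
    ct_eq_zero fun z h => hy (mem_nbr.2 h.2.1)]
  exact sum_le_sum fun y _ => ct_le_of_sub fun z h =>
    mem_inter.2 ⟨mem_nbr.2 h.2.2.1, mem_nbr.2 h.2.2.2⟩

lemma four (S : SimpleGraph U) (X : Finset U) (D C : ℕ) (h : Cod3 S D)
    (hX : ∑ x ∈ X, (nbr S x).card ^ 2 ≤ C * Fintype.card U ^ 2) :
    (∑ x ∈ X, tri S x) ^ 4 ≤ (D + 1) ^ 2 * C ^ 3 * Fintype.card U ^ 7 := by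
  set n := Fintype.card U with hn
  set A := ∑ x ∈ X, (nbr S x).card with hA
  set B := ∑ x ∈ X, (nbr S x).card ^ 2 with hB
  have h1 : (∑ x ∈ X, tri S x) ^ 2 ≤ (∑ x ∈ X, (D + 1) * (nbr S x).card) * B :=
    sum_sq_le_sum_mul_sum_of_sq_le_mul X (fun _ _ => Nat.zero_le _) (fun _ _ => Nat.zero_le _)
      fun x _ => (local_bound S D h x).trans_eq (by ring)
  rw [← mul_sum, ← hA] at h1
  have h2 : A ^ 2 ≤ n * B :=
    (sq_sum_le_card_mul_sum_sq (s := X) (f := fun x => (nbr S x).card)).trans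
      (Nat.mul_le_mul_right _ (card_le_univ X))
  calc (∑ x ∈ X, tri S x) ^ 4 = ((∑ x ∈ X, tri S x) ^ 2) ^ 2 := by ring
    _ ≤ ((D + 1) * A * B) ^ 2 := Nat.pow_le_pow_left h1 2
    _ = (D + 1) ^ 2 * A ^ 2 * B ^ 2 := by ring
    _ ≤ (D + 1) ^ 2 * (n * B) * B ^ 2 := by gcongr
    _ = (D + 1) ^ 2 * n * B ^ 3 := by ring
    _ ≤ (D + 1) ^ 2 * n * (C * n ^ 2) ^ 3 := by gcongr
    _ = _ := by ring

end TXa

theorem p_TX :
    S_TX := by
  intro D C ε hε
  refine ⟨⌈((D : ℝ) + 1) ^ 2 * C ^ 3 / ε ^ 4⌉₊, fun n hn S X h hX => ?_⟩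
  have h1 := TXa.four S X D C h (by simpa using hX)
  rw [Fintype.card_fin] at h1
  have h2 : ((D : ℝ) + 1) ^ 2 * C ^ 3 ≤ n * ε ^ 4 := by
    rw [← div_le_iff₀ (by positivity)]
    exact (Nat.le_ceil _).trans (by exact_mod_cast hn)
  have h3 : ((∑ x ∈ X, TXa.tri S x : ℕ) : ℝ) ^ 4 ≤ (ε * (n : ℝ) ^ 2) ^ 4 := by
    calc ((∑ x ∈ X, TXa.tri S x : ℕ) : ℝ) ^ 4 ≤ ((D : ℝ) + 1) ^ 2 * C ^ 3 * (n : ℝ) ^ 7 := by
          exact_mod_cast h1
      _ ≤ n * ε ^ 4 * (n : ℝ) ^ 7 := by gcongr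
      _ = _ := by ring
  have h4 := (pow_le_pow_iff_left₀ (by positivity) (by positivity) (by norm_num)).1 h3
  exact le_trans (by exact_mod_cast TXa.c3_le S X) h4

end

section

open Finset

namespace F1a

variable {n : ℕ} {H : Finset (Finset (Fin n))} {T d : ℕ}

lemma cod3 (h3 : IsThreeGraph H) (hF : F1 H T) (hd : T + 3 ≤ d) : Cod3 (hG H d) T := by
  intro u v w huv huw hvw
  have hc : ({u, v, w} : Finset (Fin n)).card = 3 := card_triple_eq_three_iff.2 ⟨huv, huw, hvw⟩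
  by_contra hlt
  refine hF _ hc (rob_of_heavy (d := d) (hc ▸ hd) ((not_le.1 hlt).trans_le (card_le_ct ?_)))
  intro x hx a ha
  simp only [mem_inter, mem_nbr, hG_adj h3 (show 0 < d by omega)] at hx
  simp only [mem_insert, mem_singleton] at ha
  rcases ha with rfl | rfl | rfl
  exacts [hx.1.1, hx.1.2, hx.2]

lemma big_card (h3 : IsThreeGraph H) (hF : F1 H T) (hT : T + 3 ≤ d) {δ : ℝ} (hδ : 0 < δ)
    (hn : 0 < n) : ct (fun z => ⌊δ * n⌋₊ < hd H d z) ≤ ⌈(T + 3) / δ ^ 3⌉₊ := by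
  have h1 := sum_deg_cube (hG H d) T (cod3 h3 hF hT)
  rw [Fintype.card_fin] at h1
  have h2 : ct (fun z => ⌊δ * n⌋₊ < hd H d z) * (⌊δ * n⌋₊ + 1) ^ 3 ≤
      ∑ x, (nbr (hG H d) x).card ^ 3 := by
    refine le_trans ?_ (sum_le_sum_of_subset (subset_univ (st fun z => ⌊δ * n⌋₊ < hd H d z)))
    refine card_nsmul_le_sum _ _ _ fun x hx => Nat.pow_le_pow_left ?_ 3
    have hx' : ⌊δ * n⌋₊ < hd H d x := by simpa using hx
    refine (Nat.succ_le_of_lt hx').trans (ct_le_of_sub fun y hy => ?_)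
    exact mem_nbr.2 ((hG_adj h3 (by omega)).2 hy)
  have h4 : ((ct (fun z => ⌊δ * n⌋₊ < hd H d z) : ℕ) : ℝ) * ((⌊δ * n⌋₊ : ℝ) + 1) ^ 3 ≤
      (T + 3) * (n : ℝ) ^ 3 := by exact_mod_cast h2.trans h1
  have h5 : (δ * n) ^ 3 ≤ ((⌊δ * n⌋₊ : ℝ) + 1) ^ 3 :=
    pow_le_pow_left₀ (by positivity) (Nat.lt_floor_add_one _).le 3
  have hn' : (0 : ℝ) < (n : ℝ) ^ 3 := by positivity
  have h6 : ((ct (fun z => ⌊δ * n⌋₊ < hd H d z) : ℕ) : ℝ) ≤ (T + 3) / δ ^ 3 := by
    rw [le_div_iff₀ (by positivity)]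
    refine le_of_mul_le_mul_right ?_ hn'
    refine le_trans ?_ h4
    rw [mul_assoc, ← mul_pow]
    exact mul_le_mul_of_nonneg_left h5 (Nat.cast_nonneg _)
  exact_mod_cast h6.trans (Nat.le_ceil _)

lemma light_le (Z : Finset (Fin n)) (s : ℕ) (hZ : ∀ z, s < hd H d z → z ∈ Z) :
    c3 (LHH H d) + c3 (LLx H d) ≤ ∑ b, chg H d Z b +
      d * c2 fun a b => ∃ z, LHH H d a b z ∧ hd H d z ≤ s := by
  have h1 : ∑ b, chg H d Z b = c3 (LLx H d) + c3 fun a b z => z ∈ Z ∧ LHH H d a b z := by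
    unfold chg c3
    rw [sum_comm, ← sum_add_distrib]
    exact sum_congr rfl fun a _ => sum_add_distrib
  have h2 : c3 (LHH H d) ≤ c3 (fun a b z => z ∈ Z ∧ LHH H d a b z) +
      c3 fun a b z => LHH H d a b z ∧ hd H d z ≤ s := c3_or fun a b z h => by
    by_cases e : s < hd H d z
    exacts [.inl ⟨hZ z e, h⟩, .inr ⟨h, not_lt.1 e⟩]
  have h4 : c3 (fun a b z => LHH H d a b z ∧ hd H d z ≤ s) ≤
      d * c2 fun a b => ∃ z, LHH H d a b z ∧ hd H d z ≤ s := by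
    refine c3_le_mul (fun x y z h => ⟨z, h⟩) fun x y => ?_
    by_cases e : cd H x y < d
    · exact (ct_le_of_sub fun z hz => hz.1.1).trans e.le
    · rw [ct_eq_zero fun z hz => e hz.1.2.1]
      exact Nat.zero_le _
  omega

lemma heavy_le (h3 : IsThreeGraph H) (Y : Finset (Fin n)) :
    c3 (HHH H d) ≤ c3 (fun x y z => x ∈ Y ∧ y ∈ Y ∧ z ∈ Y ∧ Tri (hG H d) x y z) +
      3 * c3 fun x y z => x ∈ Yᶜ ∧ Tri (hG H d) x y z := by
  set P := fun x y z => x ∈ Yᶜ ∧ Tri (hG H d) x y z with hP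
  have h1 : c3 (HHH H d) ≤ c3 (fun x y z => x ∈ Y ∧ y ∈ Y ∧ z ∈ Y ∧ Tri (hG H d) x y z) +
      c3 fun x y z => P x y z ∨ P y x z ∨ P z y x := c3_or fun x y z h => by
    obtain ⟨a, b, c⟩ := link_ne h3 h.1
    have t : Tri (hG H d) x y z := ⟨⟨a, h.2.1⟩, ⟨b, h.2.2.1⟩, ⟨c, h.2.2.2⟩⟩
    by_cases e1 : x ∈ Y
    · by_cases e2 : y ∈ Y
      · by_cases e3 : z ∈ Y
        · exact .inl ⟨e1, e2, e3, t⟩
        · exact .inr (.inr (.inr ⟨mem_compl.2 e3, t.2.2.symm, t.2.1.symm, t.1.symm⟩))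
      · exact .inr (.inr (.inl ⟨mem_compl.2 e2, t.1.symm, t.2.2, t.2.1⟩))
    · exact .inr (.inl ⟨mem_compl.2 e1, t⟩)
  have h2 : c3 (fun x y z => P x y z ∨ P y x z ∨ P z y x) ≤
      c3 P + c3 fun x y z => P y x z ∨ P z y x := c3_or fun _ _ _ h => h
  have h4 : c3 (fun x y z => P y x z ∨ P z y x) ≤
      c3 (fun x y z => P y x z) + c3 fun x y z => P z y x := c3_or fun _ _ _ h => h
  rw [c3_swap12 P, c3_swap13 P] at h4
  omega

end F1a

open F1a in
theorem p_F1 (hACC1 : S_ACC1) (hRB : S_RB) (hCHG : S_CHG) (hYY : S_YY) (hTX : S_TX) :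
    S_F1 := by
  intro T d ε hε hT
  have hd0 : (0 : ℝ) < d := by exact_mod_cast (show 0 < d by omega)
  obtain ⟨δ, hδ, n1, h1⟩ := hRB T (ε / (6 * d)) (by positivity)
  obtain ⟨n2, h2⟩ := hCHG T d ⌈(T + 3) / δ ^ 3⌉₊ (ε / 18) (by positivity) hT
  obtain ⟨K, hK⟩ := hYY T d ⌈(T + 3) / δ ^ 3⌉₊ (ε / 18) (by positivity) hT
  obtain ⟨n3, h4⟩ := hTX T K (ε / 18) (by positivity)
  refine ⟨n1 + n2 + n3 + 1, fun n hn H h3 hF => ?_⟩
  have hZ := big_card h3 hF hT hδ (show 0 < n by omega)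
  obtain ⟨Y, y1, y2⟩ := hK n H _ h3 hF hZ
  refine ⟨Y, ?_⟩
  have a1 := h1 n (by omega) d ⌊δ * n⌋₊ H h3 hF (Nat.floor_le (by positivity))
  have a2 := h2 n (by omega) H _ Yᶜ h3 hF hZ
  have a3 := h4 n (by omega) _ _ (cod3 h3 hF hT) y2
  have a4 := light_le (H := H) (d := d) (st fun z => ⌊δ * n⌋₊ < hd H d z) ⌊δ * n⌋₊
    fun z hz => mem_st.2 hz
  rw [← sum_add_sum_compl Y] at a4
  have a5 := heavy_le (d := d) h3 Y
  have a6 := hACC1 n d H h3
  have a7 : ((Yᶜ).card : ℝ) = n - Y.card := by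
    have := card_add_card_compl Y
    rw [Fintype.card_fin] at this
    rw [eq_sub_iff_add_eq, add_comm]
    exact_mod_cast this
  have a8 := mul_le_mul_of_nonneg_left a1 hd0.le
  have a9 : (d : ℝ) * (ε / (6 * d) * (n : ℝ) ^ 2) = ε / 6 * (n : ℝ) ^ 2 := by field_simp
  rw [a7] at a2
  rw [a9] at a8
  have b4 := (Nat.cast_le (α := ℝ)).2 a4
  have b5 := (Nat.cast_le (α := ℝ)).2 a5
  have b6 := (Nat.cast_le (α := ℝ)).2 a6
  simp only [Nat.cast_add, Nat.cast_mul, Nat.cast_ofNat] at b4 b5 b6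
  linarith

end

end Pool.Agent.P.MP_e3cf1a_co.X
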