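import Pool.Agent.P.MP_e3cf1a_co.Sh.Iface

/-! Steps TRA, TRB, TRI, SH1, RESTR. -/

namespace Pool.Agent.P.MP_e3cf1a_co.X

section

open Finset

namespace TRAa

variable {n : ℕ} (S : SimpleGraph (Fin n)) (D s : ℕ)

open Classical in
/-- common neighbours of small degree -/
noncomputable def mm (u v w : Fin n) : ℕ :=
  ((univ.filter (fun a => (nbr S a).card ≤ s)).filter
    (fun a => S.Adj a u ∧ S.Adj a v ∧ S.Adj a w)).card

/-- the same count on bad pairs -/
noncomputable def bb (u v w : Fin n) : ℕ :=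
  if u = v ∨ (nbr S u ∩ nbr S v).card ≤ D then mm S s u v w else 0

lemma sum_mm (u v : Fin n) : ∑ w, mm S s u v w ≤ s * (nbr S u ∩ nbr S v).card := by
  classical
  simp only [mm, card_filter]
  rw [sum_comm, mul_comm, ← smul_eq_mul, ← sum_const,
    ← sum_filter_add_sum_filter_not _ (fun a => a ∈ nbr S u ∩ nbr S v)]
  rw [sum_eq_zero (s := filter (fun a => ¬ a ∈ nbr S u ∩ nbr S v) _), add_zero]
  · refine le_trans (sum_le_sum (g := fun _ => s) fun a ha => ?_)
      (sum_le_sum_of_subset fun a ha => (mem_filter.1 ha).2)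
    refine le_trans ?_ (mem_filter.1 (mem_filter.1 ha).1).2
    rw [← card_filter]
    exact card_le_card fun w hw => mem_nbr.2 (mem_filter.1 hw).2.2.2
  · intro a ha
    refine sum_eq_zero fun w _ => if_neg fun h => (mem_filter.1 ha).2 ?_
    exact mem_inter.2 ⟨mem_nbr.2 h.1.symm, mem_nbr.2 h.2.1.symm⟩

lemma sum_bb : ∑ u, ∑ v, ∑ w, bb S D s u v w ≤ (D + 1) * s * n ^ 2 := by
  have h : ∀ u v, ∑ w, bb S D s u v w ≤ s * D + if u = v then s * n else 0 := by
    intro u v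
    have h1 := sum_mm S s u v
    unfold bb
    by_cases e : u = v
    · simp only [e, true_or, if_true] at h1 ⊢
      refine le_trans h1 (le_trans (Nat.mul_le_mul_left _ ?_) (Nat.le_add_left _ _))
      simpa using card_le_univ (nbr S v ∩ nbr S v)
    · by_cases e' : (nbr S u ∩ nbr S v).card ≤ D
      · simp only [e, e', or_true, if_true, if_false, add_zero]
        exact le_trans h1 (Nat.mul_le_mul_left _ e')
      · simp [e, e']
  refine le_trans (sum_le_sum fun u _ => sum_le_sum fun v _ => h u v) (le_of_eq ?_)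
  simp [sum_add_distrib]
  ring

lemma mm_le (k : ℕ) (h : Cod3h S D k) (u v w : Fin n) :
    mm S s u v w ≤ k + (bb S D s u v w + bb S D s u w v + bb S D s v w u) := by
  classical
  have e1 : mm S s u w v = mm S s u v w := by
    unfold mm; congr 2; ext a; tauto
  have e2 : mm S s v w u = mm S s u v w := by
    unfold mm; congr 2; ext a; tauto
  unfold bb
  rw [e1, e2]
  split_ifs <;> try omega
  rename_i h1 h2 h3
  push Not at h1 h2 h3
  refine le_trans (card_le_card fun a ha => ?_)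
    (le_trans (h u v w h1.1 h2.1 h3.1 h1.2 h2.2 h3.2) (Nat.le_add_right _ _))
  obtain ⟨a1, a2, a3⟩ := (mem_filter.1 ha).2
  exact mem_inter.2 ⟨mem_inter.2 ⟨mem_nbr.2 a1.symm, mem_nbr.2 a2.symm⟩, mem_nbr.2 a3.symm⟩

end TRAa

theorem p_TRA :
    S_TRA := by
  classical
  intro n D k s S _ h2
  have h1 := sum_card_filter_cube (fun x y => S.Adj x y)
    (univ.filter (fun a => (nbr S a).card ≤ s)) (univ : Finset (Fin n))
  have h3 : ∑ v ∈ univ.filter (fun v => (nbr S v).card ≤ s), (nbr S v).card ^ 3 =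
      ∑ u, ∑ v, ∑ w, TRAa.mm S s u v w := by
    refine Eq.trans (sum_congr rfl fun x _ => ?_) (h1.trans ?_)
    · congr 2
    · unfold TRAa.mm; congr!
  have b1 := TRAa.sum_bb S D s
  have b2 : ∑ u, ∑ v, ∑ w, TRAa.bb S D s u w v ≤ (D + 1) * s * n ^ 2 :=
    le_trans (le_of_eq (sum_congr rfl fun u _ => sum_comm)) b1
  have b3 : ∑ u, ∑ v, ∑ w, TRAa.bb S D s v w u ≤ (D + 1) * s * n ^ 2 := by
    rw [sum_comm]
    exact le_trans (le_of_eq (sum_congr rfl fun u _ => sum_comm)) b1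
  rw [h3]
  refine le_trans (sum_le_sum fun u _ => sum_le_sum fun v _ => sum_le_sum fun w _ =>
    TRAa.mm_le S D s k h2 u v w) ?_
  simp only [sum_add_distrib, sum_const, card_univ, Fintype.card_fin, smul_eq_mul]
  nlinarith

end

section

open Finset

theorem p_TRB :
    S_TRB := by
  classical
  intro n D k S v _ h2
  set N := nbr S v with hN
  set N2 := N.filter (fun y => D < (nbr S v ∩ nbr S y).card) with hN2
  have e1 : c2 (fun x y => Tri S v x y ∧ D < (nbr S v ∩ nbr S y).card) =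
      ∑ x ∈ N, (N2.filter (fun y => S.Adj x y)).card := by
    unfold c2
    rw [← sum_subset (subset_univ N) fun x _ hx => ct_eq_zero fun y hy => hx (mem_nbr.2 hy.1.1)]
    refine sum_congr rfl fun x hx => ?_
    unfold ct
    congr 1
    ext y
    simp only [mem_st, Tri, hN2, hN, mem_filter, mem_nbr, mem_nbr.1 hx, true_and]
    tauto
  have e2 : ∑ y ∈ N, (N.filter (fun a => S.Adj a y)).card ≤ c2 (Tri S v) := by
    rw [← c2_swap]
    refine le_trans (sum_le_sum fun y hy => ?_) (sum_le_sum_of_subset (subset_univ N))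
    exact card_le_ct fun x hx =>
      ⟨mem_nbr.1 (mem_filter.1 hx).1, mem_nbr.1 hy, (mem_filter.1 hx).2⟩
  let E : Fin n → Fin n → Prop := fun y y' => S.Adj v y ∧ S.Adj v y' ∧ y ≠ y' ∧
    (nbr S y ∩ nbr S y').card ≤ D
  have e3 : ∀ y ∈ N2, ∀ y' ∈ N2, (N.filter (fun a => S.Adj a y ∧ S.Adj a y')).card ≤
      k + D * (if E y y' then 1 else 0) +
        if y = y' then (N.filter (fun a => S.Adj a y)).card else 0 := by
    intro y hy y' hy'
    obtain ⟨a1, a2⟩ := mem_filter.1 hy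
    obtain ⟨a3, a4⟩ := mem_filter.1 hy'
    by_cases e : y = y'
    · subst e; simp
    rw [if_neg e, add_zero]
    by_cases e' : (nbr S y ∩ nbr S y').card ≤ D
    · rw [if_pos ⟨mem_nbr.1 a1, mem_nbr.1 a3, e, e'⟩, mul_one]
      refine le_trans (card_le_card fun a ha => ?_) (le_trans e' (Nat.le_add_left _ _))
      exact mem_inter.2 ⟨mem_nbr.2 (mem_filter.1 ha).2.1.symm, mem_nbr.2 (mem_filter.1 ha).2.2.symm⟩
    · refine le_trans (card_le_card fun a ha => ?_) (le_trans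
        (h2 v y y' (mem_nbr.1 a1).ne (mem_nbr.1 a3).ne e a2 a4 (not_le.1 e')) (Nat.le_add_right _ _))
      obtain ⟨b1, b2, b3⟩ := mem_filter.1 ha
      exact mem_inter.2 ⟨mem_inter.2 ⟨b1, mem_nbr.2 b2.symm⟩, mem_nbr.2 b3.symm⟩
  have e4 : ∑ y ∈ N2, ∑ y' ∈ N2, (if E y y' then 1 else 0) ≤ c2 E := by
    refine le_trans (sum_le_sum fun y _ => ?_) (sum_le_sum_of_subset (subset_univ N2))
    rw [← card_filter]
    exact card_le_ct fun x hx => (mem_filter.1 hx).2
  have e5 : N2.card ≤ N.card := card_filter_le _ _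
  rw [e1]
  refine le_trans sq_sum_le_card_mul_sum_sq (Nat.mul_le_mul_left _ ?_)
  rw [sum_card_filter_sq (fun x y => S.Adj x y) N N2]
  refine le_trans (sum_le_sum fun y hy => sum_le_sum fun y' hy' => e3 y hy y' hy') ?_
  simp only [sum_add_distrib, ← mul_sum, sum_const, smul_eq_mul, sum_ite_eq]
  refine add_le_add (add_le_add ?_ (Nat.mul_le_mul_left _ e4)) (le_trans ?_ e2)
  · calc _ ≤ N.card * (N.card * k) := by gcongr
      _ = _ := by ring
  · refine le_trans (sum_le_sum fun y hy => le_of_eq (if_pos hy)) ?_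
    exact sum_le_sum_of_subset (filter_subset _ _)

end

section

open Finset

namespace TRIa

variable {n : ℕ} (S : SimpleGraph (Fin n))

lemma tri_eq (v : Fin n) : c2 (Tri S v) = ∑ y ∈ nbr S v, (nbr S v ∩ nbr S y).card := by
  classical
  unfold c2
  rw [← sum_subset (subset_univ (nbr S v)) fun x _ hx =>
    ct_eq_zero fun y hy => hx (mem_nbr.2 hy.1)]
  refine sum_congr rfl fun x hx => ?_
  unfold ct
  congr 1
  ext y
  simp only [mem_st, Tri, mem_inter, mem_nbr, mem_nbr.1 hx, true_and]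

lemma tri_le (D : ℕ) (v : Fin n) : c2 (Tri S v) ≤
    c2 (fun x y => Tri S v x y ∧ D < (nbr S v ∩ nbr S y).card) + D * (nbr S v).card := by
  classical
  refine le_trans (c2_or (G := fun x y => Tri S v x y ∧ (nbr S v ∩ nbr S y).card ≤ D)
    fun x y h => (lt_or_ge D _).imp (fun a => ⟨h, a⟩) fun a => ⟨h, a⟩) (Nat.add_le_add_left ?_ _)
  rw [← c2_swap]
  unfold c2
  rw [← sum_subset (subset_univ (nbr S v)) fun y _ hy =>
    ct_eq_zero fun x hx => hy (mem_nbr.2 hx.1.2.1), mul_comm]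
  refine sum_le_card_nsmul _ _ _ fun y _ => ?_
  by_cases h : (nbr S v ∩ nbr S y).card ≤ D
  · exact le_trans (ct_le_of_sub fun x hx =>
      mem_inter.2 ⟨mem_nbr.2 hx.1.1, mem_nbr.2 hx.1.2.2.symm⟩) h
  · rw [ct_eq_zero fun x hx => h hx.2]; exact Nat.zero_le _

lemma lt_le (D : ℕ) : ∑ v, c2 (fun y y' => S.Adj v y ∧ S.Adj v y' ∧ y ≠ y' ∧
    (nbr S y ∩ nbr S y').card ≤ D) ≤ D * n ^ 2 := by
  have h1 := c3_rot (fun y y' v => S.Adj v y ∧ S.Adj v y' ∧ y ≠ y' ∧
    (nbr S y ∩ nbr S y').card ≤ D)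
  have h2 := c3_le_mul (F := fun y y' v => S.Adj v y ∧ S.Adj v y' ∧ y ≠ y' ∧
    (nbr S y ∩ nbr S y').card ≤ D) (E := fun _ _ => True) (m := D) (fun _ _ _ _ => trivial)
    fun y y' => by
      by_cases h : (nbr S y ∩ nbr S y').card ≤ D
      · exact le_trans (ct_le_of_sub fun x hx =>
          mem_inter.2 ⟨mem_nbr.2 hx.1.symm, mem_nbr.2 hx.2.1.symm⟩) h
      · rw [ct_eq_zero fun x hx => h hx.2.2.2]; exact Nat.zero_le _
  have h3 := c2_le_mul (E := fun _ _ : Fin n => True) fun x => ct_le_card _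
  rw [Fintype.card_fin] at h3
  rw [← h1] at h2
  exact le_trans h2 (Nat.mul_le_mul_left _ (by rwa [sq]))

lemma small (hTRA : S_TRA) (hTRB : S_TRB) (D k s : ℕ) (h1 : Cod3 S D) (h2 : Cod3h S D k) :
    (∑ v ∈ univ.filter (fun v => (nbr S v).card ≤ s),
      c2 (fun x y => Tri S v x y ∧ D < (nbr S v ∩ nbr S y).card)) ^ 2 ≤
      k ^ 2 * n ^ 4 + (3 * k * (D + 1) + D ^ 2 + D + 3) * s * n ^ 3 := by
  have a1 := hTRA n D k s S h1 h2
  have a2 := lt_le S D
  have a3 := triangles_le S D h1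
  simp only [← tri_eq, Fintype.card_fin] at a3
  set W := univ.filter (fun v => (nbr S v).card ≤ s) with hW
  have a4 : W.card ≤ n := by simpa using card_le_univ W
  refine le_trans sq_sum_le_card_mul_sum_sq ?_
  have a5 : ∑ v ∈ W, c2 (fun x y => Tri S v x y ∧ D < (nbr S v ∩ nbr S y).card) ^ 2 ≤
      ∑ v ∈ W, (k * (nbr S v).card ^ 3 + s * D * c2 (fun y y' => S.Adj v y ∧ S.Adj v y' ∧ y ≠ y' ∧
        (nbr S y ∩ nbr S y').card ≤ D) + s * c2 (Tri S v)) := by
    refine sum_le_sum fun v hv => le_trans (hTRB n D k S v h1 h2) ?_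
    have hv' : (nbr S v).card ≤ s := (mem_filter.1 hv).2
    rw [mul_add, mul_add, ← mul_assoc _ D]
    exact add_le_add (add_le_add (le_of_eq (by ring)) (by gcongr)) (by gcongr)
  rw [sum_add_distrib, sum_add_distrib, ← mul_sum, ← mul_sum, ← mul_sum] at a5
  have a6 := le_trans (sum_le_sum_of_subset (subset_univ W)) a2
  have a7 := le_trans (sum_le_sum_of_subset (subset_univ W)) a3
  calc _ ≤ n * (k * (k * n ^ 3 + 3 * (D + 1) * s * n ^ 2) + s * D * (D * n ^ 2) +
        s * ((D + 3) * n ^ 2)) := by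
        refine Nat.mul_le_mul a4 (le_trans a5 ?_)
        gcongr
    _ = _ := by ring

lemma big (D s : ℕ) (h1 : Cod3 S D) :
    (∑ v ∈ univ.filter (fun v => ¬ (nbr S v).card ≤ s), c2 (Tri S v)) ^ 2 * s ^ 3 ≤
      (D + 1) * (D + 3) ^ 2 * n ^ 6 := by
  have a1 := sum_deg_cube S D h1
  rw [Fintype.card_fin] at a1
  set W := univ.filter (fun v => ¬ (nbr S v).card ≤ s) with hW
  have a2 := le_trans (sum_le_sum_of_subset (subset_univ W)) a1
  have a3 : W.card * s ^ 3 ≤ (D + 3) * n ^ 3 :=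
    le_trans (card_nsmul_le_sum W (fun v => (nbr S v).card ^ 3) _ fun v hv =>
      Nat.pow_le_pow_left (not_le.1 (mem_filter.1 hv).2).le 3) a2
  have a4 : ∑ v ∈ W, c2 (Tri S v) ^ 2 ≤ (D + 1) * ((D + 3) * n ^ 3) := by
    refine le_trans ?_ (Nat.mul_le_mul_left _ a2)
    rw [mul_sum]
    exact sum_le_sum fun v _ => by rw [tri_eq]; exact local_bound S D h1 v
  calc _ ≤ (W.card * ((D + 1) * ((D + 3) * n ^ 3))) * s ^ 3 :=
        Nat.mul_le_mul_right _ (le_trans sq_sum_le_card_mul_sum_sq (Nat.mul_le_mul_left _ a4))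
    _ = (W.card * s ^ 3) * ((D + 1) * ((D + 3) * n ^ 3)) := by ring
    _ ≤ ((D + 3) * n ^ 3) * ((D + 1) * ((D + 3) * n ^ 3)) := Nat.mul_le_mul_right _ a3
    _ = _ := by ring

lemma split (D s : ℕ) : c3 (Tri S) ≤ ∑ v ∈ univ.filter (fun v => (nbr S v).card ≤ s),
      c2 (fun x y => Tri S v x y ∧ D < (nbr S v ∩ nbr S y).card) + D * s * n +
      ∑ v ∈ univ.filter (fun v => ¬ (nbr S v).card ≤ s), c2 (Tri S v) := by
  change ∑ v, c2 (Tri S v) ≤ _
  rw [← sum_filter_add_sum_filter_not univ (fun v => (nbr S v).card ≤ s)]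
  refine Nat.add_le_add_right ?_ _
  refine le_trans (sum_le_sum fun v hv => le_trans (tri_le S D v) (Nat.add_le_add_left
    (Nat.mul_le_mul_left D (mem_filter.1 hv).2) _)) ?_
  rw [sum_add_distrib, sum_const, smul_eq_mul, mul_comm _ (D * s)]
  gcongr
  simpa using card_le_univ (univ.filter (fun v => (nbr S v).card ≤ s))

end TRIa

theorem p_TRI (hTRA : S_TRA) (hTRB : S_TRB) :
    S_TRI := by
  intro D k ε hε
  set C : ℝ := 3 * k * (D + 1) + D ^ 2 + D + 3 with hC
  have hC0 : 0 < C := by positivity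
  obtain ⟨δ, hδ, d1, d2⟩ : ∃ δ : ℝ, 0 < δ ∧ C * δ ≤ ε ^ 2 / 9 ∧ D * δ ≤ ε / 3 := by
    refine ⟨min (ε ^ 2 / 9 / C) (ε / 3 / (D + 1)), by positivity, ?_, ?_⟩
    · rw [mul_comm, ← le_div_iff₀ hC0]; exact min_le_left _ _
    · have : min (ε ^ 2 / 9 / C) (ε / 3 / (D + 1)) * (D + 1) ≤ ε / 3 := by
        rw [← le_div_iff₀ (by positivity)]; exact min_le_right _ _
      have h0 : 0 < min (ε ^ 2 / 9 / C) (ε / 3 / (D + 1)) := by positivity
      nlinarith
  obtain ⟨n0, hn0⟩ := exists_nat_ge (max (2 / δ) (72 * ((D + 1) * (D + 3) ^ 2) / (δ ^ 3 * ε ^ 2)))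
  refine ⟨n0, fun n hn S h1 h2 => ?_⟩
  have hn' : (n0 : ℝ) ≤ n := by exact_mod_cast hn
  have n1 : 2 ≤ n * δ := by
    rw [← div_le_iff₀ hδ]; exact le_trans (le_trans (le_max_left _ _) hn0) hn'
  have n2 : 72 * ((D + 1) * (D + 3) ^ 2) ≤ n * (δ ^ 3 * ε ^ 2) := by
    rw [← div_le_iff₀ (by positivity)]; exact le_trans (le_trans (le_max_right _ _) hn0) hn'
  have s1 : (⌊n * δ⌋₊ : ℝ) ≤ n * δ := Nat.floor_le (by positivity)
  have s2 : n * δ / 2 ≤ (⌊n * δ⌋₊ : ℝ) := by have := Nat.lt_floor_add_one (n * δ); linarith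
  generalize ⌊n * δ⌋₊ = s at s1 s2
  have a1 := TRIa.small S hTRA hTRB D k s h1 h2
  have a2 := TRIa.big S D s h1
  have a3 := TRIa.split S D s
  generalize ∑ v ∈ univ.filter (fun v => (nbr S v).card ≤ s),
      c2 (fun x y => Tri S v x y ∧ D < (nbr S v ∩ nbr S y).card) = a at a1 a3
  generalize ∑ v ∈ univ.filter (fun v => ¬ (nbr S v).card ≤ s), c2 (Tri S v) = b at a2 a3
  have b1 : (a : ℝ) ^ 2 ≤ k ^ 2 * n ^ 4 + C * s * n ^ 3 := by rw [hC]; exact_mod_cast a1
  have b2 : (b : ℝ) ^ 2 * s ^ 3 ≤ (D + 1) * (D + 3) ^ 2 * n ^ 6 := by exact_mod_cast a2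
  have b3 : (c3 (Tri S) : ℝ) ≤ a + D * s * n + b := by exact_mod_cast a3
  have hn0' : (0 : ℝ) < n := by
    by_contra h
    have : (n : ℝ) = 0 := le_antisymm (not_lt.1 h) (Nat.cast_nonneg n)
    rw [this] at n1; linarith
  have c1 : (a : ℝ) ≤ (k + ε / 3) * n ^ 2 := by
    refine le_of_sq_le_sq ?_ (by positivity)
    have e1 : C * s * n ^ 3 ≤ ε ^ 2 / 9 * n ^ 4 :=
      calc C * s * n ^ 3 ≤ C * (n * δ) * n ^ 3 := by gcongr
        _ = C * δ * n ^ 4 := by ring
        _ ≤ _ := by gcongr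
    have e2 : 0 ≤ (k : ℝ) * ε * n ^ 4 := by positivity
    nlinarith
  have c2' : (D : ℝ) * s * n ≤ ε / 3 * n ^ 2 :=
    calc (D : ℝ) * s * n ≤ D * (n * δ) * n := by gcongr
      _ = D * δ * n ^ 2 := by ring
      _ ≤ _ := by gcongr
  have c3' : (b : ℝ) ≤ ε / 3 * n ^ 2 := by
    refine le_of_sq_le_sq ?_ (by positivity)
    refine le_of_mul_le_mul_right (a := (n * δ / 2) ^ 3) ?_ (by positivity)
    calc (b : ℝ) ^ 2 * (n * δ / 2) ^ 3 ≤ (b : ℝ) ^ 2 * (s : ℝ) ^ 3 := by gcongr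
      _ ≤ ((D : ℝ) + 1) * (D + 3) ^ 2 * n ^ 6 := b2
      _ ≤ (n * (δ ^ 3 * ε ^ 2) / 72) * (n : ℝ) ^ 6 := by gcongr; linarith
      _ = _ := by ring
  linarith

end

section

open Finset

namespace SH1a

lemma full_le {V U : Type} [Fintype V] [DecidableEq V] {G : SimpleGraph V} {m : ℕ}
    (hK : (completeBipartiteGraph (Fin 3) (Fin (m + 1))).Free G) {I F : Finset V} (g : V → U)
    (hg : Set.InjOn g I) (a : Fin 3 → U) (ha : Function.Injective a) (hF : ∀ x ∈ F, x ∉ I)
    (h : ∀ x ∈ F, ∀ i, ∃ y ∈ I, G.Adj x y ∧ g y = a i) : F.card ≤ m := by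
  by_contra hc
  obtain ⟨e, he⟩ := Function.Embedding.exists_of_card_le_finset (α := Fin (m + 1)) (s := F)
    (by rw [Fintype.card_fin]; omega)
  have heF : ∀ j, e j ∈ F := fun j => he ⟨j, rfl⟩
  choose y y1 y2 y3 using h (e 0) (heF 0)
  have hadj : ∀ i j, G.Adj (y i) (e j) := fun i j => by
    obtain ⟨z, z1, z2, z3⟩ := h (e j) (heF j) i
    rw [hg (y1 i) z1 ((y3 i).trans z3.symm)]
    exact z2.symm
  refine hK ⟨⟨⟨Sum.elim y e, ?_⟩, ?_⟩⟩
  · rintro (i | j) (i' | j') hh <;> simp at hh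
    exacts [hadj i j', (hadj i' j).symm]
  · rintro (i | j) (i' | j') hh
    · exact congrArg _ (ha (by rw [← y3, ← y3]; exact congrArg g hh))
    · exact absurd ((show y i = e j' from hh) ▸ y1 i) (hF _ (heF j'))
    · exact absurd ((show y i' = e j from hh.symm) ▸ y1 i') (hF _ (heF j))
    · exact congrArg _ (e.injective hh)

end SH1a

open SH1a in
theorem p_SH1 :
    S_SH1 := by
  classical
  rintro V _ _ G n m S ⟨I, hI, hb⟩ hS hK
  have hind : ∀ x ∈ I, ∀ y ∈ I, ¬ G.Adj x y := fun x hx y hy h => (hb x y h).1 hx hy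
  have hAB : ∀ u v w : Fin n, ∀ a ∈ ({u, v, w} : Finset (Fin n)),
      ∀ b ∈ nbr S u ∩ nbr S v ∩ nbr S w, S.Adj a b := by
    intro u v w a ha b hb
    simp only [mem_inter, mem_nbr] at hb
    simp only [mem_insert, mem_singleton] at ha
    rcases ha with rfl | rfl | rfl
    exacts [hb.1.1, hb.1.2, hb.2]
  refine ⟨fun u v w huv huw hvw => ?_, fun u v w huv huw hvw c1 c2 c3 => ?_⟩
  · by_contra hc
    obtain ⟨ψ, hψ⟩ := embed_of G S I ∅ {u, v, w} (nbr S u ∩ nbr S v ∩ nbr S w)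
      (by rwa [card_triple_eq_three_iff.mpr ⟨huv, huw, hvw⟩]) (hAB u v w) (by omega)
      (fun _ => u) (by simp) (by simp) hind fun x y h hx hy => absurd ((hb x y h).2 hy) hx
    exact hS ⟨⟨⟨ψ, hψ _ _⟩, ψ.injective⟩⟩
  by_contra hc
  obtain ⟨g0, hg0⟩ := Function.Embedding.exists_of_card_le_finset (α := I)
    (s := ({u, v, w} : Finset (Fin n)))
    (by rwa [card_triple_eq_three_iff.mpr ⟨huv, huw, hvw⟩, Fintype.card_coe])
  obtain ⟨g, hg⟩ : ∃ g : V → Fin n, ∀ x (hx : x ∈ I), g x = g0 ⟨x, hx⟩ :=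
    ⟨fun x => if hx : x ∈ I then g0 ⟨x, hx⟩ else u, fun x hx => dif_pos hx⟩
  have gi : Set.InjOn g I := fun x hx y hy e => by
    rw [hg x hx, hg y hy] at e
    exact congrArg Subtype.val (g0.injective e)
  have gA : ∀ x ∈ I, g x ∈ ({u, v, w} : Finset (Fin n)) := fun x hx => hg x hx ▸ hg0 ⟨_, rfl⟩
  obtain ⟨N, hN⟩ : ∃ N : V → Fin n → Prop, ∀ x a, N x a ↔ ∃ y ∈ I, G.Adj x y ∧ g y = a :=
    ⟨_, fun _ _ => Iff.rfl⟩
  obtain ⟨F, hF⟩ : ∃ F : Finset V, ∀ x, x ∈ F ↔ N x u ∧ N x v ∧ N x w :=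
    ⟨univ.filter fun x => N x u ∧ N x v ∧ N x w, by simp⟩
  have hFm : F.card ≤ m := by
    refine full_le hK g gi ![u, v, w] ?_ (fun x hx hxI => ?_) fun x hx i => ?_
    · intro i j e
      fin_cases i <;> fin_cases j <;> first
        | rfl | exact absurd e huv | exact absurd e huw | exact absurd e hvw
        | exact absurd e.symm huv | exact absurd e.symm huw | exact absurd e.symm hvw
    · obtain ⟨y, y1, y2, -⟩ := (hN x u).1 ((hF x).1 hx).1
      exact hind x hxI y y1 y2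
    · obtain ⟨a, b, c⟩ := (hF x).1 hx
      fin_cases i
      exacts [(hN _ _).1 a, (hN _ _).1 b, (hN _ _).1 c]
  obtain ⟨t, ht⟩ : ∃ t : V → Finset (Fin n), ∀ x b, b ∈ t x ↔
      b ∉ ({u, v, w} : Finset (Fin n)) ∧ ∀ a, N x a → S.Adj a b :=
    ⟨fun x => univ.filter fun b => b ∉ ({u, v, w} : Finset (Fin n)) ∧ ∀ a, N x a → S.Adj a b,
      by simp⟩
  have NA : ∀ x a, N x a → a ∈ ({u, v, w} : Finset (Fin n)) := fun x a h => by
    obtain ⟨y, y1, -, rfl⟩ := (hN x a).1 h
    exact gA y y1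
  have two : ∀ x (a b c : Fin n), ({u, v, w} : Finset (Fin n)) = {a, b, c} → ¬ N x c →
      2 * Fintype.card V < (nbr S a ∩ nbr S b).card → Fintype.card V ≤ (t x).card := by
    intro x a b c e hn hl
    have h1 : (nbr S a ∩ nbr S b).erase c ⊆ t x := by
      intro z hz
      simp only [mem_erase, mem_inter, mem_nbr] at hz
      refine (ht x z).2 ⟨?_, fun p hp => ?_⟩
      · rw [e]
        simp only [mem_insert, mem_singleton, not_or]
        exact ⟨hz.2.1.ne', hz.2.2.ne', hz.1⟩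
      · have := NA x p hp
        rw [e] at this
        simp only [mem_insert, mem_singleton] at this
        rcases this with rfl | rfl | rfl
        exacts [hz.2.1, hz.2.2, absurd hp hn]
    have h2 := card_le_card h1
    have h3 := pred_card_le_card_erase (s := nbr S a ∩ nbr S b) (a := c)
    omega
  obtain ⟨f, f1, f2⟩ := sdr_rank t (fun x => if x ∈ F then F.card else Fintype.card V)
    (fun x => by
      split_ifs with hx
      · refine le_trans (by omega) (card_le_card (s := nbr S u ∩ nbr S v ∩ nbr S w) fun z hz =>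
          (ht x z).2 ⟨fun a => (hAB u v w z a z hz).ne rfl, fun p hp => hAB u v w p (NA x p hp) z hz⟩)
      · rw [hF, not_and_or, not_and_or] at hx
        rcases hx with h | h | h
        · exact two x v w u (by ext; simp only [mem_insert, mem_singleton]; tauto) h c3
        · exact two x u w v (by ext; simp only [mem_insert, mem_singleton]; tauto) h c2
        · exact two x u v w rfl h c1)
    (fun x => by
      split_ifs with hx
      · by_cases h : Fintype.card V ≤ F.card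
        · exact (card_le_univ _).trans h
        · refine card_le_card fun y hy => ?_
          have := (mem_filter.1 hy).2
          by_contra hn
          rw [if_neg hn] at this
          exact h this
      · exact card_le_univ _)
  have adj : ∀ x y, G.Adj x y → x ∉ I → y ∈ I → S.Adj (g y) (f x) := fun x y h _ hy =>
    ((ht x _).1 (f2 x)).2 _ ((hN x _).2 ⟨y, hy, h, rfl⟩)
  refine hS ⟨⟨⟨fun x => if x ∈ I then g x else f x, fun {x y} h => ?_⟩, fun x y e => ?_⟩⟩
  · by_cases hx : x ∈ I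
    · have hy := (hb x y h).1 hx
      simp only [if_pos hx, if_neg hy]
      exact adj y x h.symm hy hx
    · have hy : y ∈ I := by_contra fun a => hx ((hb x y h).2 a)
      simp only [if_neg hx, if_pos hy]
      exact (adj x y h hx hy).symm
  · change (if x ∈ I then g x else f x) = (if y ∈ I then g y else f y) at e
    by_cases hx : x ∈ I <;> by_cases hy : y ∈ I
    · rw [if_pos hx, if_pos hy] at e
      exact gi hx hy e
    · rw [if_pos hx, if_neg hy] at e
      exact absurd (e ▸ gA x hx) ((ht y _).1 (f2 y)).1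
    · rw [if_neg hx, if_pos hy] at e
      exact absurd (e ▸ gA y hy) ((ht x _).1 (f2 x)).1
    · rw [if_neg hx, if_neg hy] at e
      exact f1 e

end

section

open Finset

namespace RESTRa

lemma copy {V U : Type*} [Fintype V] [DecidableEq V] [Fintype U] [DecidableEq U]
    (G : SimpleGraph V) {H : Finset (Finset U)} {d : ℕ}
    (hd : Fintype.card V + Fintype.card (Sym2 V) ≤ d) (ψ : V ↪ U)
    (hψ : ∀ x y, G.Adj x y → d ≤ cd H (ψ x) (ψ y)) : ContainsCopy H (expansion G) := by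
  classical
  let l : Sym2 V → Finset U := Sym2.lift ⟨fun x y => link2 H (ψ x) (ψ y), fun _ _ => link_comm _ _ _⟩
  obtain ⟨f, hf, hft⟩ := exists_sdr (fun e : G.edgeSet => l e \ univ.map ψ) (by
    rintro ⟨e, he⟩
    induction e using Sym2.ind with
    | _ x y =>
    have h1 : d ≤ (link2 H (ψ x) (ψ y)).card := hψ x y he
    have h4 := le_card_sdiff (univ.map ψ) (link2 H (ψ x) (ψ y))
    have h6 : Fintype.card G.edgeSet ≤ Fintype.card (Sym2 V) :=
      Fintype.card_le_of_injective _ Subtype.val_injective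
    rw [card_map, card_univ] at h4
    change _ ≤ (link2 H (ψ x) (ψ y) \ univ.map ψ).card
    omega)
  refine ⟨⟨Sum.elim ψ f, ψ.injective.sumElim hf fun a b h =>
    (mem_sdiff.1 (hft b)).2 (h ▸ mem_map_of_mem _ (mem_univ a))⟩, ?_⟩
  rintro e ⟨x, y, h, rfl⟩
  simpa using mem_link2.1 (mem_sdiff.1 (hft ⟨s(x, y), h⟩)).1

lemma tri (hSIX : S_SIX) {n : ℕ} (S : SimpleGraph (Fin n)) :
    c3 (Tri S) = 6 * (S.cliqueSet 3).ncard := by
  classical
  rw [← SimpleGraph.coe_cliqueFinset, Set.ncard_coe_finset, ← hSIX n _ fun e he =>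
    (SimpleGraph.mem_cliqueFinset_iff.1 he).card_eq]
  simp only [mem_link2, SimpleGraph.mem_cliqueFinset_iff, SimpleGraph.is3Clique_triple_iff]
  rfl

lemma res {n : ℕ} (S : SimpleGraph (Fin n)) (Y : Finset (Fin n)) :
    c3 (Tri (S.comap (Y.orderEmbOfFin rfl))) =
      c3 (fun x y z => x ∈ Y ∧ y ∈ Y ∧ z ∈ Y ∧ Tri S x y z) := by
  classical
  have i := (Y.orderEmbOfFin rfl).injective
  have r : ∀ x, x ∉ Set.range (Y.orderEmbOfFin rfl) → x ∉ Y := fun x hx => by simpa using hx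
  simp only [c3, ct_eq_sum]
  refine Fintype.sum_of_injective _ i _ _ (fun x hx => by simp [r x hx]) fun a => ?_
  refine Fintype.sum_of_injective _ i _ _ (fun x hx => by simp [r x hx]) fun b => ?_
  refine Fintype.sum_of_injective _ i _ _ (fun x hx => by simp [r x hx]) fun c => ?_
  simp only [orderEmbOfFin_mem, true_and]
  rfl

end RESTRa

theorem p_RESTR (hSIX : S_SIX) :
    S_RESTR := by
  intro V _ _ G
  have bd : ∀ n, BddAbove
      {m : ℕ | ∃ S : SimpleGraph (Fin n), G.Free S ∧ (S.cliqueSet 3).ncard = m} := fun n =>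
    ⟨Nat.card (Finset (Fin n)), by rintro _ ⟨S, -, rfl⟩; exact Set.ncard_le_card _⟩
  refine ⟨fun n d H Y h hd => ?_, fun n t ht h => ?_⟩
  · rw [← RESTRa.res, RESTRa.tri hSIX]
    refine Nat.mul_le_mul_left 6 (le_csSup (bd _) ⟨_, fun ⟨φ⟩ => h ?_, rfl⟩)
    exact RESTRa.copy G hd (φ.toEmbedding.trans (Y.orderEmbOfFin rfl).toEmbedding)
      fun x y hxy => (φ.toHom.map_adj hxy).2
  · rcases Set.eq_empty_or_nonempty
      {m : ℕ | ∃ S : SimpleGraph (Fin n), G.Free S ∧ (S.cliqueSet 3).ncard = m} with e | e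
    · rw [exTri, e]
      simpa using ht
    · obtain ⟨S, h1, h2⟩ := Nat.sSup_mem e (bd n)
      have := h S h1
      rw [RESTRa.tri hSIX, h2] at this
      exact_mod_cast this

end

end Pool.Agent.P.MP_e3cf1a_co.X
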