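import Pool.Agent.P.MP_e3cf1a_co.Sh.Iface

/-! Steps EXT, SHAPE, EMB, LOW, Main. -/

namespace Pool.Agent.P.MP_e3cf1a_co.X

section

open Finset

theorem p_EXT :
    S_EXT := by
  intro V _ _ G n H X I ψ κ A h3 hI hψ hA hout hκ hinj hR
  induction hk : Xᶜ.card generalizing X ψ κ with
  | zero =>
    obtain rfl : X = univ := by simpa using hk
    refine ⟨⟨Sum.elim ψ fun e => κ e.1, Function.Injective.sumElim
      (fun a b h => hψ (by simp) (by simp) h) ?_ ?_⟩, ?_⟩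
    · rintro ⟨e, he⟩ ⟨e', he'⟩ h
      induction e using Sym2.ind with
      | _ x y =>
      induction e' using Sym2.ind with
      | _ x' y' =>
      exact Subtype.ext (hinj x (mem_univ _) y (mem_univ _) x' (mem_univ _) y' (mem_univ _) he he' h)
    · rintro a ⟨e, he⟩
      induction e using Sym2.ind with
      | _ x y => exact ((hκ x (mem_univ _) y (mem_univ _) he).2 a (mem_univ _)).symm
    · rintro e ⟨x, y, h, rfl⟩
      simpa using mem_link2.1 (hκ x (mem_univ _) y (mem_univ _) h).1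
  | succ k ih =>
    obtain ⟨v, hv⟩ : Xᶜ.Nonempty := card_pos.1 (by omega)
    have hvX : v ∉ X := mem_compl.1 hv
    obtain ⟨c, hc, z, hz, hzA⟩ := hR (univ.image ψ ∪ univ.image κ) ((card_union_le _ _).trans
      (add_le_add (card_image_le.trans (by simp)) (card_image_le.trans (by simp))))
    have c1 : ∀ u, ψ u ≠ c := fun u h => hc (by simp [← h])
    have c2 : ∀ e, κ e ≠ c := fun e h => hc (by simp [← h])
    have z1 : ∀ y ∈ I, ∀ u, z (ψ y) ≠ ψ u := fun y hy u h => (hzA _ (hA y hy)).1 (by simp [h])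
    have z2 : ∀ y ∈ I, ∀ e, z (ψ y) ≠ κ e := fun y hy e h => (hzA _ (hA y hy)).1 (by simp [h])
    have z3 : ∀ y ∈ I, z (ψ y) ∈ link2 H (ψ y) c := fun y hy => (hzA _ (hA y hy)).2
    set ψ' := Function.update ψ v c with hψ'
    set κ' : Sym2 V → Fin n := fun e => if h : v ∈ e then z (ψ (Sym2.Mem.other h)) else κ e
      with hκ'
    have p1 : ∀ x ∈ X, ψ' x = ψ x := fun x hx =>
      Function.update_of_ne (ne_of_mem_of_not_mem hx hvX) _ _
    have p2 : ψ' v = c := Function.update_self _ _ _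
    have k1 : ∀ x ∈ X, ∀ y ∈ X, κ' s(x, y) = κ s(x, y) := fun x hx y hy =>
      dif_neg fun h => by
        rcases Sym2.mem_iff.1 h with rfl | rfl
        exacts [hvX hx, hvX hy]
    have k2 : ∀ y, κ' s(v, y) = z (ψ y) := fun y => by
      have h : v ∈ s(v, y) := Sym2.mem_mk_left _ _
      rw [hκ']
      simp only [dif_pos h]
      rw [Sym2.congr_right.1 (Sym2.other_spec h)]
    have cls : ∀ x ∈ insert v X, ∀ y ∈ insert v X, G.Adj x y → (x ∈ X ∧ y ∈ X) ∨
        ∃ u ∈ I, s(x, y) = s(v, u) ∧ link2 H (ψ' x) (ψ' y) = link2 H (ψ u) c := by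
      intro x hx y hy h
      rcases mem_insert.1 hx with rfl | a
      · have h1 := hout _ _ h hvX
        exact Or.inr ⟨y, h1, rfl, by rw [p2, p1 y (hI h1), link_comm]⟩
      rcases mem_insert.1 hy with rfl | b
      · exact Or.inr ⟨x, hout _ _ h.symm hvX, Sym2.eq_swap, by rw [p2, p1 x a]⟩
      exact Or.inl ⟨a, b⟩
    refine ih (insert v X) ψ' κ' (hI.trans (subset_insert _ _)) ?_
      (fun u hu => by rw [p1 u (hI hu)]; exact hA u hu)
      (fun x y h hx => hout x y h fun h' => hx (mem_insert_of_mem h')) ?_ ?_ ?_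
    · intro x hx y hy h
      rcases mem_insert.1 (mem_coe.1 hx) with rfl | a <;>
        rcases mem_insert.1 (mem_coe.1 hy) with rfl | b
      · rfl
      · rw [p2, p1 y b] at h
        exact (c1 y h.symm).elim
      · rw [p2, p1 x a] at h
        exact (c1 x h).elim
      · rw [p1 x a, p1 y b] at h
        exact hψ a b h
    · intro x hx y hy h
      rcases cls x hx y hy h with ⟨a, b⟩ | ⟨u, hu, e1, e2⟩
      · rw [k1 x a y b, p1 x a, p1 y b]
        refine ⟨(hκ x a y b h).1, fun w hw => ?_⟩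
        rcases mem_insert.1 hw with rfl | hw
        · rw [p2]
          exact c2 _
        · rw [p1 w hw]
          exact (hκ x a y b h).2 w hw
      · rw [e1, e2, k2]
        refine ⟨z3 u hu, fun w hw => ?_⟩
        rcases mem_insert.1 hw with rfl | hw
        · rw [p2]
          exact (link_ne h3 (z3 u hu)).2.2.symm
        · rw [p1 w hw]
          exact z1 u hu w
    · intro x hx y hy x' hx' y' hy' h h' e
      rcases cls x hx y hy h with ⟨a, b⟩ | ⟨u, hu, e1, -⟩ <;>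
        rcases cls x' hx' y' hy' h' with ⟨a', b'⟩ | ⟨u', hu', e1', -⟩
      · rw [k1 x a y b, k1 x' a' y' b'] at e
        exact hinj x a y b x' a' y' b' h h' e
      · rw [k1 x a y b, e1', k2] at e
        exact (z2 u' hu' _ e.symm).elim
      · rw [k1 x' a' y' b', e1, k2] at e
        exact (z2 u hu _ e).elim
      · rw [e1, e1', k2, k2] at e
        rw [e1, e1', hψ (hI hu) (hI hu') (hz (hA u hu) (hA u' hu') e)]
    · rw [compl_insert, card_erase_of_mem hv]
      omega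

end

section

open Finset

namespace SHAPEa

theorem core_of {V : Type} [DecidableEq V] {G : SimpleGraph V} {k : ℕ} [NeZero k]
    {h : Fin k → Fin k → Prop} {A : Finset (Fin k)} (B : Finset (Fin k)) (g : Fin k → V)
    {I : Finset V} (hind : ∀ x ∈ I, ∀ y ∈ I, ¬ G.Adj x y) (hI : I.card ≤ A.card)
    (hg : Set.InjOn g B) (hgI : ∀ b ∈ B, g b ∉ I) (hAB : ∀ a ∈ A, ∀ b ∈ B, a ≠ b ∧ h a b ∧ h b a)
    (hE : ∀ x y, G.Adj x y → x ∉ I → y ∉ I → ∃ i ∈ B, ∃ j ∈ B, h i j ∧ g i = x ∧ g j = y) :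
    Core G h A := by
  obtain ⟨e, he⟩ := Function.Embedding.exists_of_card_le_finset (α := I) (s := A) (by simpa using hI)
  have hA : ∀ v : I, e v ∈ A := fun v => he ⟨v, rfl⟩
  let f : V → Fin k := fun v => if hv : v ∈ I then e ⟨v, hv⟩ else Function.invFunOn g B v
  have f1 : ∀ v (hv : v ∈ I), f v = e ⟨v, hv⟩ := fun v hv => dif_pos hv
  have f2 : ∀ b ∈ B, f (g b) = b := fun b hb => (dif_neg (hgI b hb)).trans (hg.leftInvOn_invFunOn hb)
  have hX : ∀ v ∈ I ∪ B.image g, v ∈ I ∨ ∃ b ∈ B, g b = v := fun v hv => by simpa using hv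
  refine ⟨I ∪ B.image g, I, f, subset_union_left, fun x hx y hy e' => ?_,
    fun v hv => f1 v hv ▸ hA _, fun x y hxy hx => ?_, fun x hx y hy hxy => ?_⟩
  · rcases hX x hx with a | ⟨a, ha, rfl⟩ <;> rcases hX y hy with b | ⟨b, hb, rfl⟩
    · rw [f1 x a, f1 y b] at e'
      exact congrArg Subtype.val (e.injective e')
    · rw [f1 x a, f2 b hb] at e'
      exact absurd e' (hAB _ (hA _) b hb).1
    · rw [f1 y b, f2 a ha] at e'
      exact absurd e'.symm (hAB _ (hA _) a ha).1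
    · rw [f2 a ha, f2 b hb] at e'
      rw [e']
  · by_contra hy
    obtain ⟨i, hi, -, -, -, rfl, -⟩ := hE x y hxy (fun a => hx (mem_union_left _ a)) hy
    exact hx (mem_union_right _ (mem_image_of_mem g hi))
  · rcases hX x hx with a | ⟨a, ha, rfl⟩ <;> rcases hX y hy with b | ⟨b, hb, rfl⟩
    · exact absurd hxy (hind x a y b)
    · rw [f1 x a, f2 b hb]
      exact (hAB _ (hA _) b hb).2.1
    · rw [f1 y b, f2 a ha]
      exact (hAB _ (hA _) a ha).2.2
    · obtain ⟨i, hi, j, hj, hij, e1, e2⟩ := hE _ _ hxy (hgI a ha) (hgI b hb)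
      rw [← e1, ← e2, f2 i hi, f2 j hj]
      exact hij

theorem share {V : Type} [DecidableEq V] {G : SimpleGraph V} {I : Finset V}
    (hind : ∀ x ∈ I, ∀ y ∈ I, ¬ G.Adj x y) (hI : I.card ≤ 1) {p q r : V} (hp : p ∉ I) (hq : q ∉ I)
    (hr : r ∉ I) (h1 : p ≠ q) (h2 : p ≠ r) (h3 : q ≠ r)
    (hE : ∀ x y, G.Adj x y → x ∉ I → y ∉ I → s(x, y) = s(p, q) ∨ s(x, y) = s(p, r)) :
    Core G hDia {2} := by
  refine core_of {0, 1, 3} ![q, r, p, p] hind hI ?_ ?_ (by unfold hDia; decide) fun x y a b c => ?_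
  · intro i hi j hj
    simp only [coe_insert, coe_singleton, Set.mem_insert_iff, Set.mem_singleton_iff] at hi hj
    rcases hi with rfl | rfl | rfl <;> rcases hj with rfl | rfl | rfl <;>
      simp [h1, h2, h3, h1.symm, h2.symm, h3.symm]
  · simp [hp, hq, hr]
  · rcases hE x y a b c with e | e <;> rcases Sym2.eq_iff.1 e with ⟨rfl, rfl⟩ | ⟨rfl, rfl⟩
    · exact ⟨3, by simp, 0, by simp, by unfold hDia; decide, rfl, rfl⟩
    · exact ⟨0, by simp, 3, by simp, by unfold hDia; decide, rfl, rfl⟩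
    · exact ⟨3, by simp, 1, by simp, by unfold hDia; decide, rfl, rfl⟩
    · exact ⟨1, by simp, 3, by simp, by unfold hDia; decide, rfl, rfl⟩

end SHAPEa

theorem p_SHAPE :
    S_SHAPE := by
  intro V _ _ G X hX hc
  obtain ⟨I, J, hind, hout, -, hcase⟩ := shape_of_crosscut G hX hc
  by_cases h0 : ∃ a b, G.Adj a b ∧ a ∉ I ∧ b ∉ I
  swap
  · refine .inl ⟨I, by omega, fun x y hxy => ⟨fun a b => hind x a y b hxy, fun b => ?_⟩⟩
    by_contra a
    exact h0 ⟨x, y, hxy, a, b⟩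
  obtain ⟨a, b, hab, ha, hb⟩ := h0
  have hJ := card_pos.2 ⟨_, hout a b hab ha hb⟩
  by_cases h1 : ∃ c d, G.Adj c d ∧ c ∉ I ∧ d ∉ I ∧ s(c, d) ≠ s(a, b)
  swap
  · refine .inr (.inl (SHAPEa.core_of {2, 3} ![a, a, a, b] hind (by simp; omega) ?_ (by simp [ha, hb])
      (by unfold hDia; decide) fun x y hxy hx hy => ?_))
    · intro i hi j hj
      simp only [coe_insert, coe_singleton, Set.mem_insert_iff, Set.mem_singleton_iff] at hi hj
      rcases hi with rfl | rfl <;> rcases hj with rfl | rfl <;> simp [hab.ne, hab.ne']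
    · have e : s(x, y) = s(a, b) := by
        by_contra e
        exact h1 ⟨x, y, hxy, hx, hy, e⟩
      rcases Sym2.eq_iff.1 e with ⟨rfl, rfl⟩ | ⟨rfl, rfl⟩
      · exact ⟨2, by simp, 3, by simp, by unfold hDia; decide, rfl, rfl⟩
      · exact ⟨3, by simp, 2, by simp, by unfold hDia; decide, rfl, rfl⟩
  obtain ⟨c, d, hcd, hc', hd, hne⟩ := h1
  have hsub : ({s(c, d), s(a, b)} : Finset (Sym2 V)) ⊆ J :=
    insert_subset (hout c d hcd hc' hd) (singleton_subset_iff.2 (hout a b hab ha hb))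
  have h2 := card_le_card hsub
  rw [card_pair hne] at h2
  have hI : I.card ≤ 1 := by omega
  have hE : ∀ x y, G.Adj x y → x ∉ I → y ∉ I → s(x, y) = s(a, b) ∨ s(x, y) = s(c, d) := by
    intro x y hxy hx hy
    have := hout x y hxy hx hy
    rw [← eq_of_subset_of_card_le hsub (by rw [card_pair hne]; omega)] at this
    simpa only [mem_insert, mem_singleton, or_comm] using this
  by_cases e1 : a = c
  · subst e1
    exact .inr (.inr (.inl (SHAPEa.share hind hI ha hb hd hab.ne hcd.ne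
      (fun e => hne (e ▸ rfl)) hE)))
  by_cases e2 : a = d
  · subst e2
    exact .inr (.inr (.inl (SHAPEa.share hind hI ha hb hc' hab.ne hcd.ne'
      (fun e => hne (e ▸ Sym2.eq_swap)) (Sym2.eq_swap (a := c) (b := a) ▸ hE))))
  by_cases e3 : b = c
  · subst e3
    exact .inr (.inr (.inl (SHAPEa.share hind hI hb ha hd hab.ne' hcd.ne e2
      (Sym2.eq_swap (a := a) (b := b) ▸ hE))))
  by_cases e4 : b = d
  · subst e4
    exact .inr (.inr (.inl (SHAPEa.share hind hI hb ha hc' hab.ne' hcd.ne' e1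
      (Sym2.eq_swap (a := c) (b := b) ▸ Sym2.eq_swap (a := a) (b := b) ▸ hE))))
  refine .inr (.inr (.inr (SHAPEa.core_of {1, 2, 3, 4} ![a, a, b, c, d] hind hI ?_
    (by simp [ha, hb, hc', hd]) (by unfold hBow; decide) fun x y hxy hx hy => ?_)))
  · intro i hi j hj
    simp only [coe_insert, coe_singleton, Set.mem_insert_iff, Set.mem_singleton_iff] at hi hj
    rcases hi with rfl | rfl | rfl | rfl <;> rcases hj with rfl | rfl | rfl | rfl <;>
      simp [hab.ne, hab.ne', hcd.ne, hcd.ne', e1, e2, e3, e4, Ne.symm e1, Ne.symm e2, Ne.symm e3,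
        Ne.symm e4]
  · rcases hE x y hxy hx hy with e | e <;> rcases Sym2.eq_iff.1 e with ⟨rfl, rfl⟩ | ⟨rfl, rfl⟩
    · exact ⟨1, by simp, 2, by simp, by unfold hBow; decide, rfl, rfl⟩
    · exact ⟨2, by simp, 1, by simp, by unfold hBow; decide, rfl, rfl⟩
    · exact ⟨3, by simp, 4, by simp, by unfold hBow; decide, rfl, rfl⟩
    · exact ⟨4, by simp, 3, by simp, by unfold hBow; decide, rfl, rfl⟩

end

section

open Finset

namespace EMBa

variable {V : Type} [Fintype V] [DecidableEq V] {G : SimpleGraph V} {n : ℕ}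
  {H : Finset (Finset (Fin n))}

theorem core (hEXT : S_EXT) (h3 : IsThreeGraph H) {k m : ℕ} {h : Fin k → Fin k → Prop}
    {A0 : Finset (Fin k)} (hc : Core G h A0) (v : Fin k → Fin n) (c : Fin m → Fin n)
    (idx : Fin k → Fin k → Fin m) {A : Finset (Fin n)} (hv : Function.Injective v)
    (hcI : Function.Injective c) (hcv : ∀ i j, c i ≠ v j) (hs : ∀ i j, idx i j = idx j i)
    (hm : ∀ i j, h i j → c (idx i j) ∈ link2 H (v i) (v j))
    (hi : ∀ i j i' j', h i j → h i' j' → idx i j = idx i' j' →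
      (i = i' ∧ j = j') ∨ (i = j' ∧ j = i'))
    (hA : ∀ i ∈ A0, v i ∈ A) (hR : Rob H A (Fintype.card V + Fintype.card (Sym2 V))) :
    ContainsCopy H (expansion G) := by
  obtain ⟨X, I, f, h1, h2, h4, h5, h6⟩ := hc
  refine hEXT V G n H X I (fun x => v (f x))
    (Sym2.lift ⟨fun x y => c (idx (f x) (f y)), fun x y => congrArg c (hs _ _)⟩) A h3 h1
    (fun x hx y hy e => h2 hx hy (hv e)) (fun x hx => hA _ (h4 x hx)) h5
    (fun x hx y hy e => ⟨hm _ _ (h6 x hx y hy e), fun w _ => hcv _ _⟩)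
    (fun x hx y hy x' hx' y' hy' e e' he => ?_) hR
  rcases hi _ _ _ _ (h6 x hx y hy e) (h6 x' hx' y' hy' e') (hcI he) with ⟨a, b⟩ | ⟨a, b⟩
  · rw [h2 hx hx' a, h2 hy hy' b]
  · rw [h2 hx hy' a, h2 hy hx' b, Sym2.eq_swap]

theorem dia (hEXT : S_EXT) (h3 : IsThreeGraph H) {A0 : Finset (Fin 4)} (hc : Core G hDia A0)
    {a1 a2 b1 b2 : Fin n} (hd : Dia H a1 a2 b1 b2) {A : Finset (Fin n)}
    (hA : ∀ i ∈ A0, ![a1, a2, b1, b2] i ∈ A)
    (hR : Rob H A (Fintype.card V + Fintype.card (Sym2 V))) : ContainsCopy H (expansion G) := by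
  obtain ⟨e, c, c1, c2, c3⟩ := hd
  have m0 : c 0 ∈ link2 H b1 b2 := c3 0
  have m1 : c 1 ∈ link2 H a1 b1 := c3 1
  have m2 : c 2 ∈ link2 H a2 b1 := c3 2
  have m3 : c 3 ∈ link2 H a1 b2 := c3 3
  have m4 : c 4 ∈ link2 H a2 b2 := c3 4
  refine core hEXT h3 hc ![a1, a2, b1, b2] c
    ![![0, 0, 1, 3], ![0, 0, 2, 4], ![1, 2, 0, 0], ![3, 4, 0, 0]] ?_ c1 (fun i j he => c2 i ?_)
    (by decide) (fun i j hij => ?_) (by unfold hDia; decide) hA hR
  · refine List.nodup_ofFn.1 ?_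
    simp [e, (link_ne h3 m0).1, (link_ne h3 m1).1, (link_ne h3 m2).1, (link_ne h3 m3).1,
      (link_ne h3 m4).1]
  · rw [he]
    fin_cases j <;> simp
  · fin_cases i <;> fin_cases j <;>
      first
        | exact absurd hij (by unfold hDia; decide)
        | assumption
        | exact link_symm (by assumption)

theorem bow (hEXT : S_EXT) (h3 : IsThreeGraph H) (hc : Core G hBow {0})
    {a x1 y1 x2 y2 : Fin n} (hd : Bow H a x1 y1 x2 y2)
    (hR : Rob H {a} (Fintype.card V + Fintype.card (Sym2 V))) : ContainsCopy H (expansion G) := by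
  obtain ⟨e1, e2, e3, e4, c, c1, c2, c3⟩ := hd
  have m0 : c 0 ∈ link2 H a x1 := c3 0
  have m1 : c 1 ∈ link2 H a y1 := c3 1
  have m2 : c 2 ∈ link2 H x1 y1 := c3 2
  have m3 : c 3 ∈ link2 H a x2 := c3 3
  have m4 : c 4 ∈ link2 H a y2 := c3 4
  have m5 : c 5 ∈ link2 H x2 y2 := c3 5
  refine core hEXT h3 hc ![a, x1, y1, x2, y2] c
    ![![0, 0, 1, 3, 4], ![0, 0, 2, 0, 0], ![1, 2, 0, 0, 0], ![3, 0, 0, 0, 5], ![4, 0, 0, 5, 0]]
    ?_ c1 (fun i j he => c2 i ?_) (by decide) (fun i j hij => ?_) (by unfold hBow; decide)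
    (by simp) hR
  · refine List.nodup_ofFn.1 ?_
    simp [e1, e2, e3, e4, (link_ne h3 m0).1, (link_ne h3 m1).1, (link_ne h3 m2).1,
      (link_ne h3 m3).1, (link_ne h3 m4).1, (link_ne h3 m5).1]
  · rw [he]
    fin_cases j <;> simp
  · fin_cases i <;> fin_cases j <;>
      first
        | exact absurd hij (by unfold hBow; decide)
        | assumption
        | exact link_symm (by assumption)

end EMBa

theorem p_EMB (hEXT : S_EXT) :
    S_EMB := by
  intro V _ _ G n H h3 hn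
  refine ⟨fun ⟨I, hI, h⟩ A hA hR => hn ?_,
    fun hc a1 a2 b1 b2 hR hd => hn (EMBa.dia hEXT h3 hc hd (by simp) hR),
    fun hc a1 a2 b1 b2 hR hd => hn (EMBa.dia hEXT h3 hc hd (by simp) hR),
    fun hc a x1 y1 x2 y2 hR hd => hn (EMBa.bow hEXT h3 hc hd hR)⟩
  obtain ⟨a, -⟩ := card_pos.1 (show 0 < A.card by omega)
  have : Nonempty (Fin n) := ⟨a⟩
  obtain ⟨ψ, h1, h2⟩ := I.finite_toSet.exists_injOn_of_encard_le (t := (A : Set (Fin n)))
    (by rw [Set.encard_coe_eq_coe_finsetCard, Set.encard_coe_eq_coe_finsetCard, hA]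
        exact_mod_cast hI)
  exact hEXT V G n H I I ψ (fun _ => a) A h3 Subset.rfl h2 (fun v hv => h1 hv)
    (fun x y e hx => not_not.1 fun hy => hx ((h x y e).2 hy))
    (fun x hx y hy e => absurd hy ((h x y e).1 hx))
    (fun x hx y hy _ _ _ _ e => absurd hy ((h x y e).1 hx)) hR

end

section

open Finset

namespace LOWa

theorem low {W U : Type*} [Fintype W] [DecidableEq W] [Fintype U] [DecidableEq U]
    (F : Set (Finset W)) (A : Finset U) (hF : ∀ X : Finset W, IsCrosscut F X → A.card < X.card) :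
    ∃ H : Finset (Finset U), IsThreeGraph H ∧ ¬ ContainsCopy H F ∧
      H.card = A.card * (Fintype.card U - A.card).choose 2 := by
  have hP : ∀ x ∈ A ×ˢ powersetCard 2 Aᶜ, (insert x.1 x.2).card = 3 ∧
      insert x.1 x.2 ∩ A = {x.1} ∧ insert x.1 x.2 \ A = x.2 := by
    rintro ⟨c, p⟩ hx
    obtain ⟨hc, hp⟩ := mem_product.1 hx
    obtain ⟨h1, h2⟩ := mem_powersetCard.1 hp
    have h3 : ∀ y ∈ p, y ∉ A := fun y hy => mem_compl.1 (h1 hy)
    refine ⟨by rw [card_insert_of_notMem fun h => h3 c h hc, h2], ?_, ?_⟩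
    · ext y
      simp only [mem_inter, mem_insert, mem_singleton]
      exact ⟨fun h => h.1.resolve_right fun h' => h3 y h' h.2, fun h => ⟨.inl h, h ▸ hc⟩⟩
    · ext y
      simp only [mem_sdiff, mem_insert]
      exact ⟨fun h => h.1.resolve_left fun h' => h.2 (h' ▸ hc), fun h => ⟨.inr h, h3 y h⟩⟩
  refine ⟨(A ×ˢ powersetCard 2 Aᶜ).image fun x => insert x.1 x.2, ?_, ?_, ?_⟩
  · intro e he
    obtain ⟨x, hx, rfl⟩ := mem_image.1 he
    exact (hP x hx).1
  · rintro ⟨φ, hφ⟩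
    have h1 : IsCrosscut F (univ.filter fun w => φ w ∈ A) := by
      intro e he
      obtain ⟨x, hx, hp⟩ := mem_image.1 (hφ e he)
      have h2 : (e ∩ univ.filter fun w => φ w ∈ A).map φ = e.map φ ∩ A := by
        ext y
        simp only [mem_map, mem_inter, mem_filter, mem_univ, true_and]
        exact ⟨fun ⟨w, hw, h⟩ => ⟨⟨w, hw.1, h⟩, h ▸ hw.2⟩,
          fun ⟨⟨w, hw, h⟩, h'⟩ => ⟨w, ⟨hw, h ▸ h'⟩, h⟩⟩
      rw [← card_map φ, h2, ← hp, (hP x hx).2.1, card_singleton]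
    have h3 : (univ.filter fun w => φ w ∈ A).card ≤ A.card :=
      card_le_card_of_injOn φ (fun w hw => (mem_filter.1 hw).2) φ.injective.injOn
    exact absurd (hF _ h1) (not_lt.2 h3)
  · rw [card_image_of_injOn, card_product, card_powersetCard, card_compl]
    intro x hx y hy e
    have e' : insert x.1 x.2 = insert y.1 y.2 := e
    refine Prod.ext (singleton_injective ?_) ?_
    · rw [← (hP x hx).2.1, ← (hP y hy).2.1, e']
    · rw [← (hP x hx).2.2, ← (hP y hy).2.2, e']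

end LOWa

theorem p_LOW :
    S_LOW := by
  classical
  intro V _ _ G hσ
  refine ⟨fun n => ?_, fun n => ?_⟩
  · have hA : ({0, 1} : Finset (Fin (n + 2))).card = 2 := card_pair (by simp)
    obtain ⟨H, h1, h2, h3⟩ := LOWa.low (expansion G) ({0, 1} : Finset (Fin (n + 2)))
      fun X hX => by
        have := hσ.2 ⟨X, hX, rfl⟩
        omega
    rw [hA, Fintype.card_fin, Nat.add_sub_cancel] at h3
    exact le_csSup (ex3_bdd _ _) ⟨H, h1, h2, h3⟩
  · refine csSup_le' ?_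
    rintro m ⟨S, hS, rfl⟩
    refine le_csSup (ex3_bdd _ _) ⟨S.cliqueFinset 3, fun e he => ?_, ?_, ?_⟩
    · exact (SimpleGraph.mem_cliqueFinset_iff.1 he).card_eq
    · rintro ⟨φ, hφ⟩
      refine hS ⟨⟨⟨fun x => φ (.inl x), fun {x y} h => ?_⟩,
        fun x y e => Sum.inl_injective (φ.injective e)⟩⟩
      exact (SimpleGraph.mem_cliqueFinset_iff.1 (hφ _ ⟨x, y, h, rfl⟩)).isClique
        (by simp) (by simp) fun e => h.ne (Sum.inl_injective (φ.injective e))
    · rw [← SimpleGraph.coe_cliqueFinset, Set.ncard_coe_finset]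

end

section

open Finset Filter

variable {V : Type} [Fintype V] [DecidableEq V]

omit [Fintype V] in
lemma ex3_le {W : Type*} (F : Set (Finset W)) (n : ℕ) {t : ℝ} (ht : 0 ≤ t)
    (h : ∀ H : Finset (Finset (Fin n)), IsThreeGraph H → ¬ ContainsCopy H F → (H.card : ℝ) ≤ t) :
    (ex3 n F : ℝ) ≤ t := by
  have : ex3 n F ≤ ⌊t⌋₊ := by
    apply csSup_le'
    rintro m ⟨H, h3, hno, rfl⟩
    exact Nat.le_floor (h H h3 hno)
  exact ((Nat.cast_le (α := ℝ)).2 this).trans (Nat.floor_le ht)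

theorem upper (hSHAPE : S_SHAPE) (hEMB : S_EMB) (hF1 : S_F1) (hF234 : S_F234) (hRESTR : S_RESTR)
    (G : SimpleGraph V) (hσ : CrosscutNumberEq (expansion G) 3) {c : ℝ} (hc : 1 ≤ c)
    (hb : Sh1 G → ∀ ε > 0, ∀ᶠ N : ℕ in atTop, (exTri N G : ℝ) ≤ (c + ε) * (N : ℝ) ^ 2)
    {ε : ℝ} (hε : 0 < ε) :
    ∀ᶠ n : ℕ in atTop, (ex3 n (expansion G) : ℝ) ≤ (c + ε) * (n : ℝ) ^ 2 := by
  obtain ⟨⟨X, hX, hc3⟩, -⟩ := hσ
  set T := Fintype.card V + Fintype.card (Sym2 V) with hT
  by_cases h1 : Sh1 G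
  · obtain ⟨N0, hN0⟩ := eventually_atTop.1 (hb h1 (ε / 3) (by positivity))
    obtain ⟨n0, hn0⟩ := hF1 T (T + 3) (2 * ε) (by positivity) le_rfl
    set C : ℝ := ∑ N ∈ range N0, (exTri N G : ℝ) with hC
    have hC0 : 0 ≤ C := sum_nonneg fun _ _ => Nat.cast_nonneg _
    have hall : ∀ N : ℕ, (exTri N G : ℝ) ≤ (c + ε / 3) * (N : ℝ) ^ 2 + C := fun N => by
      rcases lt_or_ge N N0 with h | h
      · have := single_le_sum (f := fun N => (exTri N G : ℝ)) (fun _ _ => Nat.cast_nonneg _)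
          (mem_range.2 h)
        have : 0 ≤ (c + ε / 3) * (N : ℝ) ^ 2 := by positivity
        linarith
      · linarith [hN0 N h]
    filter_upwards [eventually_ge_atTop n0, eventually_ge_atTop ⌈3 * C / ε⌉₊,
      eventually_ge_atTop 1] with n a1 a2 a3
    refine ex3_le _ n (by positivity) fun H h3 hno => ?_
    obtain ⟨Y, hY⟩ := hn0 n a1 H h3 ((hEMB V G n H h3 hno).1 h1)
    have b1 := (Nat.cast_le (α := ℝ)).2 ((hRESTR V G).1 n (T + 3) H Y hno (by omega))
    have b2 := hall Y.card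
    have b3 : (Y.card : ℝ) ≤ n := by exact_mod_cast (card_le_univ Y).trans_eq (Fintype.card_fin n)
    have b4 : (0 : ℝ) ≤ Y.card := Nat.cast_nonneg _
    have b5 : (1 : ℝ) ≤ n := by exact_mod_cast a3
    have b6 : 3 * C ≤ ε * (n : ℝ) ^ 2 := by
      have := (div_le_iff₀ hε).1 (Nat.ceil_le.1 a2)
      nlinarith
    have b7 : (Y.card : ℝ) ^ 2 ≤ (n : ℝ) ^ 2 := pow_le_pow_left₀ b4 b3 2
    have b8 : (n : ℝ) * (n - Y.card) ≤ (n : ℝ) ^ 2 - (Y.card : ℝ) ^ 2 := by nlinarith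
    have b9 : (n : ℝ) ^ 2 - (Y.card : ℝ) ^ 2 ≤ c * ((n : ℝ) ^ 2 - (Y.card : ℝ) ^ 2) :=
      le_mul_of_one_le_left (by linarith) hc
    have b10 := mul_le_mul_of_nonneg_left b7 hε.le
    simp only [Nat.cast_mul, Nat.cast_ofNat] at b1
    nlinarith
  · obtain ⟨n0, hn0⟩ := hF234 T ε hε
    filter_upwards [eventually_ge_atTop n0] with n a1
    refine ex3_le _ n (by positivity) fun H h3 hno => ?_
    obtain ⟨-, e2, e3, e4⟩ := hEMB V G n H h3 hno
    refine (hn0 n a1 H h3 ?_).trans (mul_le_mul_of_nonneg_right (by linarith) (by positivity))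
    rcases hSHAPE V G X hX hc3 with h | h | h | h
    exacts [absurd h h1, .inl (e2 h), .inr (.inl (e3 h)), .inr (.inr (e4 h))]

theorem lower (hLOW : S_LOW) (G : SimpleGraph V) (hσ : CrosscutNumberEq (expansion G) 3)
    {ε : ℝ} (hε : 0 < ε) :
    ∀ᶠ n : ℕ in atTop, (1 - ε) * (n : ℝ) ^ 2 ≤ (ex3 n (expansion G) : ℝ) := by
  filter_upwards [eventually_ge_atTop ⌈5 / ε⌉₊, eventually_ge_atTop 3] with n a1 a2
  obtain ⟨k, rfl⟩ : ∃ k, n = k + 1 + 2 := ⟨n - 3, by omega⟩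
  have h1 := (hLOW V G hσ).1 (k + 1)
  have h2 : 2 * (k + 1).choose 2 = (k + 1) * k := by
    rw [Nat.choose_two_right]
    exact Nat.mul_div_cancel' (Nat.even_mul_pred_self (k + 1)).two_dvd
  rw [h2] at h1
  have h3 := (Nat.cast_le (α := ℝ)).2 h1
  have h4 := (div_le_iff₀ hε).1 (Nat.ceil_le.1 a1)
  have h5 : (0 : ℝ) ≤ k := Nat.cast_nonneg k
  push_cast at h3 h4 ⊢
  nlinarith

theorem sharp (hSHAPE : S_SHAPE) (hEMB : S_EMB) (hF1 : S_F1) (hF234 : S_F234) (hRESTR : S_RESTR)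
    (hLOW : S_LOW) (hSH1 : S_SH1) (hTRI : S_TRI)
    (G : SimpleGraph V) (hσ : CrosscutNumberEq (expansion G) 3) (m : ℕ)
    (hm : (completeBipartiteGraph (Fin 3) (Fin (m + 1))).Free G) (ε : ℝ) (hε : 0 < ε) :
    ∀ᶠ n : ℕ in atTop, (1 - ε) * (n : ℝ) ^ 2 ≤ (ex3 n (expansion G) : ℝ) ∧
      (ex3 n (expansion G) : ℝ) ≤ (max 1 (((m : ℝ) - 1) / 6) + ε) * (n : ℝ) ^ 2 := by
  refine (lower hLOW G hσ hε).and
    (upper hSHAPE hEMB hF1 hF234 hRESTR G hσ (le_max_left _ _) (fun h1 δ hδ => ?_) hε)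
  obtain ⟨n0, hn0⟩ := hTRI (2 * Fintype.card V) (m - 1) (6 * δ) (by positivity)
  filter_upwards [eventually_ge_atTop n0] with N hN
  have h2 := (hRESTR V G).2 N _ (by positivity) fun S hS =>
    hn0 N hN S (hSH1 V G N m S h1 hS hm).1 (hSH1 V G N m S h1 hS hm).2
  have h3 : ((m - 1 : ℕ) : ℝ) ≤ 6 * max 1 (((m : ℝ) - 1) / 6) := by
    rcases Nat.eq_zero_or_pos m with rfl | h
    · have := le_max_left (1 : ℝ) ((((0 : ℕ) : ℝ) - 1) / 6)
      simp only [Nat.zero_sub, Nat.cast_zero] at this ⊢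
      linarith
    · have := le_max_right (1 : ℝ) (((m : ℝ) - 1) / 6)
      rw [Nat.cast_pred h]
      linarith
  have h4 := mul_le_mul_of_nonneg_right h3 (sq_nonneg (N : ℝ))
  nlinarith

theorem formula (hSHAPE : S_SHAPE) (hEMB : S_EMB) (hF1 : S_F1) (hF234 : S_F234)
    (hRESTR : S_RESTR) (hLOW : S_LOW) (G : SimpleGraph V)
    (hσ : CrosscutNumberEq (expansion G) 3) :
    limsup (fun n : ℕ => (((ex3 n (expansion G) : ℝ) / (n : ℝ) ^ 2 : ℝ) : EReal)) atTop =
      max 1 (limsup (fun n : ℕ => (((exTri n G : ℝ) / (n : ℝ) ^ 2 : ℝ) : EReal)) atTop) := by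
  have pos : ∀ᶠ n : ℕ in atTop, (0 : ℝ) < (n : ℝ) ^ 2 := by
    filter_upwards [eventually_gt_atTop 0] with n hn
    positivity
  refine le_antisymm (le_of_forall_gt_imp_ge_of_dense fun a ha => ?_) (max_le ?_ ?_)
  · obtain ⟨r, h1, h2⟩ := EReal.lt_iff_exists_real_btwn.1 ha
    obtain ⟨q, h3, h4⟩ := EReal.lt_iff_exists_real_btwn.1 h1
    have h5 : (1 : ℝ) ≤ q := by exact_mod_cast ((le_max_left _ _).trans_lt h3).le
    have h6 : q < r := by exact_mod_cast h4
    have h7 := eventually_lt_of_limsup_lt ((le_max_right _ _).trans_lt h3)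
    have h8 := upper hSHAPE hEMB hF1 hF234 hRESTR G hσ h5 (fun _ δ hδ => by
      filter_upwards [h7, pos] with N a1 a2
      have a3 := (div_lt_iff₀ a2).1 (EReal.coe_lt_coe_iff.1 a1)
      nlinarith) (sub_pos.2 h6)
    refine le_trans (limsup_le_of_le (by isBoundedDefault) ?_) h2.le
    filter_upwards [h8, pos] with n a1 a2
    refine EReal.coe_le_coe_iff.2 ((div_le_iff₀ a2).2 ?_)
    linarith
  · refine le_of_forall_lt_imp_le_of_dense fun a ha => ?_
    obtain ⟨r, h1, h2⟩ := EReal.lt_iff_exists_real_btwn.1 ha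
    have h3 : r < 1 := by exact_mod_cast h2
    refine h1.le.trans (le_limsup_of_frequently_le (Eventually.frequently ?_))
    filter_upwards [lower hLOW G hσ (sub_pos.2 h3), pos] with n a1 a2
    refine EReal.coe_le_coe_iff.2 ((le_div_iff₀ a2).2 ?_)
    linarith
  · refine limsup_le_limsup (Eventually.of_forall fun n => EReal.coe_le_coe_iff.2 ?_)
    exact div_le_div_of_nonneg_right (Nat.cast_le.2 ((hLOW V G hσ).2 n)) (by positivity)

end

end Pool.Agent.P.MP_e3cf1a_co.X
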