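import Pool.Agent.P.MP_e3cf1a_co.Sh.B1
import Pool.Agent.P.MP_e3cf1a_co.Sh.B2
import Pool.Agent.P.MP_e3cf1a_co.Sh.B3
import Pool.Agent.P.MP_e3cf1a_co.Sh.B4
import Pool.Agent.P.MP_e3cf1a_co.Sh.B5
import Pool.Agent.P.MP_e3cf1a_co.Sh.B6

/-! All steps together. -/

namespace Pool.Agent.P.MP_e3cf1a_co.X

theorem all_SIX : S_SIX := p_SIX

theorem all_ACC1 : S_ACC1 := p_ACC1 all_SIX

theorem all_ACC2 : S_ACC2 := p_ACC2 all_ACC1

theorem all_REMA : S_REMA := p_REMA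

theorem all_REMB : S_REMB := p_REMB

theorem all_REMC : S_REMC := p_REMC

theorem all_REM : S_REM := p_REM all_REMA all_REMB all_REMC

theorem all_PAIR : S_PAIR := p_PAIR

theorem all_STR : S_STR := p_STR

theorem all_M2 : S_M2 := p_M2 all_PAIR all_STR

theorem all_H2 : S_H2 := p_H2 all_REM

theorem all_PT2 : S_PT2 := p_PT2

theorem all_EX2 : S_EX2 := p_EX2 all_REM all_STR all_M2

theorem all_PT3 : S_PT3 := p_PT3

theorem all_EX3 : S_EX3 := p_EX3 all_REM

theorem all_BOW : S_BOW := p_BOW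

theorem all_R4 : S_R4 := p_R4 all_BOW

theorem all_PT4 : S_PT4 := p_PT4

theorem all_F234 : S_F234 := p_F234 all_ACC2 all_REM all_H2 all_PT2 all_EX2 all_PT3 all_EX3 all_R4 all_PT4

theorem all_K3 : S_K3 := p_K3

theorem all_ROB3 : S_ROB3 := p_ROB3

theorem all_RB : S_RB := p_RB all_K3

theorem all_RJ : S_RJ := p_RJ all_K3 all_ROB3

theorem all_CHG : S_CHG := p_CHG all_RJ

theorem all_YY : S_YY := p_YY all_ROB3

theorem all_TX : S_TX := p_TX

theorem all_F1 : S_F1 := p_F1 all_ACC1 all_RB all_CHG all_YY all_TX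

theorem all_TRA : S_TRA := p_TRA

theorem all_TRB : S_TRB := p_TRB

theorem all_TRI : S_TRI := p_TRI all_TRA all_TRB

theorem all_EXT : S_EXT := p_EXT

theorem all_SHAPE : S_SHAPE := p_SHAPE

theorem all_EMB : S_EMB := p_EMB all_EXT

theorem all_SH1 : S_SH1 := p_SH1

theorem all_RESTR : S_RESTR := p_RESTR all_SIX

theorem all_LOW : S_LOW := p_LOW

end Pool.Agent.P.MP_e3cf1a_co.X
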