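import Pool.Agent.P.MP_e3cf1a_co.Sh.Iface

/-! Steps SIX, ACC1, ACC2, REMA, REMB, REMC, REM. -/

namespace Pool.Agent.P.MP_e3cf1a_co.X

section

open Finset

namespace SIXa

lemma six {n : ℕ} {a b c : Fin n} (hab : a ≠ b) (hac : a ≠ c) (hbc : b ≠ c) :
    (univ.filter fun p : Fin n × Fin n × Fin n =>
      ({p.1, p.2.1, p.2.2} : Finset (Fin n)) = {a, b, c}).card = 6 := by
  have h : (univ.filter fun p : Fin n × Fin n × Fin n =>
      ({p.1, p.2.1, p.2.2} : Finset (Fin n)) = {a, b, c}) =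
      {(a, b, c), (a, c, b), (b, a, c), (b, c, a), (c, a, b), (c, b, a)} := by
    ext ⟨x, y, z⟩
    simp only [mem_filter, mem_univ, true_and, mem_insert, mem_singleton, Prod.mk.injEq,
      Finset.ext_iff]
    constructor
    · intro h
      have h1 := (h x).1 (by simp)
      have h2 := (h y).1 (by simp)
      have h3 := (h z).1 (by simp)
      have h4 := (h a).2 (by simp)
      have h5 := (h b).2 (by simp)
      have h6 := (h c).2 (by simp)
      grind
    · intro h w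
      grind
  rw [h]
  simp [card_insert_of_notMem, hab, hac, hbc, hab.symm, hac.symm, hbc.symm]

end SIXa

theorem p_SIX :
    S_SIX := by
  intro n H h3
  have h1 : c3 (fun x y z => z ∈ link2 H x y) = (univ.filter fun p : Fin n × Fin n × Fin n =>
      ({p.1, p.2.1, p.2.2} : Finset (Fin n)) ∈ H).card := by
    rw [card_filter, Fintype.sum_prod_type]
    refine sum_congr rfl fun x _ => ?_
    rw [Fintype.sum_prod_type]
    refine sum_congr rfl fun y _ => ?_
    rw [ct_eq_sum]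
    exact sum_congr rfl fun z _ => by simp [mem_link2]
  rw [h1, card_eq_sum_card_fiberwise (f := fun p : Fin n × Fin n × Fin n =>
    ({p.1, p.2.1, p.2.2} : Finset (Fin n))) (t := H) (fun p hp => by simpa using hp),
    mul_comm, ← smul_eq_mul, ← sum_const]
  refine sum_congr rfl fun e he => ?_
  obtain ⟨a, b, c, hab, hac, hbc, rfl⟩ := card_eq_three.1 (h3 e he)
  rw [← SIXa.six hab hac hbc, filter_filter]
  exact congrArg card (filter_congr fun p _ => ⟨fun h => h.2, fun h => ⟨h ▸ he, h⟩⟩)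

end

section

open Finset

theorem p_ACC1 (hSIX : S_SIX) :
    S_ACC1 := by
  intro n d H h3
  rw [← hSIX n H h3]
  let P : Fin n → Fin n → Fin n → Prop := fun x y z => LHH H d x y z ∨ LLx H d x y z
  have hP : c3 P ≤ c3 (LHH H d) + c3 (LLx H d) := c3_or fun _ _ _ h => h
  have h1 : c3 (fun x y z => z ∈ link2 H x y) ≤
      c3 (HHH H d) + c3 (fun x y z => P x y z ∨ (P y z x ∨ P z x y)) := by
    refine c3_or fun x y z h => ?_
    have r1 := link_rot h
    have r2 := link_rot r1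
    have e1 := cd_comm H y x
    have e2 := cd_comm H z x
    have e3 := cd_comm H z y
    simp only [P, HHH, LHH, LLx, h, r1, r2, e1, e2, e3, true_and]
    omega
  have h2 : c3 (fun x y z => P x y z ∨ (P y z x ∨ P z x y)) ≤
      c3 P + c3 (fun x y z => P y z x ∨ P z x y) := c3_or fun _ _ _ h => h
  have h4 : c3 (fun x y z => P y z x ∨ P z x y) ≤
      c3 (fun x y z => P y z x) + c3 (fun x y z => P z x y) := c3_or fun _ _ _ h => h
  rw [c3_rot P, c3_rot' P] at h4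
  omega

end

section

open Finset

namespace ACC2a

variable {U : Type*} [Fintype U] [DecidableEq U] {H : Finset (Finset U)} {d : ℕ}
  {pu : U → U → U → Prop}

lemma val_zero {x y : U} (h : ¬ cd H x y < d) : val H d pu x y = 0 := by
  unfold val
  rw [ct_eq_zero fun z hz => h hz.2.1, ct_eq_zero fun z hz => h hz.1.2.1,
    ct_eq_zero fun z hz => h hz.1.2.1]

lemma val_le (x y : U) : val H d pu x y ≤ 2 * d := by
  by_cases h : cd H x y < d
  · have h1 : ct (LHH H d x y) + ct (fun z => LLH H d x y z ∧ ¬ pu x y z) ≤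
        ct fun z => z ∈ link2 H x y :=
      ct_add_le (fun _ hz => hz.1) (fun _ hz => hz.1.1)
        fun z a b => absurd b.1.2.2.1 (not_lt.2 a.2.2.1)
    have h2 : ct (fun z => z ∈ link2 H x y) ≤ cd H x y := ct_le_of_sub fun _ hz => hz
    have h3 : ct (fun z => LLH H d x y z ∧ pu x z y) ≤ cd H x y := ct_le_of_sub fun _ hz => hz.1.1
    unfold val
    omega
  · rw [val_zero h]; exact Nat.zero_le _

lemma sum_val : c3 (LHH H d) + c3 (LLH H d) ≤ ∑ x, ∑ y, val H d pu x y := by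
  have h1 : c3 (LLH H d) ≤ c3 (fun x y z => LLH H d x y z ∧ ¬ pu x y z) +
      c3 (fun x y z => LLH H d x y z ∧ pu x y z) :=
    c3_or fun x y z h => by by_cases e : pu x y z <;> simp [h, e]
  have h2 : c3 (fun x y z => LLH H d x y z ∧ pu x y z) ≤
      c3 (fun x y z => LLH H d x y z ∧ pu x z y) := by
    rw [← c3_swap23 fun x y z => LLH H d x y z ∧ pu x z y]
    exact c3_mono fun x y z h => ⟨⟨link_swap h.1.1, h.1.2.2.1, h.1.2.1,
      cd_comm H y z ▸ h.1.2.2.2⟩, h.2⟩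
  have h3 : ∑ x, ∑ y, val H d pu x y = c3 (LHH H d) +
      c3 (fun x y z => LLH H d x y z ∧ ¬ pu x y z) +
      c3 (fun x y z => LLH H d x y z ∧ pu x z y) := by
    simp only [val, c3, sum_add_distrib]
  omega

lemma two_val (E : U → U → Prop)
    (h : ∀ x y, ¬ E x y → ¬ E y x → cd H x y < d → val H d pu x y + val H d pu y x ≤ 4) :
    2 * ∑ x, ∑ y, val H d pu x y ≤ 4 * Fintype.card U ^ 2 + 8 * (d * c2 E) := by
  classical
  have h1 : ∀ x y, val H d pu x y + val H d pu y x ≤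
      4 + 4 * d * (if E x y then 1 else 0) + 4 * d * (if E y x then 1 else 0) := fun x y => by
    have a := val_le (H := H) (d := d) (pu := pu) x y
    have b := val_le (H := H) (d := d) (pu := pu) y x
    by_cases e1 : E x y
    · rw [if_pos e1]; omega
    by_cases e2 : E y x
    · rw [if_pos e2]; omega
    by_cases e3 : cd H x y < d
    · have := h x y e1 e2 e3; omega
    · rw [val_zero e3, val_zero (cd_comm H x y ▸ e3)]; omega
  have h2 := sum_le_sum fun x (_ : x ∈ (univ : Finset U)) =>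
    sum_le_sum fun y (_ : y ∈ (univ : Finset U)) => h1 x y
  have h3 : ∑ x, ∑ y, (if E x y then 1 else 0) = c2 E := by
    simp only [c2, ct_eq_sum]
  have h4 : ∑ x, ∑ y, (if E y x then 1 else 0) = c2 E := sum_comm.trans h3
  have h5 : ∑ x, ∑ y, val H d pu y x = ∑ x, ∑ y, val H d pu x y := sum_comm
  simp only [sum_add_distrib, ← mul_sum, h3, h4, h5, sum_const, card_univ, smul_eq_mul] at h2
  nlinarith

end ACC2a

open ACC2a in
theorem p_ACC2 (hACC1 : S_ACC1) :
    S_ACC2 := by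
  intro n d H pu E h3 h
  have a1 := hACC1 n d H h3
  have a2 : c3 (LLx H d) ≤ c3 (LLH H d) + c3 (LLL H d) := c3_or fun x y z hz => by
    by_cases e : cd H y z < d
    · exact .inr ⟨hz.1, hz.2.1, hz.2.2, e⟩
    · exact .inl ⟨hz.1, hz.2.1, hz.2.2, not_lt.1 e⟩
  have a3 := sum_val (H := H) (d := d) (pu := pu)
  have a4 := two_val E h
  rw [Fintype.card_fin] at a4
  rw [mul_assoc]
  omega

end

section

open Finset

namespace REMAa

variable {U : Type*} [Fintype U] [DecidableEq U]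

omit [DecidableEq U] in
lemma c2_adj (g : SimpleGraph U) [DecidableRel g.Adj] : c2 g.Adj = 2 * #g.edgeFinset := by
  rw [← g.sum_degrees_eq_twice_card_edges]
  exact sum_congr rfl fun x _ => congrArg card (by ext; simp)

lemma clique_le (g : SimpleGraph U) [DecidableRel g.Adj] :
    #(g.cliqueFinset 3) ≤ c3 fun x y z => g.Adj x y ∧ g.Adj x z ∧ g.Adj y z := by
  refine (card_le_card (t := univ.biUnion fun x => univ.biUnion fun y =>
    (st fun z => g.Adj x y ∧ g.Adj x z ∧ g.Adj y z).image fun z => {x, y, z}) fun s hs => ?_).trans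
    (card_biUnion_le.trans (sum_le_sum fun x _ => card_biUnion_le.trans
      (sum_le_sum fun y _ => card_image_le)))
  obtain ⟨a, b, c, h1, h2, h3, rfl⟩ :=
    SimpleGraph.is3Clique_iff.1 (SimpleGraph.mem_cliqueFinset_iff.1 hs)
  exact mem_biUnion.2 ⟨a, mem_univ _, mem_biUnion.2 ⟨b, mem_univ _,
    mem_image.2 ⟨c, mem_st.2 ⟨h1, h2, h3⟩, rfl⟩⟩⟩

lemma far {H : Finset (Finset U)} {K : ℕ} {M : U → U → Finset U} (hL : Lists H K M)
    {g g2 : SimpleGraph U} [DecidableRel g.Adj] [DecidableRel g2.Adj]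
    (hg : ∀ x y, g.Adj x y ↔ (M x y).Nonempty) (hle : g2 ≤ g) (hf : g2.CliqueFree 3) :
    ∃ d : ℕ, (c3 fun x y z => z ∈ M x y) ≤ 3 * (K * d) ∧
      d + 2 * #g2.edgeFinset ≤ 2 * #g.edgeFinset := by
  refine ⟨c2 fun x y => g.Adj x y ∧ ¬ g2.Adj x y, ?_, ?_⟩
  · have h1 : (c3 fun x y z => z ∈ M x y ∧ ¬ g2.Adj x y) ≤ _ :=
      c3_le_mul (E := fun x y => g.Adj x y ∧ ¬ g2.Adj x y) (m := K)
        (fun x y z h => ⟨(hg x y).2 ⟨z, h.1⟩, h.2⟩)
        fun x y => (ct_le_of_sub fun z h => h.1).trans (hL.2.2.2 x y)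
    have h2 := c3_swap23 fun x y z => z ∈ M x y ∧ ¬ g2.Adj x y
    have h3 := c3_rot fun x y z => z ∈ M x y ∧ ¬ g2.Adj x y
    have h4 : (c3 fun x y z => z ∈ M x y) ≤ (c3 fun x y z => z ∈ M x y ∧ ¬ g2.Adj x y) +
        c3 fun x y z => (y ∈ M x z ∧ ¬ g2.Adj x z) ∨ (x ∈ M y z ∧ ¬ g2.Adj y z) :=
      c3_or fun x y z h => by
        have a := hL.2.2.1 x y z h
        have b := hL.2.2.1 y x z (hL.2.1 x y ▸ h)
        have c := fun t => hf _ (SimpleGraph.is3Clique_triple_iff (a := x) (b := y) (c := z).2 t)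
        tauto
    have h5 := c3_or (F := fun x y z => y ∈ M x z ∧ ¬ g2.Adj x z)
      (G := fun x y z => x ∈ M y z ∧ ¬ g2.Adj y z) fun _ _ _ h => h
    omega
  · rw [← c2_adj, ← c2_adj, c2, c2, ← sum_add_distrib]
    exact sum_le_sum fun x _ => ct_add_le (fun _ h => h.1) (fun _ h => hle h) fun _ h => h.2

end REMAa

theorem p_REMA :
    S_REMA := by
  classical
  intro K ε hε
  refine ⟨_, SimpleGraph.triangleRemovalBound_pos (ε := ε / (6 * (K + 1))) (by positivity),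
    fun n H M h3 hL h => ?_⟩
  let g : SimpleGraph (Fin n) :=
    { Adj := fun x y => (M x y).Nonempty
      symm := ⟨fun x y h => hL.2.1 x y ▸ h⟩
      loopless := ⟨fun x ⟨z, hz⟩ => (link_ne h3 (hL.1 x x hz)).1 rfl⟩ }
  have h1 : g.FarFromTriangleFree (ε / (6 * (K + 1))) :=
    SimpleGraph.farFromTriangleFree_iff.2 fun g2 _ hle hf => by
      obtain ⟨d, d1, d2⟩ := REMAa.far hL (g := g) (fun _ _ => Iff.rfl) hle hf
      have e1 : ((c3 fun x y z => z ∈ M x y : ℕ) : ℝ) ≤ 3 * (K * d) := by exact_mod_cast d1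
      have e2 : (d : ℝ) + 2 * #g2.edgeFinset ≤ 2 * #g.edgeFinset := by exact_mod_cast d2
      have e3 : (0 : ℝ) ≤ d := Nat.cast_nonneg d
      have e4 : (0 : ℝ) ≤ K := Nat.cast_nonneg K
      rw [Fintype.card_fin, Nat.cast_pow, div_mul_eq_mul_div, div_le_iff₀ (by positivity)]
      nlinarith [mul_le_mul_of_nonneg_right e2 (by positivity : (0 : ℝ) ≤ K + 1)]
  have h2 := h1.le_card_cliqueFinset
  rw [Fintype.card_fin] at h2
  exact h2.trans (Nat.cast_le.2 (REMAa.clique_le g))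

end

section

open Finset

namespace REMBa

variable {U : Type} [Fintype U]

lemma swap (g : U → U → U → U → Prop) :
    ∑ c, ∑ d, c2 (fun a b => g a b c d) = ∑ a, ∑ b, c2 (g a b) := by
  simp only [c2, ct_eq_sum]
  have h : ∀ f : U → U → U → ℕ, ∑ b, ∑ c, ∑ d, f b c d = ∑ c, ∑ d, ∑ b, f b c d := fun f => by
    rw [sum_comm]
    exact sum_congr rfl fun c _ => sum_comm
  rw [← h]
  exact sum_congr rfl fun c _ => (h _).symm

lemma sq (p : U → Prop) : ct p ^ 2 = c2 fun a b => p a ∧ p b := by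
  simp only [c2, ct_eq_sum, pow_two, sum_mul_sum]
  refine sum_congr rfl fun a _ => sum_congr rfl fun b _ => ?_
  by_cases h1 : p a <;> by_cases h2 : p b <;> simp [h1, h2]

end REMBa

theorem p_REMB :
    S_REMB := by
  intro K γ hγ
  obtain ⟨n0, hn0⟩ := exists_nat_gt (4 * K / γ ^ 2)
  refine ⟨n0, fun n hn H M κ _ ⟨_, hs, hr, hK⟩ hκ h => ?_⟩
  by_contra! hc
  have h1 : 4 * (K : ℝ) < n * γ ^ 2 :=
    (div_lt_iff₀ (by positivity)).1 (hn0.trans_le (Nat.cast_le.2 hn))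
  have n1 : (0 : ℝ) < n := (mul_pos_iff_of_pos_right (pow_pos hγ 2)).1
    (lt_of_le_of_lt (by positivity) h1)
  set P := fun x y z => (M x y).Nonempty ∧ (M x z).Nonempty ∧ (M y z).Nonempty with hP
  let G := fun a1 a2 b1 b2 => (M b1 b2).Nonempty ∧ (M a1 b1).Nonempty ∧
    (M a2 b1).Nonempty ∧ (M a1 b2).Nonempty ∧ (M a2 b2).Nonempty ∧
    κ a1 b1 ≠ κ a2 b1 ∧ κ a1 b2 ≠ κ a2 b2
  have h2 : ∀ b, c2 (fun a1 a2 => (M a2 b).Nonempty ∧ κ a1 b = κ a2 b) ≤ n * K := fun b => by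
    refine (c2_le_mul fun a1 => (ct_le_of_sub fun a2 ha => ?_).trans (hK b (κ a1 b))).trans_eq
      (by rw [Fintype.card_fin])
    refine hr _ _ _ ?_
    rw [hs, ha.2]
    exact hκ _ _ ha.1
  have h3 : ∀ b1 b2, ct (P b1 b2) ^ 2 ≤ c2 (fun a1 a2 => G a1 a2 b1 b2) + (n * K + n * K) :=
    fun b1 b2 => by
      rw [REMBa.sq]
      refine (c2_or fun a1 a2 ha => ?_).trans (Nat.add_le_add_left
        ((c2_or fun _ _ => id).trans (Nat.add_le_add (h2 b1) (h2 b2))) _)
      obtain ⟨⟨p1, p2, p3⟩, -, p4, p5⟩ := ha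
      rw [hs] at p2 p3 p4 p5
      by_cases e1 : κ a1 b1 = κ a2 b1
      · exact .inr (.inl ⟨p4, e1⟩)
      by_cases e2 : κ a1 b2 = κ a2 b2
      · exact .inr (.inr ⟨p5, e2⟩)
      exact .inl ⟨p1, p2, p4, p3, p5, e1, e2⟩
  have h4 : c3 P ^ 2 ≤ n * n * (∑ a1, ∑ a2, c2 (G a1 a2) + n * (n * (n * K + n * K))) := by
    have := sq_sum_le_card_mul_sum_sq (s := univ) (f := fun b : Fin n × Fin n => ct (P b.1 b.2))
    rw [Fintype.sum_prod_type, Fintype.sum_prod_type, card_univ, Fintype.card_prod,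
      Fintype.card_fin] at this
    refine this.trans (Nat.mul_le_mul_left _ ?_)
    refine (sum_le_sum fun b1 _ => sum_le_sum fun b2 _ => h3 b1 b2).trans_eq ?_
    simp only [sum_add_distrib, sum_const, card_univ, Fintype.card_fin, smul_eq_mul, mul_add]
    rw [REMBa.swap]
  have h5 : ((∑ a1, ∑ a2, c2 (G a1 a2) : ℕ) : ℝ) ≤ n * (n * (γ ^ 2 / 2 * (n : ℝ) ^ 2)) := by
    push_cast
    refine (sum_le_sum fun a1 _ => sum_le_sum fun a2 _ => (hc a1 a2).le).trans_eq ?_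
    simp
  have h6 : (c3 P : ℝ) ^ 2 ≤ n * n * ((∑ a1, ∑ a2, c2 (G a1 a2) : ℕ) +
      n * (n * (n * K + n * K))) := by exact_mod_cast h4
  have h7 := (pow_le_pow_left₀ (by positivity) h 2).trans
    (h6.trans (mul_le_mul_of_nonneg_left (add_le_add_left h5 _) (by positivity)))
  have h8 := mul_lt_mul_of_pos_left h1 (pow_pos n1 5)
  nlinarith

end

section

open Finset

namespace REMCa

variable {U : Type*} [Fintype U] [DecidableEq U]

/-- The vertex `b'` conflicts with a vertex of `R`. -/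
def Hit (M : U → U → Finset U) (a1 a2 b : U) (R : Finset U) (b' : U) : Prop :=
  ∃ q ∈ R, b' ∈ insert q (M a1 q ∪ M a2 q ∪ M b q)

lemma ct_hit {M : U → U → Finset U} {K : ℕ} (hK : ∀ x y, (M x y).card ≤ K) (a1 a2 b : U)
    (R : Finset U) : ct (Hit M a1 a2 b R) ≤ R.card * (3 * K + 1) := by
  refine ct_exists_le R (fun q b' => b' ∈ insert q (M a1 q ∪ M a2 q ∪ M b q)) _ (fun _ h => h)
    fun q _ => (ct_le_of_sub fun _ h => h).trans ((card_insert_le _ _).trans ?_)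
  have h1 := card_union_le (M a1 q ∪ M a2 q) (M b q)
  have h2 := card_union_le (M a1 q) (M a2 q)
  have := hK a1 q
  have := hK a2 q
  have := hK b q
  omega

lemma rob {H : Finset (Finset U)} {M : U → U → Finset U} {K T : ℕ} (hL : Lists H K M) {b1 : U}
    (h : T * (K + 1) < ct fun b => (M b1 b).Nonempty) : Rob H {b1} T := by
  refine rob_one.2 fun Q hQ => ?_
  obtain ⟨b, ⟨z, hz⟩, h2⟩ := avoid Q (fun q b => b ∈ insert q (M b1 q)) (K + 1)
    (fun q _ => (ct_le_of_sub fun _ h => h.2).trans ((card_insert_le _ _).trans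
      (Nat.succ_le_succ (hL.2.2.2 b1 q)))) ((Nat.mul_le_mul_right _ hQ).trans_lt h)
  exact ⟨b, z, fun a => h2 b a (mem_insert_self _ _),
    fun a => h2 z a (mem_insert_of_mem (hL.2.2.1 _ _ _ hz)), hL.1 _ _ hz⟩

end REMCa

open REMCa in
theorem p_REMC :
    S_REMC := by
  intro K T γ hγ
  obtain ⟨n0, hn0⟩ := exists_nat_gt (((2 * ((T + 2) * (3 * K + 1)) + T * (K + 1) : ℕ) : ℝ) / γ)
  refine ⟨n0 + 1, fun n hn H M κ a1 a2 h3 hL hκ hc Q hQ => ?_⟩
  obtain ⟨R, hR⟩ : ∃ R : Fin n → Finset (Fin n), ∀ b, R b = insert (κ a1 b) (insert (κ a2 b) Q) :=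
    ⟨_, fun _ => rfl⟩
  have hRc : ∀ b b', ct (Hit M a1 a2 b' (R b)) ≤ (T + 2) * (3 * K + 1) := fun b b' =>
    (ct_hit hL.2.2.2 a1 a2 b' (R b)).trans (Nat.mul_le_mul_right _ (by
      rw [hR]
      have h1 := card_insert_le (κ a1 b) (insert (κ a2 b) Q)
      have h2 := card_insert_le (κ a2 b) Q
      omega))
  by_contra hcon
  have key : ∀ b1 b2, ((M b1 b2).Nonempty ∧ (M a1 b1).Nonempty ∧
      (M a2 b1).Nonempty ∧ (M a1 b2).Nonempty ∧ (M a2 b2).Nonempty ∧
      κ a1 b1 ≠ κ a2 b1 ∧ κ a1 b2 ≠ κ a2 b2) →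
      (Hit M a1 a2 b1 (R b1) b2 ∨ ((M b1 b2).Nonempty ∧
        ct (fun b => (M b1 b).Nonempty) ≤ T * (K + 1))) ∨ Hit M a1 a2 b2 (R b2) b1 := by
    rintro b1 b2 ⟨m0, m1, m2, m3, m4, n12, n34⟩
    by_contra hb
    rw [not_or, not_or, not_and, not_le] at hb
    obtain ⟨⟨g1, g2⟩, g3⟩ := hb
    have k0 := hκ _ _ m0
    have k1 := hκ _ _ m1
    have k2 := hκ _ _ m2
    have k3 := hκ _ _ m3
    have k4 := hκ _ _ m4
    have sw := hL.2.2.1
    have r0 : κ b1 b2 ∉ R b1 := fun h => g1 ⟨_, h, by simp [sw _ _ _ k0]⟩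
    have r0' : κ b1 b2 ∉ R b2 := fun h => g3 ⟨_, h, by simp [sw _ _ _ (hL.2.1 b1 b2 ▸ k0)]⟩
    have r1 : κ a1 b1 ∉ R b2 := fun h => g3 ⟨_, h, by simp [sw _ _ _ k1]⟩
    have r2 : κ a2 b1 ∉ R b2 := fun h => g3 ⟨_, h, by simp [sw _ _ _ k2]⟩
    have r3 : κ a1 b2 ∉ R b1 := fun h => g1 ⟨_, h, by simp [sw _ _ _ k3]⟩
    have r4 : κ a2 b2 ∉ R b1 := fun h => g1 ⟨_, h, by simp [sw _ _ _ k4]⟩
    have r5 : b2 ∉ R b1 := fun h => g1 ⟨_, h, mem_insert_self _ _⟩
    have r6 : b1 ∉ R b2 := fun h => g3 ⟨_, h, mem_insert_self _ _⟩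
    have l0 := hL.1 _ _ k0
    have l1 := hL.1 _ _ k1
    have l2 := hL.1 _ _ k2
    have l3 := hL.1 _ _ k3
    have l4 := hL.1 _ _ k4
    simp only [hR, mem_insert, not_or] at r0 r0' r1 r2 r3 r4 r5 r6
    refine hcon ⟨b1, b2, ![κ b1 b2, κ a1 b1, κ a2 b1, κ a1 b2, κ a2 b2], r6.2.2, r5.2.2,
      rob hL (g2 m0), ?_, fun i => ?_, fun i => ?_⟩
    · intro i j e
      fin_cases i <;> fin_cases j <;> first
        | rfl
        | exact absurd e r0.1 | exact absurd e r0.2.1 | exact absurd e r0'.1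
        | exact absurd e r0'.2.1 | exact absurd e n12 | exact absurd e n34
        | exact absurd e r1.1 | exact absurd e r1.2.1 | exact absurd e r2.1
        | exact absurd e r2.2.1
        | exact absurd e.symm r0.1 | exact absurd e.symm r0.2.1 | exact absurd e.symm r0'.1
        | exact absurd e.symm r0'.2.1 | exact absurd e.symm n12 | exact absurd e.symm n34
        | exact absurd e.symm r1.1 | exact absurd e.symm r1.2.1 | exact absurd e.symm r2.1
        | exact absurd e.symm r2.2.1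
    · fin_cases i
      exacts [⟨r0.2.2, (link_ne h3 l0).2.1.symm, (link_ne h3 l0).2.2.symm⟩,
        ⟨r1.2.2, (link_ne h3 l1).2.2.symm, fun e => r5.1 e.symm⟩,
        ⟨r2.2.2, (link_ne h3 l2).2.2.symm, fun e => r5.2.1 e.symm⟩,
        ⟨r3.2.2, fun e => r6.1 e.symm, (link_ne h3 l3).2.2.symm⟩,
        ⟨r4.2.2, fun e => r6.2.1 e.symm, (link_ne h3 l4).2.2.symm⟩]
    · fin_cases i
      exacts [l0, l1, l2, l3, l4]
  have h1 := c2_or key
  have h2 : c2 (fun b1 b2 => Hit M a1 a2 b1 (R b1) b2 ∨ ((M b1 b2).Nonempty ∧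
      ct (fun b => (M b1 b).Nonempty) ≤ T * (K + 1)))
      ≤ Fintype.card (Fin n) * ((T + 2) * (3 * K + 1) + T * (K + 1)) := by
    refine c2_le_mul fun b1 => (ct_or fun _ h => h).trans (add_le_add (hRc b1 b1) ?_)
    by_cases h : ct (fun b => (M b1 b).Nonempty) ≤ T * (K + 1)
    · exact (ct_mono fun _ h => h.1).trans h
    · exact (ct_eq_zero fun _ a => h a.2).trans_le (Nat.zero_le _)
  have h4 : c2 (fun b1 b2 => Hit M a1 a2 b2 (R b2) b1)
      ≤ Fintype.card (Fin n) * ((T + 2) * (3 * K + 1)) := by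
    rw [c2_swap fun b2 b1 => Hit M a1 a2 b2 (R b2) b1]
    exact c2_le_mul fun b2 => hRc b2 b2
  rw [Fintype.card_fin] at h2 h4
  have h5 := hc.trans ((Nat.cast_le (α := ℝ)).2 (h1.trans ((add_le_add h2 h4).trans
    (le_of_eq (show _ = n * (2 * ((T + 2) * (3 * K + 1)) + T * (K + 1)) by ring)))))
  rw [Nat.cast_mul] at h5
  rw [div_lt_iff₀ hγ] at hn0
  have h6 : (n0 : ℝ) + 1 ≤ n := by exact_mod_cast hn
  have h7 : (0 : ℝ) < n := by linarith [Nat.cast_nonneg (α := ℝ) n0]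
  have h8 : n * (γ * n) ≤ n * ((2 * ((T + 2) * (3 * K + 1)) + T * (K + 1) : ℕ) : ℝ) := by
    linarith
  have h9 := le_of_mul_le_mul_left h8 h7
  nlinarith

end

section

open Finset

namespace REMa

/-- The third vertices of a pair in a triple of `F`, in any order. -/
noncomputable def sym {n : ℕ} (F : Fin n → Fin n → Fin n → Prop) (x y : Fin n) : Finset (Fin n) :=
  st fun z => F x y z ∨ F y x z ∨ F x z y ∨ F z x y ∨ F y z x ∨ F z y x

lemma lists {n K : ℕ} {H : Finset (Finset (Fin n))} {F : Fin n → Fin n → Fin n → Prop}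
    (h0 : ∀ x y z, F x y z → z ∈ link2 H x y) (h1 : ∀ x y, ct (F x y) ≤ K)
    (h2 : ∀ x z, ct (fun y => F x y z) ≤ K) (h3 : ∀ y z, ct (fun x => F x y z) ≤ K) :
    Lists H (6 * K) (sym F) := by
  refine ⟨fun x y z hz => ?_, fun x y => ?_, fun x y z hz => ?_, fun x y => ?_⟩
  · rcases mem_st.1 hz with h | h | h | h | h | h
    exacts [h0 _ _ _ h, link_symm (h0 _ _ _ h), link_swap (h0 _ _ _ h), link_rot (h0 _ _ _ h),
      link_symm (link_swap (h0 _ _ _ h)), link_symm (link_rot (h0 _ _ _ h))]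
  · ext z
    simp only [sym, mem_st]
    tauto
  · simp only [sym, mem_st] at hz ⊢
    tauto
  · have a1 := ct_or (p := fun z => F x y z ∨ F y x z ∨ F x z y ∨ F z x y ∨ F y z x ∨ F z y x)
      fun _ h => h
    have a2 := ct_or (p := fun z => F y x z ∨ F x z y ∨ F z x y ∨ F y z x ∨ F z y x) fun _ h => h
    have a3 := ct_or (p := fun z => F x z y ∨ F z x y ∨ F y z x ∨ F z y x) fun _ h => h
    have a4 := ct_or (p := fun z => F z x y ∨ F y z x ∨ F z y x) fun _ h => h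
    have a5 := ct_or (p := fun z => F y z x ∨ F z y x) fun _ h => h
    have b1 := h1 x y
    have b2 := h1 y x
    have b3 := h2 x y
    have b4 := h3 x y
    have b5 := h2 y x
    have b6 := h3 y x
    refine a1.trans ?_
    omega

lemma final {n T : ℕ} {H : Finset (Finset (Fin n))} {a1 a2 : Fin n} (ha : a1 ≠ a2)
    (hC : ∀ Q : Finset (Fin n), Q.card ≤ T + 9 → ∃ (b1 b2 : Fin n) (c : Fin 5 → Fin n),
      b1 ∉ Q ∧ b2 ∉ Q ∧ Rob H {b1} (T + 9) ∧ Function.Injective c ∧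
      (∀ i, c i ∉ Q ∧ c i ≠ b1 ∧ c i ≠ b2) ∧
      ∀ i, c i ∈ ![link2 H b1 b2, link2 H a1 b1, link2 H a2 b1, link2 H a1 b2, link2 H a2 b2] i) :
    ¬ (F2 H T ∨ F3 H T ∨ F4 H T) := by
  obtain ⟨b1, b2, c, -, -, hr, hi, hc, hm⟩ := hC {a1, a2} (card_le_two.trans (by omega))
  have hD : Dia H a1 a2 b1 b2 := ⟨ha, c, hi, fun i => by
    have := hc i
    simp only [mem_insert, mem_singleton] at this ⊢
    tauto, hm⟩
  have hR : Rob H {a1, a2} T := rob_two fun Q hQ => by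
    obtain ⟨b, b', e, h1, -, -, h2, h3, h4⟩ := hC Q (by omega)
    exact ⟨b, e 1, e 2, h1, (h3 1).1, (h3 2).1, h2.ne (by decide), h4 1, h4 2⟩
  rintro (h | h | h)
  · exact h _ _ _ _ hR hD
  · exact h _ _ _ _ (hr.mono subset_rfl (by omega)) hD
  obtain ⟨x, y, e, hx, hy, -, ei, he, em⟩ := hC ({a1, a2, b1, b2} ∪ univ.image c) (by
    have h1 := card_union_le {a1, a2, b1, b2} (univ.image c)
    have h2 := card_le_four (a := a1) (b := a2) (c := b1) (d := b2)
    have h3 : (univ.image c).card ≤ 5 := card_image_le.trans (by simp)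
    omega)
  simp only [mem_union, mem_insert, mem_singleton, mem_image, mem_univ, true_and, not_or,
    not_exists] at hx hy he hc
  have n1 : ∀ i j, c i ≠ e j := fun i j => (he j).1.2 i
  have n2 : ∀ i j, e j ≠ c i := fun i j => (n1 i j).symm
  refine h a1 b1 b2 x y (hR.mono (by simp) le_rfl) ⟨Ne.symm hx.1.2.2.1, Ne.symm hy.1.2.2.1,
    Ne.symm hx.1.2.2.2, Ne.symm hy.1.2.2.2, ![c 1, c 3, c 0, e 1, e 3, e 0], fun i j => ?_,
    fun i => ?_, fun i => ?_⟩
  · fin_cases i <;> fin_cases j <;> simp [hi.eq_iff, ei.eq_iff, n1, n2]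
  · fin_cases i <;> simp [hc, he, hx.2, hy.2]
  · fin_cases i
    exacts [hm 1, hm 3, hm 0, em 1, em 3, em 0]

end REMa

theorem p_REM (hREMA : S_REMA) (hREMB : S_REMB) (hREMC : S_REMC) :
    S_REM := by
  classical
  intro K T ε hε
  obtain ⟨γ, hγ, hA⟩ := hREMA (6 * K) ε hε
  obtain ⟨n1, hB⟩ := hREMB (6 * K) γ hγ
  obtain ⟨n2, hC⟩ := hREMC (6 * K) (T + 9) (γ ^ 2 / 2) (by positivity)
  refine ⟨n1 + n2 + 1, fun n hn H F h3 hF f0 f1 f2 f3 => not_lt.1 fun hc => ?_⟩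
  have hL := REMa.lists f0 f1 f2 f3
  let κ : Fin n → Fin n → Fin n := fun x y =>
    if h : (REMa.sym F x y).Nonempty then h.choose else x
  have hκ : ∀ x y, (REMa.sym F x y).Nonempty → κ x y ∈ REMa.sym F x y := fun x y h => by
    simp only [κ, dif_pos h]
    exact h.choose_spec
  obtain ⟨a1, a2, ha⟩ := hB n (by omega) H _ κ h3 hL hκ (hA n H _ h3 hL (hc.trans_le
    (Nat.cast_le.2 (c3_mono fun x y z h => mem_st.2 (.inl h)))))
  refine REMa.final (a1 := a1) (a2 := a2) ?_ (hC n (by omega) H _ κ a1 a2 h3 hL hκ ha) hF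
  rintro rfl
  rw [c2, sum_eq_zero fun x _ => ct_eq_zero fun y h => h.2.2.2.2.2.1 rfl, Nat.cast_zero] at ha
  have : (0 : ℝ) < n := Nat.cast_pos.2 (by omega)
  exact absurd ha (not_le.2 (by positivity))

end

end Pool.Agent.P.MP_e3cf1a_co.X
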