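import Pool.Agent.P.MP_e3cf1a_co.Embed

/-!
Basic notions for the sharp constant: counting functions, heavy pairs, fans, diamonds, bowties.
-/

namespace Pool.Agent.P.MP_e3cf1a_co.X

open Finset

section Count

variable {U : Type*} [Fintype U]

open Classical in
/-- The elements with property `p`. -/
noncomputable def st (p : U → Prop) : Finset U := univ.filter p

@[simp] lemma mem_st {p : U → Prop} {x : U} : x ∈ st p ↔ p x := by simp [st]

/-- The number of elements with property `p`. -/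
noncomputable def ct (p : U → Prop) : ℕ := (st p).card

/-- The number of ordered pairs with property `E`. -/
noncomputable def c2 (E : U → U → Prop) : ℕ := ∑ x, ct (E x)

/-- The number of ordered triples with property `F`. -/
noncomputable def c3 (F : U → U → U → Prop) : ℕ := ∑ x, ∑ y, ct (F x y)

lemma ct_le_card (p : U → Prop) : ct p ≤ Fintype.card U := card_le_univ _

lemma ct_mono {p q : U → Prop} (h : ∀ x, p x → q x) : ct p ≤ ct q :=
  card_le_card fun x hx => mem_st.2 (h x (mem_st.1 hx))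

lemma ct_le_of_sub {p : U → Prop} {s : Finset U} (h : ∀ x, p x → x ∈ s) : ct p ≤ s.card :=
  card_le_card fun x hx => h x (mem_st.1 hx)

lemma card_le_ct {p : U → Prop} {s : Finset U} (h : ∀ x ∈ s, p x) : s.card ≤ ct p :=
  card_le_card fun x hx => mem_st.2 (h x hx)

lemma ct_or {p q r : U → Prop} (h : ∀ x, p x → q x ∨ r x) : ct p ≤ ct q + ct r := by
  classical
  refine le_trans (ct_le_of_sub (s := st q ∪ st r) fun x hx => ?_) (card_union_le _ _)
  simpa using h x hx

lemma ct_add_le {p q r : U → Prop} (hp : ∀ x, p x → r x) (hq : ∀ x, q x → r x)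
    (h : ∀ x, p x → ¬ q x) : ct p + ct q ≤ ct r := by
  classical
  unfold ct
  rw [← card_union_of_disjoint (disjoint_left.2 fun x a b => h x (mem_st.1 a) (mem_st.1 b))]
  exact card_le_ct fun x hx => by
    rcases mem_union.1 hx with a | a
    exacts [hp x (mem_st.1 a), hq x (mem_st.1 a)]

lemma ct_eq_zero {p : U → Prop} (h : ∀ x, ¬ p x) : ct p = 0 :=
  Nat.eq_zero_of_le_zero (ct_le_of_sub (s := ∅) fun x hx => absurd hx (h x))

lemma exists_of_ct_pos {p : U → Prop} (h : 0 < ct p) : ∃ x, p x := by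
  obtain ⟨x, hx⟩ := card_pos.1 h
  exact ⟨x, mem_st.1 hx⟩

lemma exists_two_of_ct {p : U → Prop} (h : 2 ≤ ct p) : ∃ x y, x ≠ y ∧ p x ∧ p y := by
  obtain ⟨x, hx, y, hy, e⟩ := one_lt_card.1 h
  exact ⟨x, y, e, mem_st.1 hx, mem_st.1 hy⟩

lemma exists_three_of_ct {p : U → Prop} (h : 3 ≤ ct p) :
    ∃ x y z, x ≠ y ∧ x ≠ z ∧ y ≠ z ∧ p x ∧ p y ∧ p z := by
  obtain ⟨x, y, z, hx, hy, hz, e1, e2, e3⟩ := two_lt_card_iff.1 h
  exact ⟨x, y, z, e1, e2, e3, mem_st.1 hx, mem_st.1 hy, mem_st.1 hz⟩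

open Classical in
lemma ct_eq_sum (p : U → Prop) : ct p = ∑ x, if p x then 1 else 0 := by
  rw [ct, st, card_filter]

/-- An element with property `p` outside a smaller set. -/
lemma exists_notMem_of_lt_ct {p : U → Prop} {Q : Finset U} (h : Q.card < ct p) :
    ∃ x, p x ∧ x ∉ Q := by
  obtain ⟨x, hx, h2⟩ := exists_mem_notMem_of_card_lt_card h
  exact ⟨x, mem_st.1 hx, h2⟩

/-- Union bound over a finite set of witnesses. -/
lemma ct_exists_le {ι : Type*} (s : Finset ι) (r : ι → U → Prop) {p : U → Prop} (m : ℕ)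
    (h : ∀ x, p x → ∃ i ∈ s, r i x) (hm : ∀ i ∈ s, ct (r i) ≤ m) : ct p ≤ s.card * m := by
  classical
  refine le_trans (ct_le_of_sub (s := s.biUnion fun i => st (r i)) fun x hx => ?_)
    (card_biUnion_le_card_mul _ _ _ hm)
  simpa using h x hx

/-- If each `q` in `Q` hits at most `m` elements, a large set has an element hit by no `q`. -/
lemma avoid {ι : Type*} (Q : Finset ι) (hit : ι → U → Prop) {p : U → Prop} (m : ℕ)
    (hm : ∀ q ∈ Q, ct (fun b => p b ∧ hit q b) ≤ m) (h : Q.card * m < ct p) :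
    ∃ b, p b ∧ ∀ q ∈ Q, ¬ hit q b := by
  by_contra hc
  push Not at hc
  refine absurd (ct_exists_le Q (fun q b => p b ∧ hit q b) m (fun x hx => ?_) hm) (not_le.2 h)
  obtain ⟨q, hq, h1⟩ := hc x hx
  exact ⟨q, hq, hx, h1⟩

lemma c2_mono {E F : U → U → Prop} (h : ∀ x y, E x y → F x y) : c2 E ≤ c2 F :=
  sum_le_sum fun x _ => ct_mono (h x)

lemma c2_or {E F G : U → U → Prop} (h : ∀ x y, E x y → F x y ∨ G x y) : c2 E ≤ c2 F + c2 G := by
  unfold c2
  rw [← sum_add_distrib]
  exact sum_le_sum fun x _ => ct_or (h x)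

lemma c2_swap (E : U → U → Prop) : c2 (fun x y => E y x) = c2 E := by
  simp only [c2, ct_eq_sum]
  exact sum_comm

lemma c2_le_mul {E : U → U → Prop} {m : ℕ} (h : ∀ x, ct (E x) ≤ m) :
    c2 E ≤ Fintype.card U * m := by
  simpa [c2] using sum_le_card_nsmul univ (fun x => ct (E x)) m fun x _ => h x

lemma c3_mono {E F : U → U → U → Prop} (h : ∀ x y z, E x y z → F x y z) : c3 E ≤ c3 F :=
  sum_le_sum fun x _ => sum_le_sum fun y _ => ct_mono (h x y)

lemma c3_or {E F G : U → U → U → Prop} (h : ∀ x y z, E x y z → F x y z ∨ G x y z) :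
    c3 E ≤ c3 F + c3 G := by
  unfold c3
  rw [← sum_add_distrib]
  refine sum_le_sum fun x _ => ?_
  rw [← sum_add_distrib]
  exact sum_le_sum fun y _ => ct_or (h x y)

lemma c3_swap12 (F : U → U → U → Prop) : c3 (fun x y z => F y x z) = c3 F := sum_comm

lemma c3_swap23 (F : U → U → U → Prop) : c3 (fun x y z => F x z y) = c3 F :=
  sum_congr rfl fun x _ => c2_swap (F x)

lemma c3_rot (F : U → U → U → Prop) : c3 (fun x y z => F y z x) = c3 F := by
  rw [← c3_swap23 F, ← c3_swap12 fun x y z => F x z y]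

lemma c3_rot' (F : U → U → U → Prop) : c3 (fun x y z => F z x y) = c3 F := by
  rw [← c3_swap12 F, ← c3_swap23 fun x y z => F y x z]

lemma c3_swap13 (F : U → U → U → Prop) : c3 (fun x y z => F z y x) = c3 F := by
  rw [← c3_swap12 F, ← c3_rot fun x y z => F y x z]

/-- Pairs that lie in a triple are at most as many as the triples. -/
lemma c2_exists_le (F : U → U → U → Prop) : c2 (fun x y => ∃ z, F x y z) ≤ c3 F := by
  classical
  refine sum_le_sum fun x _ => ?_
  rw [ct_eq_sum]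
  refine sum_le_sum fun y _ => ?_
  split_ifs with h
  · obtain ⟨z, hz⟩ := h
    exact card_pos.2 ⟨z, mem_st.2 hz⟩
  · exact Nat.zero_le _

/-- Triples over a set of pairs with bounded fibres. -/
lemma c3_le_mul {F : U → U → U → Prop} {E : U → U → Prop} {m : ℕ}
    (h : ∀ x y z, F x y z → E x y) (hm : ∀ x y, ct (F x y) ≤ m) : c3 F ≤ m * c2 E := by
  classical
  unfold c3 c2
  rw [mul_sum]
  refine sum_le_sum fun x _ => ?_
  rw [ct_eq_sum (E x), mul_sum]
  refine sum_le_sum fun y _ => ?_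
  split_ifs with h1
  · simpa using hm x y
  · simpa using ct_eq_zero fun z hz => h1 (h x y z hz)

end Count

variable {U : Type*} [Fintype U] [DecidableEq U]

/-- The codegree of a pair. -/
abbrev cd (H : Finset (Finset U)) (x y : U) : ℕ := (link2 H x y).card

lemma link_comm (H : Finset (Finset U)) (x y : U) : link2 H x y = link2 H y x := by
  ext z
  rw [mem_link2, mem_link2, insert_comm]

lemma cd_comm (H : Finset (Finset U)) (x y : U) : cd H x y = cd H y x := by
  rw [cd, link_comm]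

lemma link_swap {H : Finset (Finset U)} {x y z : U} (h : z ∈ link2 H x y) : y ∈ link2 H x z := by
  rw [mem_link2] at h ⊢
  rwa [pair_comm]

lemma link_symm {H : Finset (Finset U)} {x y z : U} (h : z ∈ link2 H x y) : z ∈ link2 H y x :=
  link_comm H x y ▸ h

lemma link_rot {H : Finset (Finset U)} {x y z : U} (h : z ∈ link2 H x y) : x ∈ link2 H y z :=
  link_swap (link_symm h)

lemma link_ne {H : Finset (Finset U)} (h3 : IsThreeGraph H) {x y z : U} (h : z ∈ link2 H x y) :
    x ≠ y ∧ x ≠ z ∧ y ≠ z := distinct_of_mem h3 (mem_link2.1 h)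

lemma left_notMem {H : Finset (Finset U)} (h3 : IsThreeGraph H) (x y : U) : x ∉ link2 H x y :=
  fun h => (link_ne h3 h).2.1 rfl

lemma right_notMem {H : Finset (Finset U)} (h3 : IsThreeGraph H) (x y : U) : y ∉ link2 H x y :=
  fun h => (link_ne h3 h).2.2 rfl

lemma ne_of_cd {H : Finset (Finset U)} (h3 : IsThreeGraph H) {x y : U} (h : 0 < cd H x y) :
    x ≠ y := by
  obtain ⟨z, hz⟩ := card_pos.1 h
  exact (link_ne h3 hz).1

/-- The number of `y` with `z` in the link of `x, y` is at most the codegree of `x, z`. -/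
lemma ct_link_le {H : Finset (Finset U)} {x z : U} {p : U → Prop}
    (h : ∀ y, p y → z ∈ link2 H x y) : ct p ≤ cd H x z :=
  ct_le_of_sub fun y hy => link_swap (h y hy)

/-- The graph of the pairs of codegree at least `d`. -/
def hG (H : Finset (Finset U)) (d : ℕ) : SimpleGraph U where
  Adj x y := x ≠ y ∧ d ≤ cd H x y
  symm := ⟨fun x y h => ⟨h.1.symm, cd_comm H x y ▸ h.2⟩⟩
  loopless := ⟨fun _ h => h.1 rfl⟩

lemma hG_adj {H : Finset (Finset U)} (h3 : IsThreeGraph H) {d : ℕ} (hd : 0 < d) {x y : U} :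
    (hG H d).Adj x y ↔ d ≤ cd H x y :=
  ⟨fun h => h.2, fun h => ⟨ne_of_cd h3 (hd.trans_le h), h⟩⟩

/-- A triple of `H` whose three pairs are heavy. -/
def HHH (H : Finset (Finset U)) (d : ℕ) (x y z : U) : Prop :=
  z ∈ link2 H x y ∧ d ≤ cd H x y ∧ d ≤ cd H x z ∧ d ≤ cd H y z

/-- A triple of `H` whose only light pair is `x, y`. -/
def LHH (H : Finset (Finset U)) (d : ℕ) (x y z : U) : Prop :=
  z ∈ link2 H x y ∧ cd H x y < d ∧ d ≤ cd H x z ∧ d ≤ cd H y z

/-- A triple of `H` whose only heavy pair is `y, z`. -/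
def LLH (H : Finset (Finset U)) (d : ℕ) (x y z : U) : Prop :=
  z ∈ link2 H x y ∧ cd H x y < d ∧ cd H x z < d ∧ d ≤ cd H y z

/-- A triple of `H` whose three pairs are light. -/
def LLL (H : Finset (Finset U)) (d : ℕ) (x y z : U) : Prop :=
  z ∈ link2 H x y ∧ cd H x y < d ∧ cd H x z < d ∧ cd H y z < d

/-- A triple of `H` whose two pairs through `x` are light. -/
def LLx (H : Finset (Finset U)) (d : ℕ) (x y z : U) : Prop :=
  z ∈ link2 H x y ∧ cd H x y < d ∧ cd H x z < d

/-- Outside every set of at most `T` vertices there is an expanded star with leaves `A`. -/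
def Rob (H : Finset (Finset U)) (A : Finset U) (T : ℕ) : Prop :=
  ∀ Q : Finset U, Q.card ≤ T → ∃ c, c ∉ Q ∧ ∃ z : U → U, Set.InjOn z A ∧
    ∀ a ∈ A, z a ∉ Q ∧ z a ∈ link2 H a c

/-- An expanded diamond with tips `a1, a2` and spine `b1, b2`. -/
def Dia (H : Finset (Finset U)) (a1 a2 b1 b2 : U) : Prop :=
  a1 ≠ a2 ∧ ∃ c : Fin 5 → U, Function.Injective c ∧
    (∀ i, c i ∉ ({a1, a2, b1, b2} : Finset U)) ∧
    ∀ i, c i ∈ ![link2 H b1 b2, link2 H a1 b1, link2 H a2 b1, link2 H a1 b2, link2 H a2 b2] i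

/-- An expanded bowtie with centre `a` and triangles `a x1 y1`, `a x2 y2`. -/
def Bow (H : Finset (Finset U)) (a x1 y1 x2 y2 : U) : Prop :=
  x1 ≠ x2 ∧ x1 ≠ y2 ∧ y1 ≠ x2 ∧ y1 ≠ y2 ∧ ∃ c : Fin 6 → U, Function.Injective c ∧
    (∀ i, c i ∉ ({a, x1, y1, x2, y2} : Finset U)) ∧
    ∀ i, c i ∈ ![link2 H a x1, link2 H a y1, link2 H x1 y1,
      link2 H a x2, link2 H a y2, link2 H x2 y2] i

lemma Rob.mono {H : Finset (Finset U)} {A B : Finset U} {T T' : ℕ} (h : Rob H A T) (hB : B ⊆ A)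
    (hT : T' ≤ T) : Rob H B T' := fun Q hQ => by
  obtain ⟨c, hc, z, h1, h2⟩ := h Q (hQ.trans hT)
  exact ⟨c, hc, z, h1.mono hB, fun a ha => h2 a (hB ha)⟩

lemma rob_one {H : Finset (Finset U)} {a : U} {T : ℕ} :
    Rob H {a} T ↔ ∀ Q : Finset U, Q.card ≤ T → ∃ c z, c ∉ Q ∧ z ∉ Q ∧ z ∈ link2 H a c := by
  refine forall₂_congr fun Q _ => ⟨?_, ?_⟩
  · rintro ⟨c, hc, z, -, h2⟩
    exact ⟨c, z a, hc, h2 a (mem_singleton_self a)⟩
  · rintro ⟨c, z, h1, h2, h3⟩
    exact ⟨c, h1, fun _ => z, by simp, by simpa using ⟨h2, h3⟩⟩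

lemma rob_two {H : Finset (Finset U)} {a b : U} {T : ℕ}
    (h : ∀ Q : Finset U, Q.card ≤ T → ∃ c z w, c ∉ Q ∧ z ∉ Q ∧ w ∉ Q ∧ z ≠ w ∧
      z ∈ link2 H a c ∧ w ∈ link2 H b c) : Rob H {a, b} T := fun Q hQ => by
  obtain ⟨c, z, w, h1, h2, h3, h4, h5, h6⟩ := h Q hQ
  refine ⟨c, h1, fun x => if x = a then z else w, ?_, ?_⟩
  · intro x hx y hy e
    simp only [coe_insert, coe_singleton, Set.mem_insert_iff, Set.mem_singleton_iff] at hx hy
    by_cases e1 : x = a <;> by_cases e2 : y = a <;> simp_all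
  · intro x hx
    simp only [mem_insert, mem_singleton] at hx
    by_cases e1 : x = a <;> simp_all

omit [Fintype U] in
/-- Distinct representatives from lower bounds for the sizes. -/
lemma sdr_rank {ι : Type*} [Fintype ι] (t : ι → Finset U) (k : ι → ℕ)
    (ht : ∀ i, k i ≤ (t i).card) (hk : ∀ i, (univ.filter fun j => k j ≤ k i).card ≤ k i) :
    ∃ f : ι → U, Function.Injective f ∧ ∀ i, f i ∈ t i := by
  apply (Finset.all_card_le_biUnion_card_iff_exists_injective t).mp
  intro s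
  rcases s.eq_empty_or_nonempty with rfl | hs
  · simp
  obtain ⟨i, hi, hmax⟩ := exists_max_image s k hs
  calc s.card ≤ (univ.filter fun j => k j ≤ k i).card :=
        card_le_card fun j hj => mem_filter.2 ⟨mem_univ _, hmax j hj⟩
    _ ≤ (t i).card := (hk i).trans (ht i)
    _ ≤ (s.biUnion t).card := card_le_card (subset_biUnion_of_mem t hi)

omit [Fintype U] in
/-- A lower bound for the part of `s` outside `Z` when `s` meets `Z` only inside `R`. -/
lemma le_card_sdiff_of {s Z R : Finset U} {k : ℕ} (h : ∀ z ∈ s, z ∈ Z → z ∈ R)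
    (hk : k + R.card ≤ s.card) : k ≤ (s \ Z).card := by
  have h1 : s \ R ⊆ s \ Z := fun z hz =>
    mem_sdiff.2 ⟨(mem_sdiff.1 hz).1, fun a => (mem_sdiff.1 hz).2 (h z (mem_sdiff.1 hz).1 a)⟩
  have h2 := le_card_sdiff R s
  have h3 := card_le_card h1
  omega

lemma dia_of_rank {H : Finset (Finset U)} {a1 a2 b1 b2 : U} (ha : a1 ≠ a2) (k : Fin 5 → ℕ)
    (hk : ∀ i, (univ.filter fun j => k j ≤ k i).card ≤ k i)
    (h0 : k 0 ≤ (link2 H b1 b2 \ {a1, a2, b1, b2}).card)
    (h1 : k 1 ≤ (link2 H a1 b1 \ {a1, a2, b1, b2}).card)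
    (h2 : k 2 ≤ (link2 H a2 b1 \ {a1, a2, b1, b2}).card)
    (h3 : k 3 ≤ (link2 H a1 b2 \ {a1, a2, b1, b2}).card)
    (h4 : k 4 ≤ (link2 H a2 b2 \ {a1, a2, b1, b2}).card) : Dia H a1 a2 b1 b2 := by
  obtain ⟨f, hf, hm⟩ := sdr_rank (fun i => ![link2 H b1 b2, link2 H a1 b1, link2 H a2 b1,
    link2 H a1 b2, link2 H a2 b2] i \ {a1, a2, b1, b2}) k (fun i => by
      fin_cases i
      exacts [h0, h1, h2, h3, h4]) hk
  exact ⟨ha, f, hf, fun i => (mem_sdiff.1 (hm i)).2, fun i => (mem_sdiff.1 (hm i)).1⟩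

/-- A pair of codegree at least nine has five third vertices outside any four vertices. -/
lemma five_le {H : Finset (Finset U)} {x y a b c e : U} (h : 9 ≤ cd H x y) :
    5 ≤ (link2 H x y \ {a, b, c, e}).card :=
  le_card_sdiff_of (R := {a, b, c, e}) (fun _ _ h => h) (by
    have := card_le_four (a := a) (b := b) (c := c) (d := e)
    unfold cd at h
    omega)

/-- Many common heavy neighbours give a fan. -/
lemma rob_of_heavy {H : Finset (Finset U)} {A : Finset U} {T d : ℕ} (hd : T + A.card ≤ d)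
    (h : T < ct fun c => ∀ a ∈ A, d ≤ cd H a c) : Rob H A T := fun Q hQ => by
  obtain ⟨c, h1, h2⟩ := exists_notMem_of_lt_ct (hQ.trans_lt h)
  obtain ⟨f, hf, hm⟩ := exists_sdr (fun a : A => link2 H a c \ Q) fun a => by
    have h3 := h1 a a.2
    have h4 := le_card_sdiff Q (link2 H a c)
    simp only [Fintype.card_coe]
    unfold cd at h3
    omega
  refine ⟨c, h2, fun a => if ha : a ∈ A then f ⟨a, ha⟩ else a, ?_, fun a ha => ?_⟩
  · intro x hx y hy e
    simp only [dif_pos (mem_coe.1 hx), dif_pos (mem_coe.1 hy)] at e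
    exact congrArg Subtype.val (hf e)
  · simp only [dif_pos ha]
    exact ⟨(mem_sdiff.1 (hm ⟨a, ha⟩)).2, (mem_sdiff.1 (hm ⟨a, ha⟩)).1⟩

omit [Fintype U] in
/-- If no two members of a family are free of conflict, few vertices meet all members. -/
lemma cover {ι : Type*} (en : ι → Finset U) (k : ℕ) : ∀ (P : ι → Prop) (R : ι → Finset U),
    (∀ p, P p → (en p).card ≤ 2 ∧ (R p).card ≤ k) →
    (∀ p q, P p → P q → ¬ Disjoint (en p) (en q) ∨ ¬ Disjoint (R p) (en q) ∨
      ¬ Disjoint (R q) (en p)) →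
    ∃ Q : Finset U, Q.card ≤ (k + 1) * (k + 2) ∧ ∀ p, P p → ¬ Disjoint Q (en p) := by
  induction k with
  | zero =>
    intro P R h1 h2
    by_cases h : ∃ p, P p
    · obtain ⟨p, hp⟩ := h
      refine ⟨en p, (h1 p hp).1, fun q hq => ?_⟩
      have a := card_eq_zero.1 (Nat.le_zero.1 (h1 p hp).2)
      have b := card_eq_zero.1 (Nat.le_zero.1 (h1 q hq).2)
      simpa [a, b] using h2 p q hp hq
    · exact ⟨∅, by simp, fun p hp => absurd ⟨p, hp⟩ h⟩
  | succ k ih =>
    intro P R h1 h2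
    by_cases h : ∃ p, P p
    swap
    · exact ⟨∅, by simp, fun p hp => absurd ⟨p, hp⟩ h⟩
    obtain ⟨p, hp⟩ := h
    obtain ⟨Q, hQ, hc⟩ := ih (fun q => P q ∧ Disjoint (en p ∪ R p) (en q))
      (fun q => R q \ en p) (fun q hq => ⟨(h1 q hq.1).1, by
        have a := disjoint_union_left.1 hq.2
        have b : ¬ Disjoint (R q) (en p) := by simpa [a.1, a.2] using h2 p q hp hq.1
        have c : R q \ en p ⊂ R q :=
          ⟨sdiff_subset, fun e => b (disjoint_left.2 fun z z1 => (mem_sdiff.1 (e z1)).2)⟩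
        have := card_lt_card c
        have := (h1 q hq.1).2
        omega⟩) (fun q r hq hr => by
        have a := (disjoint_union_left.1 hq.2).1
        have b := (disjoint_union_left.1 hr.2).1
        rcases h2 q r hq.1 hr.1 with c | c | c
        · exact .inl c
        · refine .inr (.inl fun e => c (disjoint_left.2 fun z z1 z2 => ?_))
          exact disjoint_left.1 e (mem_sdiff.2 ⟨z1, fun z3 => disjoint_left.1 b z3 z2⟩) z2
        · refine .inr (.inr fun e => c (disjoint_left.2 fun z z1 z2 => ?_))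
          exact disjoint_left.1 e (mem_sdiff.2 ⟨z1, fun z3 => disjoint_left.1 a z3 z2⟩) z2)
    refine ⟨en p ∪ R p ∪ Q, ?_, fun q hq e => ?_⟩
    · have a := card_union_le (en p ∪ R p) Q
      have b := card_union_le (en p) (R p)
      have c := h1 p hp
      nlinarith [c.1, c.2]
    · have a := disjoint_union_left.1 e
      exact hc q ⟨hq, a.1⟩ a.2

end Pool.Agent.P.MP_e3cf1a_co.X
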