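import Pool.Agent.P.MP_e3cf1a_co.Defs

/-!
The generalized Turan number of triangles.
-/

namespace Pool.Agent.P.MP_e3cf1a_co

/-- `ex(n, K_3, G)`: the largest number of triangles in a graph on `n` vertices that contains no
copy of `G`. -/
noncomputable def exTri {V : Type*} (n : ℕ) (G : SimpleGraph V) : ℕ :=
  sSup {m : ℕ | ∃ S : SimpleGraph (Fin n), G.Free S ∧ (S.cliqueSet 3).ncard = m}

end Pool.Agent.P.MP_e3cf1a_co
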