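import Pool.Agent.P.MP_e3cf1a_co.Sh.Base
import Pool.Agent.P.MP_e3cf1a_co.Sh.Defs

/-!
The steps of the proof of the sharp constant.
-/

namespace Pool.Agent.P.MP_e3cf1a_co.X

open Finset

section Defs

variable {U : Type*} [Fintype U] [DecidableEq U]

/-- No fan on three vertices. -/
def F1 (H : Finset (Finset U)) (T : ℕ) : Prop := ∀ A : Finset U, A.card = 3 → ¬ Rob H A T

/-- No diamond with a fan on its tips. -/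
def F2 (H : Finset (Finset U)) (T : ℕ) : Prop :=
  ∀ a1 a2 b1 b2, Rob H {a1, a2} T → ¬ Dia H a1 a2 b1 b2

/-- No diamond with a fan on a spine vertex. -/
def F3 (H : Finset (Finset U)) (T : ℕ) : Prop :=
  ∀ a1 a2 b1 b2, Rob H {b1} T → ¬ Dia H a1 a2 b1 b2

/-- No bowtie with a fan on its centre. -/
def F4 (H : Finset (Finset U)) (T : ℕ) : Prop :=
  ∀ a x1 y1 x2 y2, Rob H {a} T → ¬ Bow H a x1 y1 x2 y2

/-- An ordered triangle. -/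
def Tri (S : SimpleGraph U) (x y z : U) : Prop := S.Adj x y ∧ S.Adj x z ∧ S.Adj y z

/-- Any three vertices have at most `D` common neighbours. -/
def Cod3 (S : SimpleGraph U) (D : ℕ) : Prop :=
  ∀ u v w, u ≠ v → u ≠ w → v ≠ w → (nbr S u ∩ nbr S v ∩ nbr S w).card ≤ D

/-- Three vertices with pairwise codegrees above `D` have at most `k` common neighbours. -/
def Cod3h (S : SimpleGraph U) (D k : ℕ) : Prop :=
  ∀ u v w, u ≠ v → u ≠ w → v ≠ w → D < (nbr S u ∩ nbr S v).card → D < (nbr S u ∩ nbr S w).card →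
    D < (nbr S v ∩ nbr S w).card → (nbr S u ∩ nbr S v ∩ nbr S w).card ≤ k

/-- The charge that the end `x` puts on the pair `x, y`. -/
noncomputable def val (H : Finset (Finset U)) (d : ℕ) (pu : U → U → U → Prop) (x y : U) : ℕ :=
  ct (LHH H d x y) + ct (fun z => LLH H d x y z ∧ ¬ pu x y z) +
    ct (fun z => LLH H d x y z ∧ pu x z y)

/-- Symmetric lists of size at most `K` inside the links. -/
def Lists (H : Finset (Finset U)) (K : ℕ) (M : U → U → Finset U) : Prop :=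
  (∀ x y, M x y ⊆ link2 H x y) ∧ (∀ x y, M x y = M y x) ∧
    (∀ x y z, z ∈ M x y → y ∈ M x z) ∧ ∀ x y, (M x y).card ≤ K

/-- How often `z` is a third vertex of a light pair through `x`. -/
noncomputable def pop (H : Finset (Finset U)) (d : ℕ) (x z : U) : ℕ :=
  ct fun y => cd H x y < d ∧ z ∈ link2 H x y

/-- The light pair `x, y` has two third vertices that are rare at `x`, or one joined to `x` by a
heavy pair. -/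
def good (H : Finset (Finset U)) (d s : ℕ) (x y : U) : Prop :=
  cd H x y < d ∧ (2 ≤ ct (fun z => z ∈ link2 H x y ∧ pop H d x z ≤ s) ∨
    ∃ z ∈ link2 H x y, pop H d x z ≤ s ∧ d ≤ cd H x z)

/-- The vertex `x` has at least `r` good partners. -/
def rich (H : Finset (Finset U)) (d s : ℕ) (r : ℝ) (x : U) : Prop := r ≤ ct (good H d s x)

/-- The first rule for moving charge. -/
def pu2 (H : Finset (Finset U)) (x u w : U) : Prop := 5 ≤ cd H x u ∧ cd H x w ≤ 2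

/-- The second rule for moving charge. -/
def pu3 (H : Finset (Finset U)) (d : ℕ) (x u w : U) : Prop :=
  5 ≤ cd H x u ∧ (cd H x w ≤ 2 ∨ (cd H x w = 3 ∧ ∀ z ∈ link2 H x w, cd H x z < d))

/-- The exceptional pairs for the diamond with a fan on its tips. -/
def Ex2 (H : Finset (Finset U)) (d s : ℕ) (r : ℝ) (x y : U) : Prop :=
  (good H d s x y ∧ ¬ rich H d s r x) ∨
  (∃ z, rich H d s r x ∧ rich H d s r y ∧ LHH H d x y z ∧ 3 ≤ cd H x y) ∨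
  (∃ z, s < pop H d y z ∧ rich H d s r x ∧ LHH H d x y z ∧ 3 ≤ cd H x y) ∨
  (∃ z w, z ≠ w ∧ s < pop H d x z ∧ s < pop H d x w ∧ LHH H d x y z ∧ LHH H d x y w ∧
    3 ≤ cd H x y) ∨
  (∃ w, rich H d s r x ∧ LLH H d x y w ∧ 5 ≤ cd H x y ∧ 3 ≤ cd H x w)

/-- The exceptional pairs for the diamond with a fan on a spine vertex. -/
def Ex3 (H : Finset (Finset U)) (d T : ℕ) (x y : U) : Prop :=
  (∃ z, LHH H d x y z ∧ 3 ≤ cd H x y) ∨ (¬ Rob H {x} T ∧ ∃ z, LLH H d x y z)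

/-- A triple whose codegrees are, in some order, at least `3`, `5` and `d`. -/
def R4 (H : Finset (Finset U)) (d : ℕ) (x y z : U) : Prop :=
  z ∈ link2 H x y ∧ 3 ≤ cd H x y ∧ 3 ≤ cd H x z ∧ 3 ≤ cd H y z ∧
    (d ≤ cd H x y ∨ d ≤ cd H x z ∨ d ≤ cd H y z) ∧
    ((5 ≤ cd H x y ∧ 5 ≤ cd H x z) ∨ (5 ≤ cd H x y ∧ 5 ≤ cd H y z) ∨
      (5 ≤ cd H x z ∧ 5 ≤ cd H y z))

/-- The heavy degree. -/
noncomputable def hd (H : Finset (Finset U)) (d : ℕ) (z : U) : ℕ := ct fun v => d ≤ cd H z v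

/-- The light charge at the vertex `b`, with `Z` the set of vertices of large heavy degree. -/
noncomputable def chg (H : Finset (Finset U)) (d : ℕ) (Z : Finset U) (b : U) : ℕ :=
  ∑ a, (ct (LLx H d a b) + ct fun z => z ∈ Z ∧ LHH H d a b z)

end Defs

/-- All edges of `G` join a set of at most three vertices to its complement. -/
def Sh1 {V : Type*} (G : SimpleGraph V) : Prop :=
  ∃ I : Finset V, I.card ≤ 3 ∧ ∀ x y, G.Adj x y → (x ∈ I ↔ y ∉ I)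

/-- `G` consists of a part `X` inside the host `h` and of vertices joined only to `I`, where `I`
lies over `A`. -/
def Core {V : Type*} (G : SimpleGraph V) {k : ℕ} (h : Fin k → Fin k → Prop) (A : Finset (Fin k)) :
    Prop :=
  ∃ (X I : Finset V) (f : V → Fin k), I ⊆ X ∧ Set.InjOn f X ∧ (∀ v ∈ I, f v ∈ A) ∧
    (∀ x y, G.Adj x y → x ∉ X → y ∈ I) ∧ ∀ x ∈ X, ∀ y ∈ X, G.Adj x y → h (f x) (f y)

/-- The diamond with tips `0, 1` and spine `2, 3`. -/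
def hDia (i j : Fin 4) : Prop := i ≠ j ∧ (2 ≤ i ∨ 2 ≤ j)

/-- The bowtie with centre `0` and triangles `0 1 2`, `0 3 4`. -/
def hBow (i j : Fin 5) : Prop := i ≠ j ∧ (i = 0 ∨ j = 0 ∨ (i ≤ 2 ↔ j ≤ 2))

-- deps:
def S_SIX : Prop :=
  ∀ (n : ℕ) (H : Finset (Finset (Fin n))), IsThreeGraph H →
    c3 (fun x y z => z ∈ link2 H x y) = 6 * H.card

-- deps: SIX
def S_ACC1 : Prop :=
  ∀ (n d : ℕ) (H : Finset (Finset (Fin n))), IsThreeGraph H →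
    6 * H.card ≤ c3 (HHH H d) + 3 * (c3 (LHH H d) + c3 (LLx H d))

-- deps: ACC1
def S_ACC2 : Prop :=
  ∀ (n d : ℕ) (H : Finset (Finset (Fin n))) (pu : Fin n → Fin n → Fin n → Prop)
    (E : Fin n → Fin n → Prop), IsThreeGraph H →
    (∀ x y, ¬ E x y → ¬ E y x → cd H x y < d → val H d pu x y + val H d pu y x ≤ 4) →
    6 * H.card ≤ c3 (HHH H d) + 3 * c3 (LLL H d) + 6 * n ^ 2 + 12 * d * c2 E

-- deps:
def S_REMA : Prop :=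
  ∀ (K : ℕ) (ε : ℝ), 0 < ε → ∃ γ : ℝ, 0 < γ ∧ ∀ (n : ℕ) (H : Finset (Finset (Fin n)))
    (M : Fin n → Fin n → Finset (Fin n)), IsThreeGraph H → Lists H K M →
    ε * (n : ℝ) ^ 2 < c3 (fun x y z => z ∈ M x y) →
    γ * (n : ℝ) ^ 3 ≤ c3 fun x y z => (M x y).Nonempty ∧ (M x z).Nonempty ∧ (M y z).Nonempty

-- deps:
def S_REMB : Prop :=
  ∀ (K : ℕ) (γ : ℝ), 0 < γ → ∃ n0 : ℕ, ∀ n ≥ n0, ∀ (H : Finset (Finset (Fin n)))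
    (M : Fin n → Fin n → Finset (Fin n)) (κ : Fin n → Fin n → Fin n), IsThreeGraph H →
    Lists H K M → (∀ x y, (M x y).Nonempty → κ x y ∈ M x y) →
    γ * (n : ℝ) ^ 3 ≤ c3 (fun x y z => (M x y).Nonempty ∧ (M x z).Nonempty ∧ (M y z).Nonempty) →
    ∃ a1 a2, γ ^ 2 / 2 * (n : ℝ) ^ 2 ≤ c2 fun b1 b2 => (M b1 b2).Nonempty ∧ (M a1 b1).Nonempty ∧
      (M a2 b1).Nonempty ∧ (M a1 b2).Nonempty ∧ (M a2 b2).Nonempty ∧
      κ a1 b1 ≠ κ a2 b1 ∧ κ a1 b2 ≠ κ a2 b2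

-- deps:
def S_REMC : Prop :=
  ∀ (K T : ℕ) (γ : ℝ), 0 < γ → ∃ n0 : ℕ, ∀ n ≥ n0, ∀ (H : Finset (Finset (Fin n)))
    (M : Fin n → Fin n → Finset (Fin n)) (κ : Fin n → Fin n → Fin n) (a1 a2 : Fin n),
    IsThreeGraph H → Lists H K M → (∀ x y, (M x y).Nonempty → κ x y ∈ M x y) →
    γ * (n : ℝ) ^ 2 ≤ c2 (fun b1 b2 => (M b1 b2).Nonempty ∧ (M a1 b1).Nonempty ∧
      (M a2 b1).Nonempty ∧ (M a1 b2).Nonempty ∧ (M a2 b2).Nonempty ∧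
      κ a1 b1 ≠ κ a2 b1 ∧ κ a1 b2 ≠ κ a2 b2) →
    ∀ Q : Finset (Fin n), Q.card ≤ T → ∃ (b1 b2 : Fin n) (c : Fin 5 → Fin n), b1 ∉ Q ∧ b2 ∉ Q ∧
      Rob H {b1} T ∧ Function.Injective c ∧ (∀ i, c i ∉ Q ∧ c i ≠ b1 ∧ c i ≠ b2) ∧
      ∀ i, c i ∈ ![link2 H b1 b2, link2 H a1 b1, link2 H a2 b1, link2 H a1 b2, link2 H a2 b2] i

-- deps: REMA REMB REMC
def S_REM : Prop :=
  ∀ (K T : ℕ) (ε : ℝ), 0 < ε → ∃ n0 : ℕ, ∀ n ≥ n0, ∀ (H : Finset (Finset (Fin n)))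
    (F : Fin n → Fin n → Fin n → Prop), IsThreeGraph H → (F2 H T ∨ F3 H T ∨ F4 H T) →
    (∀ x y z, F x y z → z ∈ link2 H x y) → (∀ x y, ct (F x y) ≤ K) →
    (∀ x z, ct (fun y => F x y z) ≤ K) → (∀ y z, ct (fun x => F x y z) ≤ K) →
    (c3 F : ℝ) ≤ ε * (n : ℝ) ^ 2

-- deps:
def S_PAIR : Prop :=
  ∀ (n D w : ℕ) (W : Fin n → Fin n → Prop) (C : Fin n → Finset (Fin n)) (A : Fin n → Prop)
    (γ : ℝ), 0 < γ → (∀ x, A x → γ * n ≤ ct (W x)) → (∀ x, A x → (C x).card ≤ D) →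
    (∀ x y, A x → A y → x ≠ y → y ∉ C x → x ∉ C y → ct (fun b => W x b ∧ W y b) ≤ w) →
    (w : ℝ) ≤ γ ^ 2 * n / 2 → (ct A : ℝ) ≤ 2 * (2 * D + 1) / γ ^ 2

-- deps:
def S_STR : Prop :=
  ∀ (n d s T : ℕ) (H : Finset (Finset (Fin n))), IsThreeGraph H → T + 2 ≤ d →
    (∀ x y, T * (1 + 2 * s) < ct (fun b => good H d s x b ∧ good H d s y b) → Rob H {x, y} T) ∧
    ∀ x, ct (fun z => s < pop H d x z) * s ≤ d * n

-- deps: PAIR STR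
def S_M2 : Prop :=
  ∀ (n d s T : ℕ) (γ : ℝ) (H : Finset (Finset (Fin n))), IsThreeGraph H → F2 H T → T + 9 ≤ d →
    0 < γ → ((T * (1 + 2 * s) : ℕ) : ℝ) ≤ γ ^ 2 * n / 2 →
    (∀ y z, (ct (fun x => rich H d s (γ * n) x ∧ LHH H d x y z ∧ 3 ≤ cd H x y) : ℝ) ≤
      2 * (4 * d + 1) / γ ^ 2) ∧
    ∀ u w, (ct (fun x => rich H d s (γ * n) x ∧ LLH H d x u w ∧ 5 ≤ cd H x u ∧ 3 ≤ cd H x w) : ℝ) ≤
      2 * (4 * d + 1) / γ ^ 2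

-- deps: REM
def S_H2 : Prop :=
  ∀ (T d : ℕ) (ε : ℝ), 0 < ε → T + 9 ≤ d → ∃ n0 : ℕ, ∀ n ≥ n0, ∀ H : Finset (Finset (Fin n)),
    IsThreeGraph H → F2 H T → (c3 (HHH H d) : ℝ) ≤ ε * (n : ℝ) ^ 2

-- deps:
def S_PT2 : Prop :=
  ∀ (n d s : ℕ) (r : ℝ) (H : Finset (Finset (Fin n))), IsThreeGraph H → d ≤ s → ∀ x y,
    ¬ Ex2 H d s r x y → ¬ Ex2 H d s r y x → cd H x y < d →
    val H d (pu2 H) x y + val H d (pu2 H) y x ≤ 4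

-- deps: REM STR M2
def S_EX2 : Prop :=
  ∀ (T d : ℕ) (ε : ℝ), 0 < ε → T + 9 ≤ d → ∃ n0 : ℕ, ∀ n ≥ n0, ∃ (s : ℕ) (r : ℝ), d ≤ s ∧
    ∀ H : Finset (Finset (Fin n)), IsThreeGraph H → F2 H T →
      (c2 (Ex2 H d s r) : ℝ) ≤ ε * (n : ℝ) ^ 2

-- deps:
def S_PT3 : Prop :=
  ∀ (n d T : ℕ) (H : Finset (Finset (Fin n))), IsThreeGraph H → F3 H T → 9 ≤ d → ∀ x y,
    ¬ Ex3 H d T x y → ¬ Ex3 H d T y x → cd H x y < d →
    val H d (pu3 H d) x y + val H d (pu3 H d) y x ≤ 4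

-- deps: REM
def S_EX3 : Prop :=
  ∀ (T d : ℕ) (ε : ℝ), 0 < ε → T + 9 ≤ d → ∃ n0 : ℕ, ∀ n ≥ n0, ∀ H : Finset (Finset (Fin n)),
    IsThreeGraph H → F3 H T →
      (c2 (Ex3 H d T) : ℝ) ≤ ε * (n : ℝ) ^ 2 ∧ (c3 (HHH H d) : ℝ) ≤ ε * (n : ℝ) ^ 2

-- deps:
def S_BOW : Prop :=
  ∀ (n d : ℕ) (H : Finset (Finset (Fin n))), IsThreeGraph H → 11 ≤ d → ∀ a x1 y1 x2 y2,
    R4 H d a x1 y1 → R4 H d a x2 y2 → Disjoint ({x1, y1} : Finset (Fin n)) {x2, y2} →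
    (∀ z ∈ ({x2, y2} : Finset (Fin n)), (cd H a x1 < d → z ∉ link2 H a x1) ∧
      (cd H a y1 < d → z ∉ link2 H a y1) ∧ (cd H x1 y1 < d → z ∉ link2 H x1 y1)) →
    (∀ z ∈ ({x1, y1} : Finset (Fin n)), (cd H a x2 < d → z ∉ link2 H a x2) ∧
      (cd H a y2 < d → z ∉ link2 H a y2) ∧ (cd H x2 y2 < d → z ∉ link2 H x2 y2)) →
    Bow H a x1 y1 x2 y2

-- deps: BOW
def S_R4 : Prop :=
  ∀ T d : ℕ, 11 ≤ d → ∃ C : ℕ, ∀ (n : ℕ) (H : Finset (Finset (Fin n))), IsThreeGraph H →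
    F4 H T → c3 (R4 H d) ≤ C * n

-- deps:
def S_PT4 : Prop :=
  ∀ (n d : ℕ) (H : Finset (Finset (Fin n))), IsThreeGraph H → 5 ≤ d → ∀ x y,
    (¬ ∃ z, R4 H d x y z) → (¬ ∃ z, R4 H d y x z) → cd H x y < d →
    val H d (pu2 H) x y + val H d (pu2 H) y x ≤ 4

-- deps: ACC2 REM H2 PT2 EX2 PT3 EX3 R4 PT4
def S_F234 : Prop :=
  ∀ (T : ℕ) (ε : ℝ), 0 < ε → ∃ n0 : ℕ, ∀ n ≥ n0, ∀ H : Finset (Finset (Fin n)),
    IsThreeGraph H → (F2 H T ∨ F3 H T ∨ F4 H T) → (H.card : ℝ) ≤ (1 + ε) * (n : ℝ) ^ 2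

-- deps:
def S_K3 : Prop :=
  ∀ (n m : ℕ) (R : Fin n → Fin n → Prop) (z : Fin n → Fin n → Fin n) (ε : ℝ), 0 < ε → 0 < n →
    (∀ b c, ct (fun a => R a b ∧ z a b = c) ≤ m) → ε * (n : ℝ) ^ 2 ≤ c2 R →
    ∃ a1 a2 a3, ε ^ 3 * n - 3 * m ≤ ct fun b => R a1 b ∧ R a2 b ∧ R a3 b ∧ z a1 b ≠ z a2 b ∧
      z a1 b ≠ z a3 b ∧ z a2 b ≠ z a3 b

-- deps:
def S_ROB3 : Prop :=
  ∀ (n d T : ℕ) (H : Finset (Finset (Fin n))) (Ah Al : Finset (Fin n)) (p : Fin n → Prop),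
    IsThreeGraph H → (Ah ∪ Al).card ≤ 3 → T + 3 ≤ d → (∀ b, p b → ∀ a ∈ Ah, d ≤ cd H a b) →
    (∀ b, p b → ∀ a ∈ Al, Al.card ≤ ct (LLx H d a b)) → T * (1 + 3 * d) < ct p →
    Rob H (Ah ∪ Al) T

-- deps: K3
def S_RB : Prop :=
  ∀ (T : ℕ) (ε : ℝ), 0 < ε → ∃ δ : ℝ, 0 < δ ∧ ∃ n0 : ℕ, ∀ n ≥ n0, ∀ (d s : ℕ)
    (H : Finset (Finset (Fin n))), IsThreeGraph H → F1 H T → (s : ℝ) ≤ δ * n →
    (c2 (fun a b => ∃ z, LHH H d a b z ∧ hd H d z ≤ s) : ℝ) ≤ ε * (n : ℝ) ^ 2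

-- deps: K3 ROB3
def S_RJ : Prop :=
  ∀ (T d : ℕ) (ε : ℝ), 0 < ε → T + 3 ≤ d → ∃ n0 : ℕ, ∀ n ≥ n0, ∀ (H : Finset (Finset (Fin n)))
    (J : Finset (Fin n)), IsThreeGraph H → F1 H T →
    (c2 (fun a b => cd H a b < d ∧ (∀ z ∈ J, d ≤ cd H z b) ∧
      3 ≤ ct (LLx H d a b) + J.card) : ℝ) ≤ ε * (n : ℝ) ^ 2

-- deps: RJ
def S_CHG : Prop :=
  ∀ (T d M : ℕ) (ε : ℝ), 0 < ε → T + 3 ≤ d → ∃ n0 : ℕ, ∀ n ≥ n0,
    ∀ (H : Finset (Finset (Fin n))) (Z X : Finset (Fin n)), IsThreeGraph H → F1 H T →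
    Z.card ≤ M → ((∑ b ∈ X, chg H d Z b : ℕ) : ℝ) ≤ 2 * n * X.card + ε * (n : ℝ) ^ 2

-- deps: ROB3
def S_YY : Prop :=
  ∀ (T d M : ℕ) (ε : ℝ), 0 < ε → T + 3 ≤ d → ∃ K : ℕ, ∀ (n : ℕ) (H : Finset (Finset (Fin n)))
    (Z : Finset (Fin n)), IsThreeGraph H → F1 H T → Z.card ≤ M → ∃ Y : Finset (Fin n),
    ((∑ b ∈ Y, chg H d Z b : ℕ) : ℝ) ≤ ε * (n : ℝ) ^ 2 ∧
    ∑ x ∈ Yᶜ, (nbr (hG H d) x).card ^ 2 ≤ K * n ^ 2

-- deps: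
def S_TX : Prop :=
  ∀ (D C : ℕ) (ε : ℝ), 0 < ε → ∃ n0 : ℕ, ∀ n ≥ n0, ∀ (S : SimpleGraph (Fin n))
    (X : Finset (Fin n)), Cod3 S D → ∑ x ∈ X, (nbr S x).card ^ 2 ≤ C * n ^ 2 →
    (c3 (fun x y z => x ∈ X ∧ Tri S x y z) : ℝ) ≤ ε * (n : ℝ) ^ 2

-- deps: ACC1 RB CHG YY TX
def S_F1 : Prop :=
  ∀ (T d : ℕ) (ε : ℝ), 0 < ε → T + 3 ≤ d → ∃ n0 : ℕ, ∀ n ≥ n0, ∀ H : Finset (Finset (Fin n)),
    IsThreeGraph H → F1 H T → ∃ Y : Finset (Fin n), 6 * (H.card : ℝ) ≤ 6 * n * (n - Y.card) +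
      c3 (fun x y z => x ∈ Y ∧ y ∈ Y ∧ z ∈ Y ∧ Tri (hG H d) x y z) + ε * (n : ℝ) ^ 2

-- deps:
def S_TRA : Prop :=
  ∀ (n D k s : ℕ) (S : SimpleGraph (Fin n)), Cod3 S D → Cod3h S D k →
    ∑ v ∈ univ.filter (fun v => (nbr S v).card ≤ s), (nbr S v).card ^ 3 ≤
      k * n ^ 3 + 3 * (D + 1) * s * n ^ 2

-- deps:
def S_TRB : Prop :=
  ∀ (n D k : ℕ) (S : SimpleGraph (Fin n)) (v : Fin n), Cod3 S D → Cod3h S D k →
    c2 (fun x y => Tri S v x y ∧ D < (nbr S v ∩ nbr S y).card) ^ 2 ≤ (nbr S v).card *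
      (k * (nbr S v).card ^ 2 + D * c2 (fun y y' => S.Adj v y ∧ S.Adj v y' ∧ y ≠ y' ∧
        (nbr S y ∩ nbr S y').card ≤ D) + c2 (Tri S v))

-- deps: TRA TRB
def S_TRI : Prop :=
  ∀ (D k : ℕ) (ε : ℝ), 0 < ε → ∃ n0 : ℕ, ∀ n ≥ n0, ∀ S : SimpleGraph (Fin n), Cod3 S D →
    Cod3h S D k → (c3 (Tri S) : ℝ) ≤ (k + ε) * (n : ℝ) ^ 2

-- deps:
def S_EXT : Prop :=
  ∀ (V : Type) [Fintype V] [DecidableEq V] (G : SimpleGraph V) (n : ℕ)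
    (H : Finset (Finset (Fin n))) (X I : Finset V) (ψ : V → Fin n) (κ : Sym2 V → Fin n)
    (A : Finset (Fin n)), IsThreeGraph H → I ⊆ X → Set.InjOn ψ X → (∀ v ∈ I, ψ v ∈ A) →
    (∀ x y, G.Adj x y → x ∉ X → y ∈ I) →
    (∀ x ∈ X, ∀ y ∈ X, G.Adj x y → κ s(x, y) ∈ link2 H (ψ x) (ψ y) ∧ ∀ v ∈ X, κ s(x, y) ≠ ψ v) →
    (∀ x ∈ X, ∀ y ∈ X, ∀ x' ∈ X, ∀ y' ∈ X, G.Adj x y → G.Adj x' y' →
      κ s(x, y) = κ s(x', y') → s(x, y) = s(x', y')) →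
    Rob H A (Fintype.card V + Fintype.card (Sym2 V)) → ContainsCopy H (expansion G)

-- deps:
def S_SHAPE : Prop :=
  ∀ (V : Type) [Fintype V] [DecidableEq V] (G : SimpleGraph V) (X : Finset (V ⊕ G.edgeSet)),
    IsCrosscut (expansion G) X → X.card = 3 →
    Sh1 G ∨ Core G hDia {0, 1} ∨ Core G hDia {2} ∨ Core G hBow {0}

-- deps: EXT
def S_EMB : Prop :=
  ∀ (V : Type) [Fintype V] [DecidableEq V] (G : SimpleGraph V) (n : ℕ)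
    (H : Finset (Finset (Fin n))), IsThreeGraph H → ¬ ContainsCopy H (expansion G) →
    (Sh1 G → F1 H (Fintype.card V + Fintype.card (Sym2 V))) ∧
    (Core G hDia {0, 1} → F2 H (Fintype.card V + Fintype.card (Sym2 V))) ∧
    (Core G hDia {2} → F3 H (Fintype.card V + Fintype.card (Sym2 V))) ∧
    (Core G hBow {0} → F4 H (Fintype.card V + Fintype.card (Sym2 V)))

-- deps:
def S_SH1 : Prop :=
  ∀ (V : Type) [Fintype V] [DecidableEq V] (G : SimpleGraph V) (n m : ℕ)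
    (S : SimpleGraph (Fin n)), Sh1 G → G.Free S →
    (completeBipartiteGraph (Fin 3) (Fin (m + 1))).Free G →
    Cod3 S (2 * Fintype.card V) ∧ Cod3h S (2 * Fintype.card V) (m - 1)

-- deps: SIX
def S_RESTR : Prop :=
  ∀ (V : Type) [Fintype V] [DecidableEq V] (G : SimpleGraph V),
    (∀ (n d : ℕ) (H : Finset (Finset (Fin n))) (Y : Finset (Fin n)),
      ¬ ContainsCopy H (expansion G) → Fintype.card V + Fintype.card (Sym2 V) ≤ d →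
      c3 (fun x y z => x ∈ Y ∧ y ∈ Y ∧ z ∈ Y ∧ Tri (hG H d) x y z) ≤ 6 * exTri Y.card G) ∧
    ∀ (n : ℕ) (t : ℝ), 0 ≤ t → (∀ S : SimpleGraph (Fin n), G.Free S → (c3 (Tri S) : ℝ) ≤ t) →
      6 * (exTri n G : ℝ) ≤ t

-- deps:
def S_LOW : Prop :=
  ∀ (V : Type) [Fintype V] [DecidableEq V] (G : SimpleGraph V),
    CrosscutNumberEq (expansion G) 3 →
    (∀ n, 2 * n.choose 2 ≤ ex3 (n + 2) (expansion G)) ∧ ∀ n, exTri n G ≤ ex3 n (expansion G)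

end Pool.Agent.P.MP_e3cf1a_co.X
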